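import Pool.Agent.QUX.Nt9

/-!
# QUX/Nt4: a rich matroid of the class of rank four with at least nine elements has a triangle

`core9`: nine elements, every three of rank three, every six of rank four, rank four: not rich (the argument of `nt9`).  `no_six`: six points of a
plane, no three collinear (`QUD.ex_36`).  `nt4`: restriction to nine elements.
-/

set_option autoImplicit false

noncomputable section

open scoped Classical

namespace Pool.Agent.QUX

open Pool.Agent.FRM Pool.Agent.QUS Pool.Agent.QUE Pool.Agent.QUY Pool.Agent.QUD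
open Pool.Agent.QU (van Itv Sub Rich Th3 HasRich)
open QUB (gs)

variable {E : Type} [Fintype E]

theorem core9 {L : Submodule F4 (E → F4)} {p : Itv E} (hL : Cls L) (hp : p.1 ⊆ p.2) (hR : HasRich (rk L) p)
    (h9 : (gs p).card = 9) (hr : rk L p.2 = rk L p.1 + 4)
    (t3 : ∀ x ∈ gs p, ∀ y ∈ gs p, ∀ w ∈ gs p, x ≠ y → x ≠ w → y ≠ w → rk L (p.1 ∪ {x, y, w}) = rk L p.1 + 3)
    (c6 : ∀ B ⊆ gs p, 6 ≤ B.card → rk L (p.1 ∪ B) = rk L p.2) : False := by
  have hRk := isRk L
  have sub3 : ∀ {x y w : E}, x ∈ gs p → y ∈ gs p → w ∈ gs p → ({x, y, w} : Finset E) ⊆ gs p := by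
    intro x y w hx hy hw v hv
    simp only [Finset.mem_insert, Finset.mem_singleton] at hv
    rcases hv with rfl | rfl | rfl <;> assumption
  have c3 : ∀ B ⊆ gs p, 3 ≤ B.card → rk L p.1 + 3 ≤ rk L (p.1 ∪ B) := by
    intro B hB hc
    obtain ⟨S, hS, hSc⟩ := Finset.exists_subset_card_eq hc
    obtain ⟨x, y, w, a, b, c, rfl⟩ := Finset.card_eq_three.1 hSc
    have e1 := t3 x (hB (hS (by simp))) y (hB (hS (by simp))) w (hB (hS (by simp))) a b c
    have e2 := hRk.mono (p.1 ∪ {x, y, w}) (p.1 ∪ B) (Finset.union_subset_union (Finset.Subset.refl _) hS)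
    omega
  have c2 : ∀ B ⊆ gs p, 2 ≤ B.card → rk L p.1 + 2 ≤ rk L (p.1 ∪ B) := by
    intro B hB hc
    obtain ⟨S, hS, hSc⟩ := Finset.exists_subset_card_eq hc
    obtain ⟨w, hw, hwS⟩ : ∃ w ∈ gs p, w ∉ S := by
      by_contra hcon
      push Not at hcon
      have := Finset.card_le_card hcon
      omega
    have e1 := c3 (insert w S) (Finset.insert_subset hw (hS.trans hB)) (by rw [Finset.card_insert_of_notMem hwS]; omega)
    have e2 := hRk.mono (p.1 ∪ S) (p.1 ∪ B) (Finset.union_subset_union (Finset.Subset.refl _) hS)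
    have e3 := hRk.unit (p.1 ∪ S) w
    have e4 : insert w (p.1 ∪ S) = p.1 ∪ insert w S := by
      ext v
      simp only [Finset.mem_insert, Finset.mem_union]
      tauto
    rw [e4] at e3
    omega
  have hub : ∀ B ⊆ gs p, p.1 ∪ B ⊆ p.2 := fun B hB => Finset.union_subset hp (hB.trans Finset.sdiff_subset)
  -- a deleted element
  obtain ⟨q, hq, hqR⟩ := hR
  have hq0 := hqR.1
  have hq5 : (gs q).card = 5 := hqR.2.1
  obtain ⟨z, hz, hzq⟩ : ∃ z ∈ gs p, z ∉ q.2 := by
    by_contra hcon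
    push Not at hcon
    have hgq : gs q ⊆ gs p := fun x hx => Finset.mem_sdiff.2
      ⟨hq.2 (Finset.mem_sdiff.1 hx).1, fun h => (Finset.mem_sdiff.1 hx).2 (hq.1 h)⟩
    have h4 : (gs p \ gs q).card = 4 := by
      rw [Finset.card_sdiff_of_subset hgq]
      omega
    have h5 := c3 (gs p \ gs q) Finset.sdiff_subset (by omega)
    have h6 : p.1 ∪ (gs p \ gs q) ⊆ q.1 := by
      intro v hv
      rcases Finset.mem_union.1 hv with hv | hv
      · exact hq.1 hv
      · obtain ⟨h7, h8⟩ := Finset.mem_sdiff.1 hv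
        by_contra h9
        exact h8 (Finset.mem_sdiff.2 ⟨hcon v h7, h9⟩)
    have h7 := hRk.mono _ _ h6
    have h8 := hRk.mono _ _ hq.2
    rcases hqR.2.2 with ⟨h9, -⟩ | ⟨h9, -⟩ <;> omega
  set p' : Itv E := (p.1, p.2.erase z) with hp'd
  have hz2 := (Finset.mem_sdiff.1 hz).1
  have hz1 := (Finset.mem_sdiff.1 hz).2
  have hp' : p'.1 ⊆ p'.2 := fun v hv => Finset.mem_erase.2 ⟨fun h => hz1 (h ▸ hv), hp hv⟩
  have hg' : gs p' = (gs p).erase z := by
    ext v
    simp only [QUB.gs, hp'd, Finset.mem_sdiff, Finset.mem_erase]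
    tauto
  have hg'' : gs p' ⊆ gs p := by
    rw [hg']
    exact Finset.erase_subset _ _
  have h8 : (gs p').card = 8 := by
    rw [hg', Finset.card_erase_of_mem hz]
    omega
  have hc' : ∀ A ⊆ gs p', p'.2 \ A = p.1 ∪ (gs p' \ A) := by
    intro A hA
    ext v
    have a1 := @hp v
    have a2 := fun h : v ∈ A => (Finset.mem_sdiff.1 (hg'' (hA h))).2
    have a3 : v ∈ p.1 → v ≠ z := fun h h' => hz1 (h' ▸ h)
    simp only [QUB.gs, hp'd, Finset.mem_sdiff, Finset.mem_erase, Finset.mem_union]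
    tauto
  have hr' : rk L p'.2 = rk L p.2 := by
    have e1 := hc' ∅ (Finset.empty_subset _)
    rw [Finset.sdiff_empty, Finset.sdiff_empty] at e1
    rw [e1]
    exact c6 _ hg'' (by omega)
  have ht' : Th3 (rk L) p' := by
    intro A hA h1 h2
    have hA' : A ⊆ gs p' := hA
    have h2' : 2 ≤ (gs p' \ A).card := h2
    have h4 := Finset.card_sdiff_of_subset hA'
    have h5 := c2 A (hA'.trans hg'') h1
    have h6 := c2 (gs p' \ A) (Finset.sdiff_subset.trans hg'') h2'
    show 2 ≤ rk L (p'.1 ∪ A) + rk L (p'.2 \ A) - rk L p'.2 - rk L p'.1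
    rw [hc' A hA', hr', hr]
    show 2 ≤ rk L (p.1 ∪ A) + rk L (p.1 ∪ (gs p' \ A)) - (rk L p.1 + 4) - rk L p.1
    by_cases hA6 : 6 ≤ A.card
    · have h7 := c6 A (hA'.trans hg'') hA6
      omega
    · by_cases hA2 : A.card ≤ 2
      · have h7 := c6 (gs p' \ A) (Finset.sdiff_subset.trans hg'') (by omega)
        omega
      · have h7 := c3 A (hA'.trans hg'') (by omega)
        have h8 := c3 (gs p' \ A) (Finset.sdiff_subset.trans hg'') (by omega)
        omega
  by_cases h5' : ∀ x ∈ gs p', ∀ y ∈ gs p', ∀ w ∈ gs p', x ≠ y → x ≠ w → y ≠ w → rk L (p'.2 \ {x, y, w}) = rk L p'.2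
  · refine d44 hL hp' h8 (by rw [hr', hr]) ht' (fun x hx y hy w hw a b c => t3 x (hg'' hx) y (hg'' hy) w (hg'' hw) a b c) h5'
      (q := q) ⟨hq.1, fun v hv => Finset.mem_erase.2 ⟨fun h => hzq (h ▸ hv), hq.2 hv⟩⟩ hqR
  push Not at h5'
  obtain ⟨x, hx, y, hy, w, hw, xy, xw, yw, hne⟩ := h5'
  have sxyw : ({x, y, w} : Finset E) ⊆ gs p' := by
    intro v hv
    simp only [Finset.mem_insert, Finset.mem_singleton] at hv
    rcases hv with rfl | rfl | rfl <;> assumption
  set P := gs p' \ {x, y, w} with hP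
  have hPg : P ⊆ gs p := Finset.sdiff_subset.trans hg''
  have hPc : P.card = 5 := by
    rw [hP, Finset.card_sdiff_of_subset sxyw, Finset.card_eq_three.2 ⟨x, y, w, xy, xw, yw, rfl⟩]
    omega
  have hPr : rk L (p.1 ∪ P) = rk L p.1 + 3 := by
    rw [hc' _ sxyw, hr', ← hP] at hne
    have e1 := c3 P hPg (by omega)
    have e2 := hRk.mono _ _ (hub P hPg)
    omega
  have nz : ∀ v ∈ P, v ≠ z ∧ v ≠ x ∧ v ≠ y ∧ v ≠ w := by
    intro v hv
    obtain ⟨h4, h5⟩ := Finset.mem_sdiff.1 hv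
    rw [hg'] at h4
    simp only [Finset.mem_insert, Finset.mem_singleton, not_or] at h5
    exact ⟨(Finset.mem_erase.1 h4).1, h5.1, h5.2.1, h5.2.2⟩
  have gx := hg'' hx
  have gy := hg'' hy
  have gw := hg'' hw
  have zx : z ≠ x := by
    rintro rfl
    rw [hg'] at hx
    exact (Finset.mem_erase.1 hx).1 rfl
  have zy : z ≠ y := by
    rintro rfl
    rw [hg'] at hy
    exact (Finset.mem_erase.1 hy).1 rfl
  have zw : z ≠ w := by
    rintro rfl
    rw [hg'] at hw
    exact (Finset.mem_erase.1 hw).1 rfl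
  have zP : z ∉ P := fun h => (nz z h).1 rfl
  have xP : x ∉ P := fun h => (nz x h).2.1 rfl
  have yP : y ∉ P := fun h => (nz y h).2.2.1 rfl
  have wP : w ∉ P := fun h => (nz w h).2.2.2 rfl
  obtain ⟨L0, hL0, hr0, -⟩ := minor hL hp
  have hA : ∀ A ⊆ gs p, rk L0 A = rk L (p.1 ∪ A) - rk L p.1 := by
    intro A hA
    rw [hr0, Finset.inter_eq_left.2 (fun x hx => (Finset.mem_sdiff.1 (hA hx)).1), Finset.union_comm]
  have A3 : ∀ {a b c : E}, a ∈ gs p → b ∈ gs p → c ∈ gs p → a ≠ b → a ≠ c → b ≠ c → rk L0 {a, b, c} = 3 := by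
    intro a b c ha hb hc h1 h2 h4
    rw [hA _ (sub3 ha hb hc), t3 a ha b hb c hc h1 h2 h4]
    omega
  have A6 : ∀ {B : Finset E}, B ⊆ gs p → 6 ≤ B.card → rk L0 B = 4 := by
    intro B hB hc
    rw [hA _ hB, c6 B hB hc]
    omega
  have key : ∀ {u v t : E}, u ∈ gs p → v ∈ gs p → t ∈ gs p → u ∉ P → v ∉ P → t ∉ P → u ≠ v → v ≠ t → t ≠ u →
      ∃ i ∈ P, ∃ j ∈ P, i ≠ j ∧ rk L0 ({i, j} ∪ {u, v, t}) ≤ 3 := by
    intro u v t gu gv gt uP vP tP uv vt tu
    have ins : ∀ {s : E}, s ∈ gs p → s ∉ P → rk L0 (insert s P) = 4 := by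
      intro s hs hsP
      exact A6 (Finset.insert_subset hs hPg) (by rw [Finset.card_insert_of_notMem hsP]; omega)
    refine lemQ hL0 hPc uP vP tP uv vt tu ?_ (ins gu uP) (ins gv vP) (ins gt tP) ?_ ?_ ?_ ?_
    · rw [hA _ hPg, hPr]
      omega
    · refine A6 (Finset.union_subset hPg (sub3 gu gv gt)) ?_
      have e1 := Finset.card_le_card (show insert u P ⊆ P ∪ {u, v, t} from
        Finset.insert_subset (by simp) Finset.subset_union_left)
      rw [Finset.card_insert_of_notMem uP] at e1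
      omega
    · intro i hi j hj k hk h1 h2 h4
      exact A3 (hPg hi) (hPg hj) (hPg hk) h1 h2 h4
    · intro i hi
      have iu : i ≠ u := fun h => uP (h ▸ hi)
      have iv : i ≠ v := fun h => vP (h ▸ hi)
      have it : i ≠ t := fun h => tP (h ▸ hi)
      exact ⟨A3 gv gt (hPg hi) vt iv.symm it.symm, A3 gt gu (hPg hi) tu it.symm iu.symm, A3 gu gv (hPg hi) uv iu.symm iv.symm⟩
    · exact A3 gu gv gt uv tu.symm vt
  have cl : ∀ {u v t s i j a b : E}, u ∈ gs p → v ∈ gs p → t ∈ gs p → s ∈ gs p → u ∉ P → v ∉ P → t ∉ P → s ∉ P →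
      u ≠ v → u ≠ t → u ≠ s → v ≠ t → v ≠ s → t ≠ s → i ∈ P → j ∈ P → a ∈ P → b ∈ P → i ≠ j →
      rk L0 ({i, j} ∪ {u, v, t}) ≤ 3 → rk L0 ({a, b} ∪ {u, v, s}) ≤ 3 → a ≠ i ∧ a ≠ j ∧ b ≠ i ∧ b ≠ j := by
    intro u v t s i j a b gu gv gt gs' uP vP tP sP uv ut us vt vs ts hi hj ha hb hij h1 h2
    have main : ∀ c, c ∈ ({a, b} : Finset E) → c ∈ ({i, j} : Finset E) → c ∈ P → False := by
      intro c hca hci hcP
      have e1 := (isRk L0).sub ({i, j} ∪ {u, v, t}) ({a, b} ∪ {u, v, s})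
      have e2 := (isRk L0).mono {u, v, c} (({i, j} ∪ {u, v, t}) ∩ ({a, b} ∪ {u, v, s})) (by
        intro k hk
        simp only [Finset.mem_insert, Finset.mem_singleton] at hk
        rw [Finset.mem_inter, Finset.mem_union, Finset.mem_union]
        rcases hk with rfl | rfl | rfl
        · exact ⟨Or.inr (by simp), Or.inr (by simp)⟩
        · exact ⟨Or.inr (by simp), Or.inr (by simp)⟩
        · exact ⟨Or.inl hci, Or.inl hca⟩)
      have cu : c ≠ u := fun h => uP (h ▸ hcP)
      have cv : c ≠ v := fun h => vP (h ▸ hcP)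
      rw [A3 gu gv (hPg hcP) uv cu.symm cv.symm] at e2
      have iu : i ≠ u := fun h => uP (h ▸ hi)
      have iv : i ≠ v := fun h => vP (h ▸ hi)
      have it : i ≠ t := fun h => tP (h ▸ hi)
      have is : i ≠ s := fun h => sP (h ▸ hi)
      have ju : j ≠ u := fun h => uP (h ▸ hj)
      have jv : j ≠ v := fun h => vP (h ▸ hj)
      have jt : j ≠ t := fun h => tP (h ▸ hj)
      have js : j ≠ s := fun h => sP (h ▸ hj)
      have e3 : ({i, j, u, v, t, s} : Finset E).card = 6 := by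
        rw [Finset.card_insert_of_notMem (by simp [hij, iu, iv, it, is]), Finset.card_insert_of_notMem (by simp [ju, jv, jt, js]),
          Finset.card_insert_of_notMem (by simp [uv, ut, us]), Finset.card_insert_of_notMem (by simp [vt, vs]), Finset.card_pair ts]
      have e4 : rk L0 ({i, j, u, v, t, s} : Finset E) = 4 := by
        refine A6 ?_ (by omega)
        intro k hk
        simp only [Finset.mem_insert, Finset.mem_singleton] at hk
        rcases hk with rfl | rfl | rfl | rfl | rfl | rfl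
        · exact hPg hi
        · exact hPg hj
        · exact gu
        · exact gv
        · exact gt
        · exact gs'
      have e5 := (isRk L0).mono ({i, j, u, v, t, s} : Finset E) (({i, j} ∪ {u, v, t}) ∪ ({a, b} ∪ {u, v, s})) (by
        intro k hk
        simp only [Finset.mem_insert, Finset.mem_singleton] at hk
        simp only [Finset.mem_union, Finset.mem_insert, Finset.mem_singleton]
        tauto)
      omega
    refine ⟨?_, ?_, ?_, ?_⟩
    · rintro rfl
      exact main a (by simp) (by simp) ha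
    · rintro rfl
      exact main a (by simp) (by simp) ha
    · rintro rfl
      exact main b (by simp) (by simp) hb
    · rintro rfl
      exact main b (by simp) (by simp) hb
  obtain ⟨i1, hi1, j1, hj1, n1, r1⟩ := key hz gx gy zP xP yP zx xy zy.symm
  obtain ⟨i2, hi2, j2, hj2, n2, r2⟩ := key hz gx gw zP xP wP zx xw zw.symm
  obtain ⟨i3, hi3, j3, hj3, n3, r3⟩ := key hz gy gw zP yP wP zy yw zw.symm
  obtain ⟨k1, k2, k3, k4⟩ := cl hz gx gy gw zP xP yP wP zx zy zw xy xw yw hi1 hj1 hi2 hj2 n1 r1 r2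
  have s13 : ({z, y, x} : Finset E) = {z, x, y} := by
    ext v
    simp only [Finset.mem_insert, Finset.mem_singleton]
    tauto
  obtain ⟨k5, k6, k7, k8⟩ := cl hz gy gx gw zP yP xP wP zy zx zw xy.symm yw xw hi1 hj1 hi3 hj3 n1 (by rw [s13]; exact r1) r3
  have s23 : ({z, w, x} : Finset E) = {z, x, w} := by
    ext v
    simp only [Finset.mem_insert, Finset.mem_singleton]
    tauto
  have s23' : ({z, w, y} : Finset E) = {z, y, w} := by
    ext v
    simp only [Finset.mem_insert, Finset.mem_singleton]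
    tauto
  obtain ⟨l1, l2, l3, l4⟩ := cl hz gw gx gy zP wP xP yP zw zx zy xw.symm yw.symm xy hi2 hj2 hi3 hj3 n2 (by rw [s23]; exact r2)
    (by rw [s23']; exact r3)
  have hfin : ({i1, j1, i2, j2, i3, j3} : Finset E).card = 6 := by
    rw [Finset.card_insert_of_notMem (by simp [n1, k1.symm, k3.symm, k5.symm, k7.symm]),
      Finset.card_insert_of_notMem (by simp [k2.symm, k4.symm, k6.symm, k8.symm]),
      Finset.card_insert_of_notMem (by simp [n2, l1.symm, l3.symm]), Finset.card_insert_of_notMem (by simp [l2.symm, l4.symm]),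
      Finset.card_pair n3]
  have hsub : ({i1, j1, i2, j2, i3, j3} : Finset E) ⊆ P := by
    intro k hk
    simp only [Finset.mem_insert, Finset.mem_singleton] at hk
    rcases hk with rfl | rfl | rfl | rfl | rfl | rfl <;> assumption
  have := Finset.card_le_card hsub
  omega

/-- six points of a plane, no three of them collinear -/
theorem no_six {L : Submodule F4 (E → F4)} {p : Itv E} (hL : Cls L) (hp : p.1 ⊆ p.2) (h6 : (gs p).card = 6)
    (hr : rk L p.2 = rk L p.1 + 3)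
    (t3 : ∀ x ∈ gs p, ∀ y ∈ gs p, ∀ w ∈ gs p, x ≠ y → x ≠ w → y ≠ w → rk L (p.1 ∪ {x, y, w}) = rk L p.1 + 3) : False := by
  obtain ⟨L0, hL0, hr0, -⟩ := minor hL hp
  have hA : ∀ A ⊆ gs p, rk L0 A = rk L (p.1 ∪ A) - rk L p.1 := by
    intro A hA
    rw [hr0, Finset.inter_eq_left.2 (fun x hx => (Finset.mem_sdiff.1 (hA hx)).1), Finset.union_comm]
  have hu : rk L0 Finset.univ = 3 := by
    rw [hr0, Finset.univ_inter, Finset.union_eq_left.2 hp, hr]
    ring
  have b3 : ∀ {i j k : E}, i ∈ gs p → j ∈ gs p → k ∈ gs p → i ≠ j → i ≠ k → j ≠ k → B3 L0 i j k := by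
    intro i j k hi hj hk hij hik hjk
    have hs : ({i, j, k} : Finset E) ⊆ gs p := by
      intro v hv
      simp only [Finset.mem_insert, Finset.mem_singleton] at hv
      rcases hv with rfl | rfl | rfl <;> assumption
    refine ⟨hij, hik, hjk, isB_iff.2 ?_⟩
    rw [Finset.card_eq_three.2 ⟨i, j, k, hij, hik, hjk, rfl⟩, hA _ hs, t3 i hi j hj k hk hij hik hjk, hu]
    constructor
    · push_cast
      ring
    · norm_num
  obtain ⟨a, t, hat, ht0, ht⟩ := Finset.card_eq_succ.1 h6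
  obtain ⟨b, t', hbt, ht1, ht'⟩ := Finset.card_eq_succ.1 ht
  obtain ⟨c, t'', hct, ht2, ht''⟩ := Finset.card_eq_succ.1 ht'
  obtain ⟨d, e, f, hde, hdf, hef, rfl⟩ := Finset.card_eq_three.1 ht''
  subst ht2
  subst ht1
  have mG : ∀ {v : E}, v ∈ ({a, b, c, d, e, f} : Finset E) → v ∈ gs p := fun {v} hv => by rw [← ht0]; exact hv
  have ma : a ∈ gs p := mG (by simp)
  have mb : b ∈ gs p := mG (by simp)
  have mc : c ∈ gs p := mG (by simp)
  have md : d ∈ gs p := mG (by simp)
  have me : e ∈ gs p := mG (by simp)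
  have mf : f ∈ gs p := mG (by simp)
  have ab : a ≠ b := fun h => hat (by rw [h]; simp)
  have ac : a ≠ c := fun h => hat (by rw [h]; simp)
  have ad : a ≠ d := fun h => hat (by rw [h]; simp)
  have ae : a ≠ e := fun h => hat (by rw [h]; simp)
  have af : a ≠ f := fun h => hat (by rw [h]; simp)
  have bc : b ≠ c := fun h => hbt (by rw [h]; simp)
  have bd : b ≠ d := fun h => hbt (by rw [h]; simp)
  have be : b ≠ e := fun h => hbt (by rw [h]; simp)
  have bf : b ≠ f := fun h => hbt (by rw [h]; simp)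
  have cd : c ≠ d := fun h => hct (by rw [h]; simp)
  have ce : c ≠ e := fun h => hct (by rw [h]; simp)
  have cf : c ≠ f := fun h => hct (by rw [h]; simp)
  obtain ⟨Φ, hB, hU⟩ := hL0
  exact ex_36 hB hU (b3 ma mb mc ab ac bc) (b3 ma mb md ab ad bd) (b3 ma mc md ac ad cd) (b3 mb mc md bc bd cd)
    (b3 ma mb me ab ae be) (b3 ma mc me ac ae ce) (b3 mb mc me bc be ce) (b3 ma mb mf ab af bf) (b3 ma mc mf ac af cf)
    (b3 mb mc mf bc bf cf) (b3 ma md me ad ae hde) (b3 mb md me bd be hde) (b3 mc md me cd ce hde) (b3 ma md mf ad af hdf)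
    (b3 mb md mf bd bf hdf) (b3 mc md mf cd cf hdf) (b3 ma me mf ae af hef) (b3 mb me mf be bf hef) (b3 mc me mf ce cf hef)
    (b3 md me mf hde hdf hef)

/-- a 3-connected rich box of the class of rank four with at least nine elements has a triangle -/
theorem nt4 {L : Submodule F4 (E → F4)} {p : Itv E} (hL : Cls L) (hp : p.1 ⊆ p.2) (h3 : Th3 (rk L) p) (hR : HasRich (rk L) p)
    (h9 : 9 ≤ (gs p).card) (hr : rk L p.2 = rk L p.1 + 4) : ∃ x y z, Triad (rk (WW L)) (QUB.dp p) x y z := by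
  by_contra hno
  push Not at hno
  have hRk := isRk L
  have hcard : 4 ≤ (gs p).card := by omega
  have t3 : ∀ x ∈ gs p, ∀ y ∈ gs p, ∀ w ∈ gs p, x ≠ y → x ≠ w → y ≠ w → rk L (p.1 ∪ {x, y, w}) = rk L p.1 + 3 := by
    intro x hx y hy w hw a b c
    by_contra h
    refine hno x y w ?_
    have hR' : QUB.Rk (QUB.rd (rk L)) := rk_ww L ▸ isRk (WW L)
    rw [rk_ww]
    have hg : gs (QUB.dp p) = gs p := QUB.gs_dp p
    have hs : ({x, y, w} : Finset E) ⊆ gs p := by
      intro v hv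
      simp only [Finset.mem_insert, Finset.mem_singleton] at hv
      rcases hv with rfl | rfl | rfl <;> assumption
    refine triad_of hR' (th3_dp hp h3) (by rw [hg]; exact hcard) (by rw [hg]; exact hx) (by rw [hg]; exact hy)
      (by rw [hg]; exact hw) a b c ?_
    intro h'
    rw [rd_sdiff hs, Finset.card_eq_three.2 ⟨x, y, w, a, b, c, rfl⟩] at h'
    apply h
    push_cast at h'
    linarith
  have hub : ∀ B ⊆ gs p, p.1 ∪ B ⊆ p.2 := fun B hB => Finset.union_subset hp (hB.trans Finset.sdiff_subset)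
  have c3 : ∀ B ⊆ gs p, 3 ≤ B.card → rk L p.1 + 3 ≤ rk L (p.1 ∪ B) := by
    intro B hB hc
    obtain ⟨S, hS, hSc⟩ := Finset.exists_subset_card_eq hc
    obtain ⟨x, y, w, a, b, c, rfl⟩ := Finset.card_eq_three.1 hSc
    have e1 := t3 x (hB (hS (by simp))) y (hB (hS (by simp))) w (hB (hS (by simp))) a b c
    have e2 := hRk.mono (p.1 ∪ {x, y, w}) (p.1 ∪ B) (Finset.union_subset_union (Finset.Subset.refl _) hS)
    omega
  have hgB : ∀ B ⊆ gs p, gs ((p.1, p.1 ∪ B) : Itv E) = B := by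
    intro B hB
    ext v
    have a1 := fun h : v ∈ B => (Finset.mem_sdiff.1 (hB h)).2
    simp only [QUB.gs, Finset.mem_sdiff, Finset.mem_union]
    tauto
  -- six elements span
  have c6 : ∀ B ⊆ gs p, 6 ≤ B.card → rk L (p.1 ∪ B) = rk L p.2 := by
    intro B hB hc
    obtain ⟨S, hS, hSc⟩ := Finset.exists_subset_card_eq hc
    have e0 := c3 S (hS.trans hB) (by omega)
    have e1 := hRk.mono (p.1 ∪ S) (p.1 ∪ B) (Finset.union_subset_union (Finset.Subset.refl _) hS)
    have e2 := hRk.mono _ _ (hub B hB)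
    by_contra hne
    have e3 : rk L (p.1 ∪ S) = rk L p.1 + 3 := by omega
    refine no_six (p := (p.1, p.1 ∪ S)) hL Finset.subset_union_left (by rw [hgB S (hS.trans hB)]; exact hSc) e3 ?_
    intro x hx y hy w hw a b c
    rw [hgB S (hS.trans hB)] at hx hy hw
    exact t3 x (hB (hS hx)) y (hB (hS hy)) w (hB (hS hw)) a b c
  obtain ⟨q, hq, hqR⟩ := hR
  have hq0 := hqR.1
  have hq5 : (gs q).card = 5 := hqR.2.1
  have hgq : gs q ⊆ gs p := fun x hx => Finset.mem_sdiff.2
    ⟨hq.2 (Finset.mem_sdiff.1 hx).1, fun h => (Finset.mem_sdiff.1 hx).2 (hq.1 h)⟩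
  set C := q.1 \ p.1 with hC
  have hCp : C ⊆ gs p := fun x hx => Finset.mem_sdiff.2 ⟨hq.2 (hq0 (Finset.mem_sdiff.1 hx).1), (Finset.mem_sdiff.1 hx).2⟩
  have hpC : p.1 ∪ C = q.1 := by
    rw [hC, Finset.union_sdiff_of_subset hq.1]
  have hC2 : C.card ≤ 2 := by
    by_contra h
    have e1 := c3 C hCp (by omega)
    rw [hpC] at e1
    have e2 := hRk.mono _ _ hq.2
    rcases hqR.2.2 with ⟨h4, -⟩ | ⟨h4, -⟩ <;> omega
  have hU : (C ∪ gs q).card ≤ 9 := by
    have := Finset.card_union_le C (gs q)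
    omega
  obtain ⟨S, hS1, hS2, hSc⟩ := Finset.exists_subsuperset_card_eq (Finset.union_subset hCp hgq) hU h9
  have hSr : rk L (p.1 ∪ S) = rk L p.1 + 4 := by
    rw [c6 S hS2 (by omega), hr]
  refine core9 (p := (p.1, p.1 ∪ S)) hL Finset.subset_union_left ⟨q, ⟨hq.1, ?_⟩, hqR⟩ (by rw [hgB S hS2]; exact hSc) hSr ?_ ?_
  · intro v hv
    by_cases h1 : v ∈ q.1
    · by_cases h2 : v ∈ p.1
      · exact Finset.mem_union_left _ h2
      · exact Finset.mem_union_right _ (hS1 (Finset.mem_union_left _ (Finset.mem_sdiff.2 ⟨h1, h2⟩)))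
    · exact Finset.mem_union_right _ (hS1 (Finset.mem_union_right _ (Finset.mem_sdiff.2 ⟨hv, h1⟩)))
  · intro x hx y hy w hw a b c
    rw [hgB S hS2] at hx hy hw
    exact t3 x (hS2 hx) y (hS2 hy) w (hS2 hw) a b c
  · intro B hB hc
    rw [hgB S hS2] at hB
    show rk L (p.1 ∪ B) = rk L (p.1 ∪ S)
    rw [c6 B (hB.trans hS2) hc, c6 S hS2 (by omega)]

end Pool.Agent.QUX
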