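import Pool.Agent.QUX.Two
import Pool.Agent.QUX.Nt4
import Pool.Agent.QUB.Bix

/-!
# QUX/Kww: two small sides do not occur together (NT case I, both sides are quads)

`link`: Tutte's linking theorem for boxes (order two).  `plq`: a plane `P` with five points and a plane `X` with four points of a rank four box which
have one element `w` of `P` in common: impossible (`two`).  `qq0`: `X`, `X₂` disjoint with four elements, `lam p X ≤ 2` and
`lam (p / w) X₂ ≤ 1`, no triangles and triads; `qq`: both types.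
-/

set_option autoImplicit false

noncomputable section

open scoped Classical

namespace Pool.Agent.QUX

open Pool.Agent.FRM Pool.Agent.QUS Pool.Agent.QUE Pool.Agent.QUY Pool.Agent.QUD
open Pool.Agent.QU (van Itv Sub Rich Th3 HasRich)
open QUB (gs rm lam)

variable {E : Type} [Fintype E]

/-- Tutte's linking theorem (order two) -/
theorem link {r : Finset E → ℤ} (hr : QUB.Rk r) {X P : Finset E} (hXP : Disjoint X P) :
    ∀ n : ℕ, ∀ p : Itv E, p.1 ⊆ p.2 → X ⊆ gs p → P ⊆ gs p → (gs p \ (X ∪ P)).card = n →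
      (∀ A, X ⊆ A → A ⊆ gs p \ P → 2 ≤ lam r p A) → ∃ q : Itv E, q.1 ⊆ q.2 ∧ Sub q p ∧ gs q = X ∪ P ∧ 2 ≤ lam r q X := by
  intro n
  induction n with
  | zero =>
    intro p hp hX hP hc h
    have h1 : gs p = X ∪ P := by
      refine Finset.Subset.antisymm ?_ (Finset.union_subset hX hP)
      exact Finset.sdiff_eq_empty_iff_subset.1 (Finset.card_eq_zero.1 hc)
    refine ⟨p, hp, ⟨Finset.Subset.refl _, Finset.Subset.refl _⟩, h1, h X (Finset.Subset.refl _) ?_⟩
    intro v hv
    exact Finset.mem_sdiff.2 ⟨hX hv, fun h' => (Finset.disjoint_left.1 hXP) hv h'⟩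
  | succ n ih =>
    intro p hp hX hP hc h
    obtain ⟨e, he⟩ := Finset.card_pos.1 (show 0 < (gs p \ (X ∪ P)).card by omega)
    obtain ⟨heg, he'⟩ := Finset.mem_sdiff.1 he
    rw [Finset.mem_union, not_or] at he'
    obtain ⟨heX, heP⟩ := he'
    have hg : ∀ t, gs (rm t e p) = (gs p).erase e := fun t => QUB.gs_rm t e p
    have hX' : X ⊆ (gs p).erase e := fun v hv => Finset.mem_erase.2 ⟨fun h' => heX (h' ▸ hv), hX hv⟩
    have hP' : P ⊆ (gs p).erase e := fun v hv => Finset.mem_erase.2 ⟨fun h' => heP (h' ▸ hv), hP hv⟩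
    have hc' : ((gs p).erase e \ (X ∪ P)).card = n := by
      have e1 : (gs p).erase e \ (X ∪ P) = (gs p \ (X ∪ P)).erase e := by
        ext v
        simp only [Finset.mem_sdiff, Finset.mem_erase]
        tauto
      rw [e1, Finset.card_erase_of_mem he]
      omega
    have step : ∀ t, (∀ A, X ⊆ A → A ⊆ gs (rm t e p) \ P → 2 ≤ lam r (rm t e p) A) →
        ∃ q : Itv E, q.1 ⊆ q.2 ∧ Sub q p ∧ gs q = X ∪ P ∧ 2 ≤ lam r q X := by
      intro t ht
      obtain ⟨q, q1, q2, q3, q4⟩ := ih (rm t e p) (QUB.wf_rm hp heg) (by rw [hg]; exact hX') (by rw [hg]; exact hP')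
        (by rw [hg]; exact hc') ht
      have hs : Sub (rm t e p) p := by
        cases t
        · exact ⟨Finset.subset_insert _ _, Finset.Subset.refl _⟩
        · exact ⟨Finset.Subset.refl _, Finset.erase_subset _ _⟩
      exact ⟨q, q1, ⟨hs.1.trans q2.1, q2.2.trans hs.2⟩, q3, q4⟩
    by_cases h1 : ∀ A, X ⊆ A → A ⊆ gs (rm true e p) \ P → 2 ≤ lam r (rm true e p) A
    · exact step true h1
    by_cases h2 : ∀ A, X ⊆ A → A ⊆ gs (rm false e p) \ P → 2 ≤ lam r (rm false e p) A
    · exact step false h2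
    exfalso
    push Not at h1 h2
    obtain ⟨A, a1, a2, a3⟩ := h1
    obtain ⟨B, b1, b2, b3⟩ := h2
    rw [hg] at a2 b2
    have hA : A ⊆ (gs p).erase e := a2.trans Finset.sdiff_subset
    have hB : B ⊆ (gs p).erase e := b2.trans Finset.sdiff_subset
    have hu := QUB.unc hr hp heg hA hB
    have h3 := h (A ∩ B) (Finset.subset_inter a1 b1) (by
      intro v hv
      have h4 := Finset.mem_sdiff.1 (a2 (Finset.mem_inter.1 hv).1)
      exact Finset.mem_sdiff.2 ⟨(Finset.mem_erase.1 h4.1).2, h4.2⟩)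
    set C := ((gs p).erase e \ A) ∩ ((gs p).erase e \ B) with hC
    have hCg : C ⊆ gs p := by
      intro v hv
      exact (Finset.mem_erase.1 (Finset.mem_sdiff.1 (Finset.mem_inter.1 hv).1).1).2
    have h5 := h (gs p \ C) (by
      intro v hv
      refine Finset.mem_sdiff.2 ⟨hX hv, fun h' => ?_⟩
      exact (Finset.mem_sdiff.1 (Finset.mem_inter.1 h').1).2 (a1 hv)) (by
      intro v hv
      obtain ⟨v1, v2⟩ := Finset.mem_sdiff.1 hv
      refine Finset.mem_sdiff.2 ⟨v1, fun h' => v2 ?_⟩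
      refine Finset.mem_inter.2 ⟨Finset.mem_sdiff.2 ⟨hP' h', fun h6 => ?_⟩, Finset.mem_sdiff.2 ⟨hP' h', fun h6 => ?_⟩⟩
      · exact (Finset.mem_sdiff.1 (a2 h6)).2 h'
      · exact (Finset.mem_sdiff.1 (b2 h6)).2 h')
    rw [QUB.lam_compl r hp hCg] at h5
    omega

/-- the plane `X` with four points and the plane `insert w Y` with five points, in a box of rank four -/
theorem plq {L : Submodule F4 (E → F4)} (hL : Cls L) {q : Itv E} (hq : q.1 ⊆ q.2) {X Y : Finset E} {w : E} (hX : X.card = 4)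
    (hY : Y.card = 4) (hg : gs q = X ∪ insert w Y) (hd : Disjoint X (insert w Y)) (hw : w ∉ Y) (h4 : rk L q.2 = rk L q.1 + 4)
    (hP : rk L (q.1 ∪ insert w Y) = rk L q.1 + 3)
    (hP3 : ∀ T ⊆ insert w Y, T.card = 3 → rk L (q.1 ∪ T) = rk L q.1 + 3)
    (hX3 : ∀ T ⊆ X, T.card = 3 → rk L (q.1 ∪ T) = rk L q.1 + 3) (hXw : rk L (q.1 ∪ insert w X) = rk L q.1 + 3)
    (hx : ∀ x ∈ X, rk L (q.1 ∪ insert x (insert w Y)) = rk L q.1 + 4)
    (hv : ∀ v ∈ Y, rk L (q.1 ∪ insert v (insert w X)) = rk L q.1 + 4) : False := by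
  have hRk := isRk L
  have gX : X ⊆ gs q := by
    rw [hg]
    exact Finset.subset_union_left
  have gP : insert w Y ⊆ gs q := by
    rw [hg]
    exact Finset.subset_union_right
  have gw : w ∈ gs q := gP (Finset.mem_insert_self _ _)
  have gY : ∀ v ∈ Y, v ∈ gs q := fun v hv => gP (Finset.mem_insert_of_mem hv)
  -- the four points of `X`
  obtain ⟨x, t, hxt, ht0, ht⟩ := Finset.card_eq_succ.1 hX
  obtain ⟨b1, b2, b3, n12, n13, n23, rfl⟩ := Finset.card_eq_three.1 ht
  have mX : ∀ {v : E}, v ∈ ({x, b1, b2, b3} : Finset E) → v ∈ X := fun {v} hv => by rw [← ht0]; exact hv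
  have xX : x ∈ X := mX (by simp)
  have b1X : b1 ∈ X := mX (by simp)
  have b2X : b2 ∈ X := mX (by simp)
  have b3X : b3 ∈ X := mX (by simp)
  have xb1 : x ≠ b1 := fun h => hxt (by rw [h]; simp)
  have xb2 : x ≠ b2 := fun h => hxt (by rw [h]; simp)
  have xb3 : x ≠ b3 := fun h => hxt (by rw [h]; simp)
  have XP : ∀ {u v : E}, u ∈ X → v ∈ insert w Y → u ≠ v := by
    rintro u v hu hv rfl
    exact (Finset.disjoint_left.1 hd) hu hv
  have wP : w ∈ insert w Y := Finset.mem_insert_self _ _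
  have rkX : ∀ {a b c : E}, a ∈ X → b ∈ X → c ∈ X → a ≠ b → a ≠ c → b ≠ c → rk L (q.1 ∪ {a, b, c}) = rk L q.1 + 3 := by
    intro a b c ha hb hc h1 h2 h3
    refine hX3 _ ?_ (Finset.card_eq_three.2 ⟨a, b, c, h1, h2, h3, rfl⟩)
    intro v hv
    simp only [Finset.mem_insert, Finset.mem_singleton] at hv
    rcases hv with rfl | rfl | rfl <;> assumption
  -- `x` and two elements of `P`
  have rkxP : ∀ T ⊆ insert w Y, T.card = 3 → rk L (q.1 ∪ insert x T) = rk L q.1 + 4 := by
    intro T hT hTc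
    have e1 := hRk.sub (q.1 ∪ insert x T) (q.1 ∪ insert w Y)
    have e2 : (q.1 ∪ insert x T) ∪ (q.1 ∪ insert w Y) = q.1 ∪ insert x (insert w Y) := by
      ext v
      have := @hT v
      simp only [Finset.mem_union, Finset.mem_insert] at this ⊢
      tauto
    have e3 := hRk.mono (q.1 ∪ T) ((q.1 ∪ insert x T) ∩ (q.1 ∪ insert w Y)) (by
      intro v hv
      have := @hT v
      simp only [Finset.mem_union, Finset.mem_insert, Finset.mem_inter] at this hv ⊢
      tauto)
    rw [e2, hx x xX, hP] at e1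
    rw [hP3 T hT hTc] at e3
    have e4 := hRk.mono (q.1 ∪ insert x T) q.2 (by
      intro v hv
      rcases Finset.mem_union.1 hv with hv | hv
      · exact hq hv
      · rcases Finset.mem_insert.1 hv with rfl | hv
        · exact (Finset.mem_sdiff.1 (gX xX)).1
        · exact (Finset.mem_sdiff.1 (gP (hT hv))).1)
    omega
  have hxw : rk L (q.1 ∪ {x, w}) = rk L q.1 + 2 := by
    obtain ⟨T, hT, hTc⟩ := Finset.exists_subset_card_eq (show 2 ≤ Y.card by omega)
    obtain ⟨i, j, hij, rfl⟩ := Finset.card_eq_two.1 hTc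
    have iY : i ∈ Y := hT (by simp)
    have jY : j ∈ Y := hT (by simp)
    have wi : w ≠ i := fun h => hw (h ▸ iY)
    have wj : w ≠ j := fun h => hw (h ▸ jY)
    have e1 := rkxP {w, i, j} (by
      intro v hv
      simp only [Finset.mem_insert, Finset.mem_singleton] at hv ⊢
      rcases hv with rfl | rfl | rfl
      · exact Or.inl rfl
      · exact Or.inr iY
      · exact Or.inr jY) (Finset.card_eq_three.2 ⟨w, i, j, wi, wj, hij, rfl⟩)
    have e2 := hRk.unit (q.1 ∪ {x, w}) i
    have e3 := hRk.unit (insert i (q.1 ∪ {x, w})) j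
    have e4 : insert j (insert i (q.1 ∪ {x, w})) = q.1 ∪ insert x {w, i, j} := by
      ext v
      simp only [Finset.mem_union, Finset.mem_insert, Finset.mem_singleton]
      tauto
    rw [e4] at e3
    have e5 := hRk.unit q.1 w
    have e6 := hRk.unit (insert w q.1) x
    have e7 : insert x (insert w q.1) = q.1 ∪ {x, w} := by
      ext v
      simp only [Finset.mem_union, Finset.mem_insert, Finset.mem_singleton]
      tauto
    rw [e7] at e6
    omega
  have sX : ∀ {T : Finset E}, T ⊆ insert w X → rk L (q.1 ∪ T) ≤ rk L q.1 + 3 := by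
    intro T hT
    have := hRk.mono (q.1 ∪ T) (q.1 ∪ insert w X) (Finset.union_subset_union (Finset.Subset.refl _) hT)
    omega
  -- at most one bad element
  have good2 : ∀ {b b' : E}, b ∈ X → b' ∈ X → b ≠ b' → x ≠ b → x ≠ b' → rk L (q.1 ∪ {x, w, b}) ≠ rk L q.1 + 3 →
      rk L (q.1 ∪ {x, w, b'}) ≠ rk L q.1 + 3 → False := by
    intro b b' hb hb' hbb xb xb' h1 h2
    have e1 := sX (T := {x, w, b}) (by
      intro v hv
      simp only [Finset.mem_insert, Finset.mem_singleton] at hv ⊢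
      rcases hv with rfl | rfl | rfl
      · exact Or.inr xX
      · exact Or.inl rfl
      · exact Or.inr hb)
    have e2 := sX (T := {x, w, b'}) (by
      intro v hv
      simp only [Finset.mem_insert, Finset.mem_singleton] at hv ⊢
      rcases hv with rfl | rfl | rfl
      · exact Or.inr xX
      · exact Or.inl rfl
      · exact Or.inr hb')
    have e3 := hRk.sub (q.1 ∪ {x, w, b}) (q.1 ∪ {x, w, b'})
    have e4 := hRk.mono (q.1 ∪ {x, w}) ((q.1 ∪ {x, w, b}) ∩ (q.1 ∪ {x, w, b'})) (by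
      intro v hv
      simp only [Finset.mem_union, Finset.mem_insert, Finset.mem_singleton, Finset.mem_inter] at hv ⊢
      tauto)
    have e5 := hRk.mono (q.1 ∪ {x, b, b'}) ((q.1 ∪ {x, w, b}) ∪ (q.1 ∪ {x, w, b'})) (by
      intro v hv
      simp only [Finset.mem_union, Finset.mem_insert, Finset.mem_singleton] at hv ⊢
      tauto)
    rw [rkX xX hb hb' xb xb' hbb] at e5
    omega
  obtain ⟨b, hb, c, hc, hbc, xb, xc, gb, gc⟩ : ∃ b ∈ X, ∃ c ∈ X, b ≠ c ∧ x ≠ b ∧ x ≠ c ∧ rk L (q.1 ∪ {x, w, b}) = rk L q.1 + 3 ∧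
      rk L (q.1 ∪ {x, w, c}) = rk L q.1 + 3 := by
    by_cases g1 : rk L (q.1 ∪ {x, w, b1}) = rk L q.1 + 3
    · by_cases g2 : rk L (q.1 ∪ {x, w, b2}) = rk L q.1 + 3
      · exact ⟨b1, b1X, b2, b2X, n12, xb1, xb2, g1, g2⟩
      · refine ⟨b1, b1X, b3, b3X, n13, xb1, xb3, g1, ?_⟩
        by_contra g3
        exact good2 b2X b3X n23 xb2 xb3 g2 g3
    · refine ⟨b2, b2X, b3, b3X, n23, xb2, xb3, ?_, ?_⟩
      · by_contra g2
        exact good2 b1X b2X n12 xb1 xb2 g1 g2
      · by_contra g3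
        exact good2 b1X b3X n13 xb1 xb3 g1 g3
  -- `x, w, b` and an element of `Y`
  have wbv : ∀ v ∈ Y, ∀ b ∈ X, rk L (q.1 ∪ {x, w, b}) = rk L q.1 + 3 → rk L (q.1 ∪ {x, w, b, v}) = rk L q.1 + 4 := by
    intro v hvY b hb hr
    have e1 := hRk.sub (q.1 ∪ {x, w, b, v}) (q.1 ∪ insert w X)
    have e2 := hRk.mono (q.1 ∪ insert v (insert w X)) ((q.1 ∪ {x, w, b, v}) ∪ (q.1 ∪ insert w X)) (by
      intro u hu
      simp only [Finset.mem_union, Finset.mem_insert, Finset.mem_singleton] at hu ⊢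
      tauto)
    have e3 := hRk.mono (q.1 ∪ {x, w, b}) ((q.1 ∪ {x, w, b, v}) ∩ (q.1 ∪ insert w X)) (by
      intro u hu
      have f1 : u = x → u ∈ X := fun h => h ▸ xX
      have f2 : u = b → u ∈ X := fun h => h ▸ hb
      simp only [Finset.mem_union, Finset.mem_insert, Finset.mem_singleton, Finset.mem_inter] at hu ⊢
      tauto)
    rw [hv v hvY] at e2
    have e4 := hRk.unit (q.1 ∪ {x, w, b}) v
    have e5 : insert v (q.1 ∪ {x, w, b}) = q.1 ∪ {x, w, b, v} := by
      ext u
      simp only [Finset.mem_union, Finset.mem_insert, Finset.mem_singleton]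
      tauto
    rw [e5] at e4
    omega
  -- the plane
  have hx1 : rk L (insert x q.1) = rk L q.1 + 1 := by
    have e1 := hRk.unit q.1 x
    have e2 := hRk.unit (insert x q.1) w
    have e7 : insert w (insert x q.1) = q.1 ∪ {x, w} := by
      ext v
      simp only [Finset.mem_union, Finset.mem_insert, Finset.mem_singleton]
      tauto
    rw [e7] at e2
    omega
  have hq' : insert x q.1 ⊆ q.2 := Finset.insert_subset (Finset.mem_sdiff.1 (gX xX)).1 hq
  obtain ⟨L', hL', hr0, -⟩ := minor hL (p := ((insert x q.1, q.2) : Itv E)) hq'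
  have hr : ∀ A ⊆ gs q, rk L' A = rk L (q.1 ∪ insert x A) - (rk L q.1 + 1) := by
    intro A hA
    have e1 : A ∩ q.2 ∪ insert x q.1 = q.1 ∪ insert x A := by
      rw [Finset.inter_eq_left.2 fun v hv => (Finset.mem_sdiff.1 (hA hv)).1]
      ext v
      simp only [Finset.mem_union, Finset.mem_insert]
      tauto
    rw [hr0, hx1, e1]
  have hu3 : rk L' Finset.univ = 3 := by
    rw [hr0, Finset.univ_inter, Finset.union_eq_left.2 hq', hx1, h4]
    ring
  have s2 : ∀ {a b : E}, a ∈ gs q → b ∈ gs q → ({a, b} : Finset E) ⊆ gs q := by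
    intro a b ha hb v hv
    simp only [Finset.mem_insert, Finset.mem_singleton] at hv
    rcases hv with rfl | rfl <;> assumption
  have s3 : ∀ {a b c : E}, a ∈ gs q → b ∈ gs q → c ∈ gs q → ({a, b, c} : Finset E) ⊆ gs q := by
    intro a b c ha hb hc v hv
    simp only [Finset.mem_insert, Finset.mem_singleton] at hv
    rcases hv with rfl | rfl | rfl <;> assumption
  obtain ⟨v1, t, hvt, hv0, hvc⟩ := Finset.card_eq_succ.1 hY
  obtain ⟨v2, v3, v4, m23, m24, m34, rfl⟩ := Finset.card_eq_three.1 hvc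
  have mY : ∀ {v : E}, v ∈ ({v1, v2, v3, v4} : Finset E) → v ∈ Y := fun {v} hv => by rw [← hv0]; exact hv
  have v1Y : v1 ∈ Y := mY (by simp)
  have v2Y : v2 ∈ Y := mY (by simp)
  have v3Y : v3 ∈ Y := mY (by simp)
  have v4Y : v4 ∈ Y := mY (by simp)
  have m12 : v1 ≠ v2 := fun h => hvt (by rw [h]; simp)
  have m13 : v1 ≠ v3 := fun h => hvt (by rw [h]; simp)
  have m14 : v1 ≠ v4 := fun h => hvt (by rw [h]; simp)
  have wv : ∀ v ∈ Y, w ≠ v := fun v hv h => hw (h ▸ hv)
  have inP : ∀ {v : E}, v ∈ Y → v ∈ insert w Y := fun {v} hv => Finset.mem_insert_of_mem hv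
  have b3' : ∀ {i j k : E}, i ∈ insert w Y → j ∈ insert w Y → k ∈ insert w Y → i ≠ j → i ≠ k → j ≠ k → B3 L' i j k := by
    intro i j k hi hj hk hij hik hjk
    have hc := Finset.card_eq_three.2 ⟨i, j, k, hij, hik, hjk, rfl⟩
    refine ⟨hij, hik, hjk, isB_iff.2 ?_⟩
    have e1 := rkxP {i, j, k} (by
      intro v hv
      simp only [Finset.mem_insert, Finset.mem_singleton] at hv
      rcases hv with rfl | rfl | rfl <;> assumption) hc
    rw [hc, hr _ (s3 (gP hi) (gP hj) (gP hk)), e1, hu3]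
    constructor
    · push_cast
      ring
    · norm_num
  have hAc : Ac L' w v1 v2 v3 v4 := ⟨b3' wP (inP v1Y) (inP v2Y) (wv _ v1Y) (wv _ v2Y) m12, b3' wP (inP v1Y) (inP v3Y) (wv _ v1Y) (wv _ v3Y) m13,
    b3' wP (inP v2Y) (inP v3Y) (wv _ v2Y) (wv _ v3Y) m23, b3' (inP v1Y) (inP v2Y) (inP v3Y) m12 m13 m23,
    b3' wP (inP v1Y) (inP v4Y) (wv _ v1Y) (wv _ v4Y) m14, b3' wP (inP v2Y) (inP v4Y) (wv _ v2Y) (wv _ v4Y) m24,
    b3' (inP v1Y) (inP v2Y) (inP v4Y) m12 m14 m24, b3' wP (inP v3Y) (inP v4Y) (wv _ v3Y) (wv _ v4Y) m34,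
    b3' (inP v1Y) (inP v3Y) (inP v4Y) m13 m14 m34, b3' (inP v2Y) (inP v3Y) (inP v4Y) m23 m24 m34⟩
  have pair : ∀ b ∈ X, x ≠ b → rk L (q.1 ∪ {x, w, b}) = rk L q.1 + 3 → ∀ i ∈ ({w, v1, v2, v3, v4} : Finset E), rk L' {i, b} = 2 := by
    intro b hb xb hgb i hi
    rcases Finset.mem_insert.1 hi with rfl | hi
    · rw [hr _ (s2 gw (gX hb))]
      have e : q.1 ∪ insert x {i, b} = q.1 ∪ {x, i, b} := rfl
      rw [e, hgb]
      ring
    · have hiY := mY hi
      have e1 := wbv i hiY b hb hgb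
      have e2 := hRk.unit (q.1 ∪ {x, i, b}) w
      have e3 : insert w (q.1 ∪ {x, i, b}) = q.1 ∪ {x, w, b, i} := by
        ext u
        simp only [Finset.mem_union, Finset.mem_insert, Finset.mem_singleton]
        tauto
      rw [e3, e1] at e2
      have e4 := hRk.unit (q.1 ∪ {x, b}) i
      have e5 : insert i (q.1 ∪ {x, b}) = q.1 ∪ {x, i, b} := by
        ext u
        simp only [Finset.mem_union, Finset.mem_insert, Finset.mem_singleton]
        tauto
      rw [e5] at e4
      have e6 := hRk.unit (insert x q.1) b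
      have e7 : insert b (insert x q.1) = q.1 ∪ {x, b} := by
        ext u
        simp only [Finset.mem_union, Finset.mem_insert, Finset.mem_singleton]
        tauto
      rw [e7] at e6
      rw [hr _ (s2 (gY i hiY) (gX hb))]
      have e : q.1 ∪ insert x {i, b} = q.1 ∪ {x, i, b} := rfl
      rw [e]
      omega
  obtain ⟨Φ, hB, hU⟩ := hL'
  refine two hB hU (u := b) (v := c) hAc (pair b hb xb gb) (pair c hc xc gc) ?_ ?_ ?_
  · rw [hr _ (s2 (gX hb) (gX hc))]
    have e : q.1 ∪ insert x {b, c} = q.1 ∪ {x, b, c} := rfl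
    rw [e, rkX xX hb hc xb xc hbc]
    ring
  · rw [hr _ (s3 gw (gX hb) (gX hc))]
    have e1 := sX (T := insert x {w, b, c}) (by
      intro v hv
      simp only [Finset.mem_insert, Finset.mem_singleton] at hv ⊢
      rcases hv with rfl | rfl | rfl | rfl
      · exact Or.inr xX
      · exact Or.inl rfl
      · exact Or.inr hb
      · exact Or.inr hc)
    omega
  · intro j hj
    have hjY := mY hj
    rw [hr _ (s3 gw (gX hb) (gY j hjY))]
    have e : q.1 ∪ insert x {w, b, j} = q.1 ∪ {x, w, b, j} := rfl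
    rw [e, wbv j hjY b hb gb]
    ring

/-- two disjoint quads, `w` contracted -/
theorem qq0 {L : Submodule F4 (E → F4)} (hL : Cls L) {p : Itv E} (hp : p.1 ⊆ p.2) (h3 : Th3 (rk L) p)
    (t3 : ∀ T ⊆ gs p, T.card = 3 → rk L (p.1 ∪ T) = rk L p.1 + 3) (t5 : ∀ T ⊆ gs p, T.card = 3 → rk L (p.2 \ T) = rk L p.2)
    {w : E} {X Y : Finset E} (hw : w ∈ gs p) (hX : X ⊆ gs p) (hY : Y ⊆ gs p) (hXc : X.card = 4) (hYc : Y.card = 4)
    (hd : Disjoint X Y) (wX : w ∉ X) (wY : w ∉ Y) (l1 : lam (rk L) (rm false w p) Y ≤ 1) (l2 : lam (rk L) p X ≤ 2) : False := by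
  have hRk := isRk L
  have hcard : 4 ≤ (gs p).card := by
    have := Finset.card_le_card hX
    omega
  -- sets with four elements
  have f3 : ∀ B ⊆ gs p, B.card = 4 → rk L p.1 + 3 ≤ rk L (p.1 ∪ B) := by
    intro B hB hc
    obtain ⟨T, hT, hTc⟩ := Finset.exists_subset_card_eq (show 3 ≤ B.card by omega)
    have e1 := t3 T (hT.trans hB) hTc
    have e2 := hRk.mono (p.1 ∪ T) (p.1 ∪ B) (Finset.union_subset_union (Finset.Subset.refl _) hT)
    omega
  have f5 : ∀ B ⊆ gs p, B.card = 4 → rk L p.2 ≤ rk L (p.2 \ B) + 1 := by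
    intro B hB hc
    obtain ⟨b, T, hbT, rfl, hTc⟩ := Finset.card_eq_succ.1 hc
    have e1 := t5 T ((Finset.subset_insert b T).trans hB) hTc
    have e2 := hRk.unit (p.2 \ insert b T) b
    have e3 : insert b (p.2 \ insert b T) = p.2 \ T := by
      have hb2 := (Finset.mem_sdiff.1 (hB (Finset.mem_insert_self b T))).1
      ext v
      by_cases hv : v = b
      · subst hv
        simp [hb2, hbT]
      · simp [hv]
    rw [e3] at e2
    omega
  have x3 := f3 X hX hXc
  have x5 := f5 X hX hXc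
  have y3 := f3 Y hY hYc
  have y5 := f5 Y hY hYc
  unfold lam at l2
  have hw1 : rk L (insert w p.1) = rk L p.1 + 1 := by
    have h1 := (th_two hRk h3 hcard hw (show (Classical.choose (Finset.card_pos.1 (show 0 < X.card by omega))) ∈ gs p from
      hX (Classical.choose_spec (Finset.card_pos.1 (show 0 < X.card by omega)))) (by
        intro h
        exact wX (h ▸ Classical.choose_spec (Finset.card_pos.1 (show 0 < X.card by omega))))).1
    set x0 := Classical.choose (Finset.card_pos.1 (show 0 < X.card by omega))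
    have h2 := hRk.unit (insert w p.1) x0
    have h4 := hRk.unit p.1 w
    have h5 : insert x0 (insert w p.1) = p.1 ∪ {w, x0} := by
      ext v
      simp only [Finset.mem_union, Finset.mem_insert, Finset.mem_singleton]
      tauto
    rw [h5, h1] at h2
    omega
  have l1' : rk L (p.1 ∪ insert w Y) + rk L (p.2 \ Y) - rk L p.2 - (rk L p.1 + 1) ≤ 1 := by
    have e1 : insert w p.1 ∪ Y = p.1 ∪ insert w Y := by
      ext v
      simp only [Finset.mem_union, Finset.mem_insert]
      tauto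
    rw [← e1, ← hw1]
    exact l1
  have e0 := hRk.mono (p.1 ∪ Y) (p.1 ∪ insert w Y) (Finset.union_subset_union (Finset.Subset.refl _) (Finset.subset_insert _ _))
  have pP : rk L (p.1 ∪ insert w Y) = rk L p.1 + 3 := by omega
  have pY5 : rk L (p.2 \ Y) = rk L p.2 - 1 := by omega
  have pX3 : rk L (p.1 ∪ X) = rk L p.1 + 3 := by omega
  have pX5 : rk L (p.2 \ X) = rk L p.2 - 1 := by omega
  have pP5 : rk L (p.2 \ insert w Y) ≤ rk L p.2 - 1 := by
    have := hRk.mono (p.2 \ insert w Y) (p.2 \ Y) (Finset.sdiff_subset_sdiff (Finset.Subset.refl _) (Finset.subset_insert _ _))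
    omega
  have hPg : insert w Y ⊆ gs p := Finset.insert_subset hw hY
  have hdP : Disjoint X (insert w Y) := by
    rw [Finset.disjoint_left]
    intro v hv hv'
    rcases Finset.mem_insert.1 hv' with rfl | hv'
    · exact wX hv
    · exact (Finset.disjoint_left.1 hd) hv hv'
  obtain ⟨q, hq, hs, hg, hlam⟩ := link hRk hdP _ p hp hX hPg rfl (by
    intro A hA1 hA2
    refine h3 A (hA2.trans Finset.sdiff_subset) ?_ ?_
    · have := Finset.card_le_card hA1
      omega
    · have h4 : insert w Y ⊆ gs p \ A := by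
        intro v hv
        exact Finset.mem_sdiff.2 ⟨hPg hv, fun h => (Finset.mem_sdiff.1 (hA2 h)).2 hv⟩
      have h5 := Finset.card_le_card h4
      rw [Finset.card_insert_of_notMem wY] at h5
      have e : (Pool.Agent.QU.gs p \ A).card = (gs p \ A).card := rfl
      omega)
  have M1 : ∀ {T B : Finset E}, T ⊆ B → rk L (q.1 ∪ B) + rk L (p.1 ∪ T) ≤ rk L (p.1 ∪ B) + rk L (q.1 ∪ T) := by
    intro T B hTB
    have e1 := hRk.sub (p.1 ∪ B) (q.1 ∪ T)
    have e2 := hRk.mono (q.1 ∪ B) ((p.1 ∪ B) ∪ (q.1 ∪ T)) (by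
      intro v hv
      simp only [Finset.mem_union] at hv ⊢
      tauto)
    have e3 := hRk.mono (p.1 ∪ T) ((p.1 ∪ B) ∩ (q.1 ∪ T)) (by
      intro v hv
      have f1 := @hTB v
      have f2 : v ∈ p.1 → v ∈ q.1 := fun h => hs.1 h
      simp only [Finset.mem_union, Finset.mem_inter] at hv ⊢
      tauto)
    omega
  have M2 : ∀ {T B : Finset E}, T ⊆ B → B ⊆ q.2 → rk L (q.2 \ B) + rk L (p.2 \ T) ≤ rk L (p.2 \ B) + rk L (q.2 \ T) := by
    intro T B hTB hB
    have e1 := hRk.sub (p.2 \ B) (q.2 \ T)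
    have e2 := hRk.mono (p.2 \ T) ((p.2 \ B) ∪ (q.2 \ T)) (by
      intro v hv
      have f2 := @hB v
      simp only [Finset.mem_union, Finset.mem_sdiff] at hv ⊢
      tauto)
    have e3 := hRk.mono (q.2 \ B) ((p.2 \ B) ∩ (q.2 \ T)) (by
      intro v hv
      have f1 := @hTB v
      have f2 : v ∈ q.2 → v ∈ p.2 := fun h => hs.2 h
      simp only [Finset.mem_sdiff, Finset.mem_inter] at hv ⊢
      tauto)
    omega
  have gX : X ⊆ gs q := by
    rw [hg]
    exact Finset.subset_union_left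
  have gP : insert w Y ⊆ gs q := by
    rw [hg]
    exact Finset.subset_union_right
  have g2 : ∀ {A : Finset E}, A ⊆ gs q → A ⊆ q.2 := fun h => h.trans Finset.sdiff_subset
  -- complements
  have cmp : ∀ {A B : Finset E}, A ∪ B = gs q → Disjoint A B → q.2 \ A = q.1 ∪ B := by
    intro A B hAB hdAB
    ext v
    have f1 : v ∈ gs q ↔ v ∈ q.2 ∧ v ∉ q.1 := Finset.mem_sdiff
    rw [← hAB, Finset.mem_union] at f1
    have f2 := @hq v
    have f3 : v ∈ A → v ∉ B := fun h => (Finset.disjoint_left.1 hdAB) h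
    simp only [Finset.mem_sdiff, Finset.mem_union]
    tauto
  have cX : q.2 \ X = q.1 ∪ insert w Y := cmp hg.symm hdP
  have cP : q.2 \ insert w Y = q.1 ∪ X := cmp (by rw [hg, Finset.union_comm]) hdP.symm
  have cY : q.2 \ Y = q.1 ∪ insert w X := cmp (by
    rw [hg]
    ext v
    simp only [Finset.mem_union, Finset.mem_insert]
    tauto) (by
    rw [Finset.disjoint_left]
    intro v hv hv'
    rcases Finset.mem_insert.1 hv' with rfl | hv'
    · exact wY hv
    · exact (Finset.disjoint_left.1 hd) hv' hv)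
  unfold lam at hlam
  have m1 := M1 (Finset.empty_subset X)
  have m2 := M2 (Finset.empty_subset X) (g2 gX)
  have m3 := M1 (Finset.empty_subset (insert w Y))
  have m4 := M2 (Finset.empty_subset (insert w Y)) (g2 gP)
  have m5 := M2 (Finset.empty_subset Y) (g2 ((Finset.subset_insert w Y).trans gP))
  rw [Finset.union_empty, Finset.union_empty] at m1 m3
  rw [Finset.sdiff_empty, Finset.sdiff_empty] at m2 m4 m5
  rw [cX] at m2 hlam
  rw [cP] at m4
  rw [cY] at m5
  have m6 := hRk.mono (q.1 ∪ X) (q.1 ∪ insert w X) (Finset.union_subset_union (Finset.Subset.refl _) (Finset.subset_insert _ _))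
  have qX : rk L (q.1 ∪ X) = rk L q.1 + 3 := by omega
  have q4 : rk L q.2 = rk L q.1 + 4 := by omega
  have qP : rk L (q.1 ∪ insert w Y) = rk L q.1 + 3 := by omega
  have qXw : rk L (q.1 ∪ insert w X) = rk L q.1 + 3 := by omega
  have hgp : gs q ⊆ gs p := by
    rw [hg]
    exact Finset.union_subset hX hPg
  refine plq hL hq hXc hYc hg hdP wY q4 qP ?_ ?_ qXw ?_ ?_
  · intro T hT hTc
    have n1 := M1 hT
    have n2 := t3 T (hT.trans hPg) hTc
    have n3 := hRk.mono (q.1 ∪ T) (q.1 ∪ insert w Y) (Finset.union_subset_union (Finset.Subset.refl _) hT)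
    omega
  · intro T hT hTc
    have n1 := M1 hT
    have n2 := t3 T (hT.trans hX) hTc
    have n3 := hRk.mono (q.1 ∪ T) (q.1 ∪ X) (Finset.union_subset_union (Finset.Subset.refl _) hT)
    omega
  · intro x hx
    have n0 : (X.erase x).card = 3 := by
      rw [Finset.card_erase_of_mem hx]
      omega
    have n1 := M2 (Finset.erase_subset x X) (g2 gX)
    have n2 := t5 (X.erase x) ((Finset.erase_subset x X).trans hX) n0
    have n3 := hRk.mono (q.2 \ X.erase x) q.2 Finset.sdiff_subset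
    have n4 : q.2 \ X.erase x = q.1 ∪ insert x (insert w Y) := cmp (by
      rw [hg]
      ext v
      have f1 : v = x → v ∈ X := fun h => h ▸ hx
      simp only [Finset.mem_union, Finset.mem_insert, Finset.mem_erase]
      tauto) (by
      rw [Finset.disjoint_left]
      intro v hv hv'
      obtain ⟨v1, v2⟩ := Finset.mem_erase.1 hv
      rcases Finset.mem_insert.1 hv' with h | h
      · exact v1 h
      · exact (Finset.disjoint_left.1 hdP) v2 h)
    rw [cX] at n1
    rw [n4] at n1 n3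
    omega
  · intro v hv
    have n0 : (Y.erase v).card = 3 := by
      rw [Finset.card_erase_of_mem hv]
      omega
    have n1 := M2 (Finset.erase_subset v Y) (g2 ((Finset.subset_insert w Y).trans gP))
    have n2 := t5 (Y.erase v) ((Finset.erase_subset v Y).trans hY) n0
    have n3 := hRk.mono (q.2 \ Y.erase v) q.2 Finset.sdiff_subset
    have n4 : q.2 \ Y.erase v = q.1 ∪ insert v (insert w X) := cmp (by
      rw [hg]
      ext u
      have f1 : u = v → u ∈ Y := fun h => h ▸ hv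
      simp only [Finset.mem_union, Finset.mem_insert, Finset.mem_erase]
      tauto) (by
      rw [Finset.disjoint_left]
      intro u hu hu'
      obtain ⟨u1, u2⟩ := Finset.mem_erase.1 hu
      rcases Finset.mem_insert.1 hu' with h | h
      · exact u1 h
      rcases Finset.mem_insert.1 h with h | h
      · exact wY (h ▸ u2)
      · exact (Finset.disjoint_left.1 hd) h u2)
    rw [cY] at n1
    rw [n4] at n1 n3
    omega

/-- two disjoint quads, both types -/
theorem qq {L : Submodule F4 (E → F4)} (hL : Cls L) {p : Itv E} (hp : p.1 ⊆ p.2) (h3 : Th3 (rk L) p)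
    (hT : ∀ x y z, ¬ Triad (rk L) p x y z) (hD : ∀ x y z, ¬ Triad (rk (WW L)) (QUB.dp p) x y z)
    {s : Bool} {w : E} {X Y : Finset E} (hw : w ∈ gs p) (hX : X ⊆ gs p) (hY : Y ⊆ gs p) (hXc : X.card = 4) (hYc : Y.card = 4)
    (hd : Disjoint X Y) (wX : w ∉ X) (wY : w ∉ Y) (l1 : lam (rk L) (rm s w p) Y ≤ 1) (l2 : lam (rk L) p X ≤ 2) : False := by
  have hRk := isRk L
  have hcard : 4 ≤ (gs p).card := by
    have := Finset.card_le_card hX
    omega
  have hgd : gs (QUB.dp p) = gs p := QUB.gs_dp p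
  have t5 : ∀ T ⊆ gs p, T.card = 3 → rk L (p.2 \ T) = rk L p.2 := by
    intro T hTg hTc
    obtain ⟨x, y, z, a, b, c, rfl⟩ := Finset.card_eq_three.1 hTc
    by_contra h
    exact hT x y z (triad_of hRk h3 hcard (hTg (by simp)) (hTg (by simp)) (hTg (by simp)) a b c h)
  have t3 : ∀ T ⊆ gs p, T.card = 3 → rk L (p.1 ∪ T) = rk L p.1 + 3 := by
    intro T hTg hTc
    obtain ⟨x, y, z, a, b, c, rfl⟩ := Finset.card_eq_three.1 hTc
    by_contra h
    refine hD x y z ?_
    have hR' : QUB.Rk (QUB.rd (rk L)) := rk_ww L ▸ isRk (WW L)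
    rw [rk_ww]
    refine triad_of hR' (th3_dp hp h3) (by rw [hgd]; exact hcard) (by rw [hgd]; exact hTg (by simp)) (by rw [hgd]; exact hTg (by simp))
      (by rw [hgd]; exact hTg (by simp)) a b c ?_
    intro h'
    rw [rd_sdiff hTg, hTc] at h'
    apply h
    push_cast at h'
    linarith
  cases s with
  | false => exact qq0 hL hp h3 t3 t5 hw hX hY hXc hYc hd wX wY l1 l2
  | true =>
    have hX' : X ⊆ gs (QUB.dp p) := by
      rw [hgd]
      exact hX
    have hY' : Y ⊆ gs (QUB.dp p) := by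
      rw [hgd]
      exact hY
    have hg1 : gs (rm true w p) = (gs p).erase w := QUB.gs_rm true w p
    refine qq0 (cls_ww hL) (QUB.wf_dp hp) (p := QUB.dp p) (by rw [rk_ww]; exact th3_dp hp h3) ?_ ?_ (w := w) (X := X) (Y := Y)
      (by rw [hgd]; exact hw) hX' hY' hXc hYc hd wX wY ?_ ?_
    · intro T hTg hTc
      rw [hgd] at hTg
      have hc : ((T.card : ℕ) : ℤ) = 3 := by exact_mod_cast hTc
      rw [rk_ww, rd_cup hTg, hc, t5 T hTg hTc]
      ring
    · intro T hTg hTc
      rw [hgd] at hTg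
      have hc : ((T.card : ℕ) : ℤ) = 3 := by exact_mod_cast hTc
      rw [rk_ww, rd_sdiff hTg, hc, t3 T hTg hTc]
      ring
    · have e1 : rm false w (QUB.dp p) = QUB.dp (rm true w p) := QUB.rm_dp false w p
      rw [rk_ww, e1, QUB.lam_dp (QUB.wf_rm hp hw) (by
        rw [hg1]
        exact fun v hv => Finset.mem_erase.2 ⟨fun h => wY (h ▸ hv), hY hv⟩)]
      exact l1
    · rw [rk_ww, QUB.lam_dp hp hX]
      exact l2

end Pool.Agent.QUX
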