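import Pool.Agent.QUX.Pl
import Pool.Agent.QUD.H8

/-!
# QUX/Nt9: a 3-connected rich matroid of the class with nine elements and rank four has a triangle or a triad

`exch`: the Delta-Y exchange with its rank function.  `lemQ`: `P` a plane with five points, no three of them collinear, `x, y, w` a triad outside:
the plane `x y w` contains two points of `P` (exchange and `plane`).  `nt9`: the deletion of a suitable element has a triad (`QUD.d44`), so there is
a plane `P` with five points; the four elements `Z` outside of `P` give three disjoint pairs in `P`, a contradiction.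
-/

set_option autoImplicit false

noncomputable section

open scoped Classical

namespace Pool.Agent.QUX

open Pool.Agent.FRM Pool.Agent.QUS Pool.Agent.QUE Pool.Agent.QUY Pool.Agent.QUD
open Pool.Agent.QU (van Itv Sub Rich Th3 HasRich)
open QUB (gs)

section

variable {K : Type} [Field K] {E : Type} [Fintype E]

private theorem tri_of {L : Submodule K (E → K)} {p : Itv E} {x y z : E} (h : Triad (rk L) p x y z) {w : E → K} (hw : w ∈ L)
    (h0 : ∀ e ∈ p.2 \ {x, y, z}, w e = 0) (ho : ∀ e, e ∉ p.2 → w e = 0) (hx : w x ≠ 0) : Tri L x y z w := by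
  have hs : ∀ i ∈ p.2, insert i (p.2 \ {x, y, z}) ⊆ p.2 := fun i hi => Finset.insert_subset hi Finset.sdiff_subset
  have hxp : x ∈ p.2 := (Finset.mem_sdiff.1 h.gx).1
  have key : ∀ i ∈ p.2, rk L (insert i (p.2 \ {x, y, z})) = rk L p.2 → w i ≠ 0 := by
    intro i hi hr hwi
    refine hx (van_of_rk (hs i hi) hr hw (fun e he => ?_) x hxp)
    rcases Finset.mem_insert.1 he with rfl | he
    · exact hwi
    · exact h0 e he
  refine ⟨h.hxy, h.hyz, h.hzx, hw, hx, key y (Finset.mem_sdiff.1 h.gy).1 h.iy, key z (Finset.mem_sdiff.1 h.gz).1 h.iz, ?_⟩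
  intro e h1 h2 h3
  by_cases he : e ∈ p.2
  · refine h0 e (Finset.mem_sdiff.2 ⟨he, ?_⟩)
    simp only [Finset.mem_insert, Finset.mem_singleton, not_or]
    exact ⟨h1, h2, h3⟩
  · exact ho e he

private theorem vec_of {L : Submodule K (E → K)} {p : Itv E} {x y z : E} (h : Triad (rk L) p x y z) :
    ∃ w ∈ L, (∀ e ∈ p.2 \ {x, y, z}, w e = 0) ∧ w x = 1 := by
  refine exists_vec ?_
  rw [h.ix, ← h.lt]
  omega

end

variable {E : Type} [Fintype E]

private theorem u_of {Φ : Submodule KU (E → KU)} {p : Itv E} {x y z : E} (h : Triad (rk Φ) p x y z) (hΦ : U2M Φ)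
    (hu : rk Φ Finset.univ = rk Φ p.2) (ho : ∀ e, e ∉ p.2 → rk Φ {e} = 0) :
    ∃ w, Tri Φ x y z w ∧ InG (w x) ∧ InG (w y) ∧ InG (w z) := by
  set A := p.2 \ {x, y, z} with hA
  have hxA : x ∉ A := by simp [hA]
  have hyA : y ∉ A := by simp [hA]
  have hzA : z ∉ A := by simp [hA]
  obtain ⟨S, hS, h1, h2⟩ := exists_chain Φ (Finset.subset_insert x A)
  have r1 := rk_eq hS h1
  have r2 := rk_eq hS h2
  have r3 := (isB_iff.1 hS).2
  rw [hu] at r3
  have r4 := h.ix
  have r5 := h.lt
  rw [← hA] at r4 r5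
  have hsub : S ⊆ insert x A := by
    have h3 : (S ∩ insert x A).card = S.card := by
      have : ((S ∩ insert x A).card : ℤ) = S.card := by rw [← r2, r4, r3]
      exact_mod_cast this
    have h4 := Finset.eq_of_subset_of_card_le (Finset.inter_subset_left (s₁ := S) (s₂ := insert x A)) h3.ge
    exact Finset.inter_eq_left.1 h4
  have hxS : x ∈ S := by
    by_contra hx
    have h3 : S ∩ A = S := Finset.inter_eq_left.2 fun e he =>
      (Finset.mem_insert.1 (hsub he)).resolve_left fun h4 => hx (h4 ▸ he)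
    rw [h3] at r1
    omega
  have nS : ∀ i, i ≠ x → i ∉ A → i ∉ S := fun i hi1 hi2 hi => (Finset.mem_insert.1 (hsub hi)).elim hi1 hi2
  have wx : fv Φ S x x = 1 := fv_self hS hxS
  have hT : Tri Φ x y z (fv Φ S x) := by
    refine tri_of h (fv_mem hS hxS) (fun e he => h1 x hxS hxA e he) (fun e he => ?_) (by rw [wx]; exact one_ne_zero)
    refine van_of_rk (A := ∅) (B := {e}) (Finset.empty_subset _) ?_ (fv_mem hS hxS)
      (fun f hf => absurd hf (Finset.notMem_empty f)) e (Finset.mem_singleton_self e)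
    rw [ho e he, (isRk Φ).empty]
  refine ⟨_, hT, by rw [wx]; exact inG_one, ?_, ?_⟩
  · exact (hΦ S hS x hxS y (nS y h.hxy.symm hyA)).resolve_left hT.wy
  · exact (hΦ S hS x hxS z (nS z h.hzx hzA)).resolve_left hT.wz

/-- the Delta-Y exchange of a triad, with the rank function -/
theorem exch {L : Submodule F4 (E → F4)} {p : Itv E} {x y z : E} (hL : Cls L) (h : Triad (rk L) p x y z) :
    ∃ (L' : Submodule F4 (E → F4)) (w : E → F4), Cls L' ∧ Tri (rst L p.2) x y z w ∧ L' = (rst L p.2).map (exl x y z w) := by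
  obtain ⟨Φ, hΦ1, hΦ2⟩ := cls_rst hL p.2
  have hrk := rk_congr hΦ1
  have hsub : ∀ i ∈ p.2, insert i (p.2 \ {x, y, z}) ⊆ p.2 := fun i hi => Finset.insert_subset hi Finset.sdiff_subset
  have hx2 := (Finset.mem_sdiff.1 h.gx).1
  have hy2 := (Finset.mem_sdiff.1 h.gy).1
  have hz2 := (Finset.mem_sdiff.1 h.gz).1
  have h2 : Triad (rk (rst L p.2)) p x y z := by
    refine ⟨h.hxy, h.hyz, h.hzx, h.gx, h.gy, h.gz, ?_, ?_, ?_, ?_⟩
    · rw [rk_rst_sub Finset.sdiff_subset, rk_rst_sub (Finset.Subset.refl _)]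
      exact h.lt
    · rw [rk_rst_sub (hsub x hx2), rk_rst_sub (Finset.Subset.refl _)]
      exact h.ix
    · rw [rk_rst_sub (hsub y hy2), rk_rst_sub (Finset.Subset.refl _)]
      exact h.iy
    · rw [rk_rst_sub (hsub z hz2), rk_rst_sub (Finset.Subset.refl _)]
      exact h.iz
  obtain ⟨w, hw, hw0, hwx⟩ := vec_of h2
  have hT : Tri (rst L p.2) x y z w := tri_of h2 hw hw0 (fun e he => sup_rst w hw e he) (by rw [hwx]; exact one_ne_zero)
  obtain ⟨w', hT', g1, g2, g3⟩ : ∃ w', Tri Φ x y z w' ∧ InG (w' x) ∧ InG (w' y) ∧ InG (w' z) := by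
    refine u_of (p := p) (by rw [hrk]; exact h2) hΦ2 ?_ fun e he => ?_
    · rw [hrk, rk_rst, rk_rst, Finset.univ_inter, Finset.inter_self]
    · rw [hrk, rk_rst, Finset.singleton_inter_of_notMem he, (isRk L).empty]
  exact ⟨_, w, ⟨Φ.map (exl x y z w'), fun S => isB_congr (rk_ex_congr hT' hT hrk), u2m_ex hT' hΦ2 g1 g2 g3⟩, hT, rfl⟩

/-- two of the five points are in the plane of the triad -/
theorem lemQ {L : Submodule F4 (E → F4)} (hL : Cls L) {P : Finset E} (hP : P.card = 5) {x y w : E} (xP : x ∉ P) (yP : y ∉ P)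
    (wP : w ∉ P) (xy : x ≠ y) (yw : y ≠ w) (wx : w ≠ x) (rP : rk L P = 3) (rx : rk L (insert x P) = 4) (ry : rk L (insert y P) = 4)
    (rw' : rk L (insert w P) = 4) (r8 : rk L (P ∪ {x, y, w}) = 4)
    (h3 : ∀ i ∈ P, ∀ j ∈ P, ∀ k ∈ P, i ≠ j → i ≠ k → j ≠ k → rk L {i, j, k} = 3)
    (h2 : ∀ i ∈ P, rk L {y, w, i} = 3 ∧ rk L {w, x, i} = 3 ∧ rk L {x, y, i} = 3) (h0 : rk L {x, y, w} = 3) :
    ∃ i ∈ P, ∃ j ∈ P, i ≠ j ∧ rk L ({i, j} ∪ {x, y, w}) ≤ 3 := by
  have hRk := isRk L
  set G : Finset E := P ∪ {x, y, w} with hG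
  have hxG : x ∈ G := by simp [hG]
  have hyG : y ∈ G := by simp [hG]
  have hwG : w ∈ G := by simp [hG]
  have hPG : P ⊆ G := Finset.subset_union_left
  have hGP : G \ {x, y, w} = P := by
    ext v
    simp only [hG, Finset.mem_sdiff, Finset.mem_union, Finset.mem_insert, Finset.mem_singleton]
    constructor
    · rintro ⟨h | h, h'⟩
      · exact h
      · exact absurd h h'
    · intro h
      refine ⟨Or.inl h, ?_⟩
      rintro (rfl | rfl | rfl)
      · exact xP h
      · exact yP h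
      · exact wP h
  have hTr : Triad (rk L) ((∅, G) : Itv E) x y w := by
    refine ⟨xy, yw, wx, ?_, ?_, ?_, ?_, ?_, ?_, ?_⟩
    · exact Finset.mem_sdiff.2 ⟨hxG, Finset.notMem_empty x⟩
    · exact Finset.mem_sdiff.2 ⟨hyG, Finset.notMem_empty y⟩
    · exact Finset.mem_sdiff.2 ⟨hwG, Finset.notMem_empty w⟩
    · show rk L (G \ {x, y, w}) + 1 = rk L G
      rw [hGP, rP, r8]
      norm_num
    · show rk L (insert x (G \ {x, y, w})) = rk L G
      rw [hGP, rx, r8]
    · show rk L (insert y (G \ {x, y, w})) = rk L G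
      rw [hGP, ry, r8]
    · show rk L (insert w (G \ {x, y, w})) = rk L G
      rw [hGP, rw', r8]
  obtain ⟨L', w0, hL', hT, rfl⟩ := exch hL hTr
  set L' : Submodule F4 (E → F4) := (rst L ((∅, G) : Itv E).2).map (exl x y w w0) with hL'd
  have hrs : ∀ A ⊆ G, rk (rst L ((∅, G) : Itv E).2) A = rk L A := fun A hA => rk_rst_sub hA
  have a0 : ∀ A ⊆ P, rk L' A = rk L (insert x A) - 1 := by
    intro A hA
    rw [hL'd, rk_ex0 hT (fun h => xP (hA h)) (fun h => yP (hA h)) (fun h => wP (hA h)) (Or.inl rfl),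
      hrs _ (Finset.insert_subset hxG (hA.trans hPG))]
  have a3 : ∀ i ∈ P, ∀ j ∈ P, ∀ k ∈ P, i ≠ j → i ≠ k → j ≠ k → rk L' {i, j, k} = 3 := by
    intro i hi j hj k hk hij hik hjk
    have hs : ({i, j, k} : Finset E) ⊆ P := by
      intro v hv
      simp only [Finset.mem_insert, Finset.mem_singleton] at hv
      rcases hv with rfl | rfl | rfl <;> assumption
    rw [a0 _ hs]
    have b1 := hRk.sub (insert x {i, j, k}) P
    have b2 : insert x ({i, j, k} : Finset E) ∪ P = insert x P := by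
      ext v
      simp only [Finset.mem_union, Finset.mem_insert]
      have := @hs v
      simp only [Finset.mem_insert] at this
      tauto
    have b3 : insert x ({i, j, k} : Finset E) ∩ P = {i, j, k} := by
      ext v
      simp only [Finset.mem_inter, Finset.mem_insert]
      have := @hs v
      simp only [Finset.mem_insert] at this
      constructor
      · rintro ⟨rfl | h, h'⟩
        · exact absurd h' xP
        · exact h
      · intro h
        exact ⟨Or.inr h, this h⟩
    rw [b2, b3, rx, rP, h3 i hi j hj k hk hij hik hjk] at b1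
    have b4 := hRk.unit {i, j, k} x
    rw [h3 i hi j hj k hk hij hik hjk] at b4
    omega
  have a1 : ∀ i ∈ P, rk L' {i, x} = 2 ∧ rk L' {i, y} = 2 ∧ rk L' {i, w} = 2 := by
    intro i hi
    have ix : i ≠ x := fun h => xP (h ▸ hi)
    have iy : i ≠ y := fun h => yP (h ▸ hi)
    have iw : i ≠ w := fun h => wP (h ▸ hi)
    have hiG := hPG hi
    obtain ⟨c1, c2, c3⟩ := h2 i hi
    refine ⟨?_, ?_, ?_⟩
    · have e : ({i, x} : Finset E).erase x = {i} := by
        ext v
        simp only [Finset.mem_erase, Finset.mem_insert, Finset.mem_singleton]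
        constructor
        · rintro ⟨h, h' | h'⟩
          · exact h'
          · exact absurd h' h
        · rintro rfl
          exact ⟨ix, Or.inl rfl⟩
      rw [hL'd, rk_ex1 hT (by simp) (by simp [iy.symm, xy.symm]) (by simp [iw.symm, wx]), e, hrs]
      · rw [c1]
        norm_num
      · intro v hv
        simp only [Finset.mem_insert, Finset.mem_singleton] at hv
        rcases hv with rfl | rfl | rfl <;> assumption
    · have e : ({i, y} : Finset E).erase y = {i} := by
        ext v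
        simp only [Finset.mem_erase, Finset.mem_insert, Finset.mem_singleton]
        constructor
        · rintro ⟨h, h' | h'⟩
          · exact h'
          · exact absurd h' h
        · rintro rfl
          exact ⟨iy, Or.inl rfl⟩
      rw [hL'd, rk_ex1' hT (by simp [ix.symm, xy]) (by simp) (by simp [iw.symm, yw.symm]), e, hrs]
      · rw [c2]
        norm_num
      · intro v hv
        simp only [Finset.mem_insert, Finset.mem_singleton] at hv
        rcases hv with rfl | rfl | rfl <;> assumption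
    · have e : ({i, w} : Finset E).erase w = {i} := by
        ext v
        simp only [Finset.mem_erase, Finset.mem_insert, Finset.mem_singleton]
        constructor
        · rintro ⟨h, h' | h'⟩
          · exact h'
          · exact absurd h' h
        · rintro rfl
          exact ⟨iw, Or.inl rfl⟩
      rw [hL'd, rk_ex1'' hT (by simp [ix.symm, wx.symm]) (by simp [iy.symm, yw]) (by simp), e, hrs]
      · rw [c3]
        norm_num
      · intro v hv
        simp only [Finset.mem_insert, Finset.mem_singleton] at hv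
        rcases hv with rfl | rfl | rfl <;> assumption
  have hxyw : ({x, y, w} : Finset E) ⊆ G := Finset.subset_union_right
  have a2 : ∀ A ⊆ G, ((x ∈ A ∧ y ∈ A) ∨ (y ∈ A ∧ w ∈ A) ∨ (w ∈ A ∧ x ∈ A)) → rk L' A = rk L (A ∪ {x, y, w}) - 1 := by
    intro A hA h
    rw [hL'd, rk_ex2 hT h, hrs _ (Finset.union_subset hA hxyw)]
  have sb : ∀ A ⊆ ({x, y, w} : Finset E), ((x ∈ A ∧ y ∈ A) ∨ (y ∈ A ∧ w ∈ A) ∨ (w ∈ A ∧ x ∈ A)) → rk L' A = 2 := by
    intro A hA h
    rw [a2 A (hA.trans hxyw) h, Finset.union_eq_right.2 hA, h0]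
    norm_num
  have hu3 : rk L' Finset.univ = 3 := by
    rw [hL'd, rk_ex2 hT (Or.inl ⟨Finset.mem_univ _, Finset.mem_univ _⟩), rk_rst]
    have e : (Finset.univ ∪ {x, y, w}) ∩ ((∅, G) : Itv E).2 = G := by
      rw [Finset.union_eq_left.2 (Finset.subset_univ _), Finset.univ_inter]
    rw [e, r8]
    norm_num
  -- five elements
  obtain ⟨a, t, hat, rfl', ht⟩ := Finset.card_eq_succ.1 hP
  obtain ⟨b, t', hbt, rfl'', ht'⟩ := Finset.card_eq_succ.1 ht
  obtain ⟨c, d, e, hcd, hce, hde, rfl⟩ := Finset.card_eq_three.1 ht'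
  subst rfl''
  have hPe : P = {a, b, c, d, e} := rfl'.symm
  have hab : a ≠ b := fun h => hat (by rw [h]; simp)
  have hac : a ≠ c := fun h => hat (by rw [h]; simp)
  have had : a ≠ d := fun h => hat (by rw [h]; simp)
  have hae : a ≠ e := fun h => hat (by rw [h]; simp)
  have hbc : b ≠ c := fun h => hbt (by rw [h]; simp)
  have hbd : b ≠ d := fun h => hbt (by rw [h]; simp)
  have hbe : b ≠ e := fun h => hbt (by rw [h]; simp)
  have mP : ∀ {v : E}, v ∈ ({a, b, c, d, e} : Finset E) → v ∈ P := fun {v} hv => by rw [hPe]; exact hv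
  have ma : a ∈ P := mP (by simp)
  have mb : b ∈ P := mP (by simp)
  have mc : c ∈ P := mP (by simp)
  have md : d ∈ P := mP (by simp)
  have me : e ∈ P := mP (by simp)
  have b3 : ∀ {i j k : E}, i ∈ P → j ∈ P → k ∈ P → i ≠ j → i ≠ k → j ≠ k → B3 L' i j k := by
    intro i j k hi hj hk hij hik hjk
    refine ⟨hij, hik, hjk, isB_iff.2 ?_⟩
    rw [Finset.card_eq_three.2 ⟨i, j, k, hij, hik, hjk, rfl⟩, a3 i hi j hj k hk hij hik hjk, hu3]
    norm_num
  have hAc : Ac L' a b c d e := ⟨b3 ma mb mc hab hac hbc, b3 ma mb md hab had hbd, b3 ma mc md hac had hcd,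
    b3 mb mc md hbc hbd hcd, b3 ma mb me hab hae hbe, b3 ma mc me hac hae hce, b3 mb mc me hbc hbe hce, b3 ma md me had hae hde,
    b3 mb md me hbd hbe hde, b3 mc md me hcd hce hde⟩
  obtain ⟨Φ, hB, hU⟩ := hL'
  obtain ⟨i, hi, j, hj, hij, h⟩ := plane hB hU (x := x) (y := y) (w := w) hAc (by
    intro v hv i hi
    obtain ⟨c1, c2, c3⟩ := a1 i (mP hi)
    simp only [Finset.mem_insert, Finset.mem_singleton] at hv
    rcases hv with rfl | rfl | rfl <;> assumption) (sb {x, y} (by
    intro v hv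
    simp only [Finset.mem_insert, Finset.mem_singleton] at hv ⊢
    tauto) (Or.inl ⟨by simp, by simp⟩)) (sb {x, w} (by
    intro v hv
    simp only [Finset.mem_insert, Finset.mem_singleton] at hv ⊢
    tauto) (Or.inr (Or.inr ⟨by simp, by simp⟩))) (sb {y, w} (by
    intro v hv
    simp only [Finset.mem_insert, Finset.mem_singleton] at hv ⊢
    tauto) (Or.inr (Or.inl ⟨by simp, by simp⟩))) (sb {x, y, w} (Finset.Subset.refl _) (Or.inl ⟨by simp, by simp⟩)).le
  refine ⟨i, mP hi, j, mP hj, hij, ?_⟩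
  have hsub : insert i (insert j ({x, y, w} : Finset E)) ⊆ G :=
    Finset.insert_subset (hPG (mP hi)) (Finset.insert_subset (hPG (mP hj)) hxyw)
  rw [a2 _ hsub (Or.inl ⟨by simp, by simp⟩)] at h
  have e2 : insert i (insert j ({x, y, w} : Finset E)) ∪ {x, y, w} = {i, j} ∪ {x, y, w} := by
    ext v
    simp only [Finset.mem_insert, Finset.mem_singleton, Finset.mem_union]
    tauto
  rw [e2] at h
  omega

/-- a 3-connected rich box of the class with nine elements and rank four has a triad or a triangle -/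
theorem nt9 {L : Submodule F4 (E → F4)} {p : Itv E} (hL : Cls L) (hp : p.1 ⊆ p.2) (h3 : Th3 (rk L) p) (hR : HasRich (rk L) p)
    (h9 : (gs p).card = 9) (hr : rk L p.2 = rk L p.1 + 4) (hT : ∀ x y z, ¬ Triad (rk L) p x y z) :
    ∃ x y z, Triad (rk (WW L)) (QUB.dp p) x y z := by
  by_contra hno
  push Not at hno
  have hRk := isRk L
  have hcard : 4 ≤ (gs p).card := by omega
  have t5 : ∀ x ∈ gs p, ∀ y ∈ gs p, ∀ w ∈ gs p, x ≠ y → x ≠ w → y ≠ w → rk L (p.2 \ {x, y, w}) = rk L p.2 := by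
    intro x hx y hy w hw a b c
    by_contra h
    exact hT x y w (triad_of hRk h3 hcard hx hy hw a b c h)
  have t3 : ∀ x ∈ gs p, ∀ y ∈ gs p, ∀ w ∈ gs p, x ≠ y → x ≠ w → y ≠ w → rk L (p.1 ∪ {x, y, w}) = rk L p.1 + 3 := by
    intro x hx y hy w hw a b c
    by_contra h
    refine hno x y w ?_
    have hR' : QUB.Rk (QUB.rd (rk L)) := rk_ww L ▸ isRk (WW L)
    rw [rk_ww]
    have hg : gs (QUB.dp p) = gs p := QUB.gs_dp p
    have hs : ({x, y, w} : Finset E) ⊆ gs p := by
      intro v hv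
      simp only [Finset.mem_insert, Finset.mem_singleton] at hv
      rcases hv with rfl | rfl | rfl <;> assumption
    refine triad_of hR' (th3_dp hp h3) (by rw [hg]; exact hcard) (by rw [hg]; exact hx) (by rw [hg]; exact hy)
      (by rw [hg]; exact hw) a b c ?_
    intro h'
    rw [rd_sdiff hs, Finset.card_eq_three.2 ⟨x, y, w, a, b, c, rfl⟩] at h'
    apply h
    push_cast at h'
    linarith
  have sub3 : ∀ {x y w : E}, x ∈ gs p → y ∈ gs p → w ∈ gs p → ({x, y, w} : Finset E) ⊆ gs p := by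
    intro x y w hx hy hw v hv
    simp only [Finset.mem_insert, Finset.mem_singleton] at hv
    rcases hv with rfl | rfl | rfl <;> assumption
  have c2 : ∀ B ⊆ gs p, 2 ≤ B.card → rk L p.1 + 2 ≤ rk L (p.1 ∪ B) := by
    intro B hB hc
    obtain ⟨S, hS, hSc⟩ := Finset.exists_subset_card_eq hc
    obtain ⟨x, y, hxy, rfl⟩ := Finset.card_eq_two.1 hSc
    have e1 := (th_two hRk h3 hcard (hB (hS (by simp))) (hB (hS (by simp))) hxy).1
    have e2 := hRk.mono (p.1 ∪ {x, y}) (p.1 ∪ B) (Finset.union_subset_union (Finset.Subset.refl _) hS)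
    omega
  have c3 : ∀ B ⊆ gs p, 3 ≤ B.card → rk L p.1 + 3 ≤ rk L (p.1 ∪ B) := by
    intro B hB hc
    obtain ⟨S, hS, hSc⟩ := Finset.exists_subset_card_eq hc
    obtain ⟨x, y, w, a, b, c, rfl⟩ := Finset.card_eq_three.1 hSc
    have e1 := t3 x (hB (hS (by simp))) y (hB (hS (by simp))) w (hB (hS (by simp))) a b c
    have e2 := hRk.mono (p.1 ∪ {x, y, w}) (p.1 ∪ B) (Finset.union_subset_union (Finset.Subset.refl _) hS)
    omega
  have hub : ∀ B ⊆ gs p, p.1 ∪ B ⊆ p.2 := fun B hB => Finset.union_subset hp (hB.trans Finset.sdiff_subset)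
  have c6 : ∀ B ⊆ gs p, 6 ≤ B.card → rk L (p.1 ∪ B) = rk L p.2 := by
    intro B hB hc
    have h1 : (gs p \ B).card ≤ 3 := by
      rw [Finset.card_sdiff_of_subset hB]
      omega
    obtain ⟨S, hS1, hS2, hSc⟩ := Finset.exists_subsuperset_card_eq (Finset.sdiff_subset (s := gs p) (t := B)) h1 (by omega)
    obtain ⟨x, y, w, a, b, c, rfl⟩ := Finset.card_eq_three.1 hSc
    have e1 := t5 x (hS2 (by simp)) y (hS2 (by simp)) w (hS2 (by simp)) a b c
    have e2 := hRk.mono (p.2 \ {x, y, w}) (p.1 ∪ B) (by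
      intro v hv
      obtain ⟨h4, h5⟩ := Finset.mem_sdiff.1 hv
      by_contra h6
      rw [Finset.mem_union, not_or] at h6
      exact h5 (hS1 (Finset.mem_sdiff.2 ⟨Finset.mem_sdiff.2 ⟨h4, h6.1⟩, h6.2⟩)))
    have e3 := hRk.mono _ _ (hub B hB)
    omega
  -- a deleted element
  obtain ⟨q, hq, hqR⟩ := hR
  have hq0 := hqR.1
  have hq5 : (gs q).card = 5 := hqR.2.1
  obtain ⟨z, hz, hzq⟩ : ∃ z ∈ gs p, z ∉ q.2 := by
    by_contra hcon
    push Not at hcon
    have hgq : gs q ⊆ gs p := fun x hx => Finset.mem_sdiff.2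
      ⟨hq.2 (Finset.mem_sdiff.1 hx).1, fun h => (Finset.mem_sdiff.1 hx).2 (hq.1 h)⟩
    have h4 : (gs p \ gs q).card = 4 := by
      rw [Finset.card_sdiff_of_subset hgq]
      omega
    have h5 := c3 (gs p \ gs q) Finset.sdiff_subset (by omega)
    have h6 : p.1 ∪ (gs p \ gs q) ⊆ q.1 := by
      intro v hv
      rcases Finset.mem_union.1 hv with hv | hv
      · exact hq.1 hv
      · obtain ⟨h7, h8⟩ := Finset.mem_sdiff.1 hv
        by_contra h9
        exact h8 (Finset.mem_sdiff.2 ⟨hcon v h7, h9⟩)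
    have h7 := hRk.mono _ _ h6
    have h8 := hRk.mono _ _ hq.2
    rcases hqR.2.2 with ⟨h9, -⟩ | ⟨h9, -⟩ <;> omega
  set p' : Itv E := (p.1, p.2.erase z) with hp'd
  have hz2 := (Finset.mem_sdiff.1 hz).1
  have hz1 := (Finset.mem_sdiff.1 hz).2
  have hp' : p'.1 ⊆ p'.2 := fun v hv => Finset.mem_erase.2 ⟨fun h => hz1 (h ▸ hv), hp hv⟩
  have hg' : gs p' = (gs p).erase z := by
    ext v
    simp only [QUB.gs, hp'd, Finset.mem_sdiff, Finset.mem_erase]
    tauto
  have hg'' : gs p' ⊆ gs p := by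
    rw [hg']
    exact Finset.erase_subset _ _
  have h8 : (gs p').card = 8 := by
    rw [hg', Finset.card_erase_of_mem hz]
    omega
  have hc' : ∀ A ⊆ gs p', p'.2 \ A = p.1 ∪ (gs p' \ A) := by
    intro A hA
    ext v
    have a1 := @hp v
    have a2 := fun h : v ∈ A => (Finset.mem_sdiff.1 (hg'' (hA h))).2
    have a3 : v ∈ p.1 → v ≠ z := fun h h' => hz1 (h' ▸ h)
    simp only [QUB.gs, hp'd, Finset.mem_sdiff, Finset.mem_erase, Finset.mem_union]
    tauto
  have hr' : rk L p'.2 = rk L p.2 := by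
    have e1 := hc' ∅ (Finset.empty_subset _)
    rw [Finset.sdiff_empty, Finset.sdiff_empty] at e1
    rw [e1]
    exact c6 _ hg'' (by omega)
  have ht' : Th3 (rk L) p' := by
    intro A hA h1 h2
    have hA' : A ⊆ gs p' := hA
    have h2' : 2 ≤ (gs p' \ A).card := h2
    have h4 := Finset.card_sdiff_of_subset hA'
    have h5 := c2 A (hA'.trans hg'') h1
    have h6 := c2 (gs p' \ A) (Finset.sdiff_subset.trans hg'') h2'
    show 2 ≤ rk L (p'.1 ∪ A) + rk L (p'.2 \ A) - rk L p'.2 - rk L p'.1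
    rw [hc' A hA', hr', hr]
    show 2 ≤ rk L (p.1 ∪ A) + rk L (p.1 ∪ (gs p' \ A)) - (rk L p.1 + 4) - rk L p.1
    by_cases hA6 : 6 ≤ A.card
    · have h7 := c6 A (hA'.trans hg'') hA6
      omega
    · by_cases hA2 : A.card ≤ 2
      · have h7 := c6 (gs p' \ A) (Finset.sdiff_subset.trans hg'') (by omega)
        omega
      · have h7 := c3 A (hA'.trans hg'') (by omega)
        have h8 := c3 (gs p' \ A) (Finset.sdiff_subset.trans hg'') (by omega)
        omega
  by_cases h5' : ∀ x ∈ gs p', ∀ y ∈ gs p', ∀ w ∈ gs p', x ≠ y → x ≠ w → y ≠ w → rk L (p'.2 \ {x, y, w}) = rk L p'.2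
  · refine d44 hL hp' h8 (by rw [hr', hr]) ht' (fun x hx y hy w hw a b c => t3 x (hg'' hx) y (hg'' hy) w (hg'' hw) a b c) h5'
      (q := q) ⟨hq.1, fun v hv => Finset.mem_erase.2 ⟨fun h => hzq (h ▸ hv), hq.2 hv⟩⟩ hqR
  push Not at h5'
  obtain ⟨x, hx, y, hy, w, hw, xy, xw, yw, hne⟩ := h5'
  have sxyw : ({x, y, w} : Finset E) ⊆ gs p' := by
    intro v hv
    simp only [Finset.mem_insert, Finset.mem_singleton] at hv
    rcases hv with rfl | rfl | rfl <;> assumption
  set P := gs p' \ {x, y, w} with hP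
  have hPg : P ⊆ gs p := Finset.sdiff_subset.trans hg''
  have hPc : P.card = 5 := by
    rw [hP, Finset.card_sdiff_of_subset sxyw, Finset.card_eq_three.2 ⟨x, y, w, xy, xw, yw, rfl⟩]
    omega
  have hPr : rk L (p.1 ∪ P) = rk L p.1 + 3 := by
    rw [hc' _ sxyw, hr', ← hP] at hne
    have e1 := c3 P hPg (by omega)
    have e2 := hRk.mono _ _ (hub P hPg)
    omega
  have nz : ∀ v ∈ P, v ≠ z ∧ v ≠ x ∧ v ≠ y ∧ v ≠ w := by
    intro v hv
    obtain ⟨h4, h5⟩ := Finset.mem_sdiff.1 hv
    rw [hg'] at h4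
    simp only [Finset.mem_insert, Finset.mem_singleton, not_or] at h5
    exact ⟨(Finset.mem_erase.1 h4).1, h5.1, h5.2.1, h5.2.2⟩
  have gx := hg'' hx
  have gy := hg'' hy
  have gw := hg'' hw
  have zx : z ≠ x := by
    rintro rfl
    rw [hg'] at hx
    exact (Finset.mem_erase.1 hx).1 rfl
  have zy : z ≠ y := by
    rintro rfl
    rw [hg'] at hy
    exact (Finset.mem_erase.1 hy).1 rfl
  have zw : z ≠ w := by
    rintro rfl
    rw [hg'] at hw
    exact (Finset.mem_erase.1 hw).1 rfl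
  have zP : z ∉ P := fun h => (nz z h).1 rfl
  have xP : x ∉ P := fun h => (nz x h).2.1 rfl
  have yP : y ∉ P := fun h => (nz y h).2.2.1 rfl
  have wP : w ∉ P := fun h => (nz w h).2.2.2 rfl
  obtain ⟨L0, hL0, hr0, -⟩ := minor hL hp
  have hA : ∀ A ⊆ gs p, rk L0 A = rk L (p.1 ∪ A) - rk L p.1 := by
    intro A hA
    rw [hr0, Finset.inter_eq_left.2 (fun x hx => (Finset.mem_sdiff.1 (hA hx)).1), Finset.union_comm]
  have A3 : ∀ {a b c : E}, a ∈ gs p → b ∈ gs p → c ∈ gs p → a ≠ b → a ≠ c → b ≠ c → rk L0 {a, b, c} = 3 := by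
    intro a b c ha hb hc h1 h2 h4
    rw [hA _ (sub3 ha hb hc), t3 a ha b hb c hc h1 h2 h4]
    omega
  have A6 : ∀ {B : Finset E}, B ⊆ gs p → 6 ≤ B.card → rk L0 B = 4 := by
    intro B hB hc
    rw [hA _ hB, c6 B hB hc]
    omega
  have key : ∀ {u v t : E}, u ∈ gs p → v ∈ gs p → t ∈ gs p → u ∉ P → v ∉ P → t ∉ P → u ≠ v → v ≠ t → t ≠ u →
      ∃ i ∈ P, ∃ j ∈ P, i ≠ j ∧ rk L0 ({i, j} ∪ {u, v, t}) ≤ 3 := by
    intro u v t gu gv gt uP vP tP uv vt tu
    have ins : ∀ {s : E}, s ∈ gs p → s ∉ P → rk L0 (insert s P) = 4 := by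
      intro s hs hsP
      exact A6 (Finset.insert_subset hs hPg) (by rw [Finset.card_insert_of_notMem hsP]; omega)
    refine lemQ hL0 hPc uP vP tP uv vt tu ?_ (ins gu uP) (ins gv vP) (ins gt tP) ?_ ?_ ?_ ?_
    · rw [hA _ hPg, hPr]
      omega
    · refine A6 (Finset.union_subset hPg (sub3 gu gv gt)) ?_
      have e1 := Finset.card_le_card (show insert u P ⊆ P ∪ {u, v, t} from
        Finset.insert_subset (by simp) Finset.subset_union_left)
      rw [Finset.card_insert_of_notMem uP] at e1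
      omega
    · intro i hi j hj k hk h1 h2 h4
      exact A3 (hPg hi) (hPg hj) (hPg hk) h1 h2 h4
    · intro i hi
      have iu : i ≠ u := fun h => uP (h ▸ hi)
      have iv : i ≠ v := fun h => vP (h ▸ hi)
      have it : i ≠ t := fun h => tP (h ▸ hi)
      exact ⟨A3 gv gt (hPg hi) vt iv.symm it.symm, A3 gt gu (hPg hi) tu it.symm iu.symm, A3 gu gv (hPg hi) uv iu.symm iv.symm⟩
    · exact A3 gu gv gt uv tu.symm vt
  have cl : ∀ {u v t s i j a b : E}, u ∈ gs p → v ∈ gs p → t ∈ gs p → s ∈ gs p → u ∉ P → v ∉ P → t ∉ P → s ∉ P →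
      u ≠ v → u ≠ t → u ≠ s → v ≠ t → v ≠ s → t ≠ s → i ∈ P → j ∈ P → a ∈ P → b ∈ P → i ≠ j →
      rk L0 ({i, j} ∪ {u, v, t}) ≤ 3 → rk L0 ({a, b} ∪ {u, v, s}) ≤ 3 → a ≠ i ∧ a ≠ j ∧ b ≠ i ∧ b ≠ j := by
    intro u v t s i j a b gu gv gt gs' uP vP tP sP uv ut us vt vs ts hi hj ha hb hij h1 h2
    have main : ∀ c, c ∈ ({a, b} : Finset E) → c ∈ ({i, j} : Finset E) → c ∈ P → False := by
      intro c hca hci hcP
      have e1 := (isRk L0).sub ({i, j} ∪ {u, v, t}) ({a, b} ∪ {u, v, s})
      have e2 := (isRk L0).mono {u, v, c} (({i, j} ∪ {u, v, t}) ∩ ({a, b} ∪ {u, v, s})) (by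
        intro k hk
        simp only [Finset.mem_insert, Finset.mem_singleton] at hk
        rw [Finset.mem_inter, Finset.mem_union, Finset.mem_union]
        rcases hk with rfl | rfl | rfl
        · exact ⟨Or.inr (by simp), Or.inr (by simp)⟩
        · exact ⟨Or.inr (by simp), Or.inr (by simp)⟩
        · exact ⟨Or.inl hci, Or.inl hca⟩)
      have cu : c ≠ u := fun h => uP (h ▸ hcP)
      have cv : c ≠ v := fun h => vP (h ▸ hcP)
      rw [A3 gu gv (hPg hcP) uv cu.symm cv.symm] at e2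
      have iu : i ≠ u := fun h => uP (h ▸ hi)
      have iv : i ≠ v := fun h => vP (h ▸ hi)
      have it : i ≠ t := fun h => tP (h ▸ hi)
      have is : i ≠ s := fun h => sP (h ▸ hi)
      have ju : j ≠ u := fun h => uP (h ▸ hj)
      have jv : j ≠ v := fun h => vP (h ▸ hj)
      have jt : j ≠ t := fun h => tP (h ▸ hj)
      have js : j ≠ s := fun h => sP (h ▸ hj)
      have e3 : ({i, j, u, v, t, s} : Finset E).card = 6 := by
        rw [Finset.card_insert_of_notMem (by simp [hij, iu, iv, it, is]), Finset.card_insert_of_notMem (by simp [ju, jv, jt, js]),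
          Finset.card_insert_of_notMem (by simp [uv, ut, us]), Finset.card_insert_of_notMem (by simp [vt, vs]), Finset.card_pair ts]
      have e4 : rk L0 ({i, j, u, v, t, s} : Finset E) = 4 := by
        refine A6 ?_ (by omega)
        intro k hk
        simp only [Finset.mem_insert, Finset.mem_singleton] at hk
        rcases hk with rfl | rfl | rfl | rfl | rfl | rfl
        · exact hPg hi
        · exact hPg hj
        · exact gu
        · exact gv
        · exact gt
        · exact gs'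
      have e5 := (isRk L0).mono ({i, j, u, v, t, s} : Finset E) (({i, j} ∪ {u, v, t}) ∪ ({a, b} ∪ {u, v, s})) (by
        intro k hk
        simp only [Finset.mem_insert, Finset.mem_singleton] at hk
        simp only [Finset.mem_union, Finset.mem_insert, Finset.mem_singleton]
        tauto)
      omega
    refine ⟨?_, ?_, ?_, ?_⟩
    · rintro rfl
      exact main a (by simp) (by simp) ha
    · rintro rfl
      exact main a (by simp) (by simp) ha
    · rintro rfl
      exact main b (by simp) (by simp) hb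
    · rintro rfl
      exact main b (by simp) (by simp) hb
  obtain ⟨i1, hi1, j1, hj1, n1, r1⟩ := key hz gx gy zP xP yP zx xy zy.symm
  obtain ⟨i2, hi2, j2, hj2, n2, r2⟩ := key hz gx gw zP xP wP zx xw zw.symm
  obtain ⟨i3, hi3, j3, hj3, n3, r3⟩ := key hz gy gw zP yP wP zy yw zw.symm
  obtain ⟨k1, k2, k3, k4⟩ := cl hz gx gy gw zP xP yP wP zx zy zw xy xw yw hi1 hj1 hi2 hj2 n1 r1 r2
  have s13 : ({z, y, x} : Finset E) = {z, x, y} := by
    ext v
    simp only [Finset.mem_insert, Finset.mem_singleton]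
    tauto
  obtain ⟨k5, k6, k7, k8⟩ := cl hz gy gx gw zP yP xP wP zy zx zw xy.symm yw xw hi1 hj1 hi3 hj3 n1 (by rw [s13]; exact r1) r3
  have s23 : ({z, w, x} : Finset E) = {z, x, w} := by
    ext v
    simp only [Finset.mem_insert, Finset.mem_singleton]
    tauto
  have s23' : ({z, w, y} : Finset E) = {z, y, w} := by
    ext v
    simp only [Finset.mem_insert, Finset.mem_singleton]
    tauto
  obtain ⟨l1, l2, l3, l4⟩ := cl hz gw gx gy zP wP xP yP zw zx zy xw.symm yw.symm xy hi2 hj2 hi3 hj3 n2 (by rw [s23]; exact r2)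
    (by rw [s23']; exact r3)
  have hfin : ({i1, j1, i2, j2, i3, j3} : Finset E).card = 6 := by
    rw [Finset.card_insert_of_notMem (by simp [n1, k1.symm, k3.symm, k5.symm, k7.symm]),
      Finset.card_insert_of_notMem (by simp [k2.symm, k4.symm, k6.symm, k8.symm]),
      Finset.card_insert_of_notMem (by simp [n2, l1.symm, l3.symm]), Finset.card_insert_of_notMem (by simp [l2.symm, l4.symm]),
      Finset.card_pair n3]
  have hsub : ({i1, j1, i2, j2, i3, j3} : Finset E) ⊆ P := by
    intro k hk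
    simp only [Finset.mem_insert, Finset.mem_singleton] at hk
    rcases hk with rfl | rfl | rfl | rfl | rfl | rfl <;> assumption
  have := Finset.card_le_card hsub
  omega

end Pool.Agent.QUX
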