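import Pool.Agent.QUX.Nt4
import Pool.Agent.QUB.Bix

/-!
# QUX/NtRk: rank form of the absence of triangles and triads
-/

set_option autoImplicit false

noncomputable section

open scoped Classical

namespace Pool.Agent.QUX

open Pool.Agent.FRM Pool.Agent.QUS Pool.Agent.QUE Pool.Agent.QUY Pool.Agent.QUD
open Pool.Agent.QU (van Itv Sub Rich Th3 HasRich)
open QUB (gs rm lam)

variable {E : Type} [Fintype E]

/-- no triads and no triangles, in terms of ranks -/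
theorem nt_rk4 {L : Submodule F4 (E → F4)} {p : Itv E} (hp : p.1 ⊆ p.2) (h3 : Th3 (rk L) p) (hcard : 4 ≤ (gs p).card)
    (hT : ∀ x y z, ¬ Triad (rk L) p x y z) (hD : ∀ x y z, ¬ Triad (rk (WW L)) (QUB.dp p) x y z) :
    (∀ Z ⊆ gs p, Z.card = 3 → rk L (p.1 ∪ Z) = rk L p.1 + 3) ∧ (∀ Z ⊆ gs p, Z.card = 3 → rk L (p.2 \ Z) = rk L p.2) := by
  have hRk := isRk L
  have hgd : gs (QUB.dp p) = gs p := QUB.gs_dp p
  constructor
  · intro T hTg hTc
    obtain ⟨x, y, z, a, b, c, rfl⟩ := Finset.card_eq_three.1 hTc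
    by_contra h
    refine hD x y z ?_
    have hR' : QUB.Rk (QUB.rd (rk L)) := rk_ww L ▸ isRk (WW L)
    rw [rk_ww]
    refine triad_of hR' (th3_dp hp h3) (by rw [hgd]; exact hcard) (by rw [hgd]; exact hTg (by simp)) (by rw [hgd]; exact hTg (by simp))
      (by rw [hgd]; exact hTg (by simp)) a b c ?_
    intro h'
    rw [rd_sdiff hTg, hTc] at h'
    apply h
    push_cast at h'
    linarith
  · intro T hTg hTc
    obtain ⟨x, y, z, a, b, c, rfl⟩ := Finset.card_eq_three.1 hTc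
    by_contra h
    exact hT x y z (triad_of hRk h3 hcard (hTg (by simp)) (hTg (by simp)) (hTg (by simp)) a b c h)

theorem nt_rk {L : Submodule F4 (E → F4)} {p : Itv E} (hp : p.1 ⊆ p.2) (h3 : Th3 (rk L) p) (hn : 9 ≤ (gs p).card)
    (hT : ∀ x y z, ¬ Triad (rk L) p x y z) (hD : ∀ x y z, ¬ Triad (rk (WW L)) (QUB.dp p) x y z) :
    (∀ Z ⊆ gs p, Z.card = 3 → rk L (p.1 ∪ Z) = rk L p.1 + 3) ∧ (∀ Z ⊆ gs p, Z.card = 3 → rk L (p.2 \ Z) = rk L p.2) :=
  nt_rk4 hp h3 (by omega) hT hD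

end Pool.Agent.QUX
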