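import Pool.Agent.QUT.CaseI
import Pool.Agent.QUX.Kww
import Pool.Agent.QUX.NtRk
import Pool.Agent.QUN.NuC

/-!
# QUX/NtOne: no triangles and no triads: done, or all single removals are 3-connected
-/

set_option autoImplicit false

noncomputable section

open scoped Classical

namespace Pool.Agent.QUX

open Pool.Agent.FRM Pool.Agent.QUS Pool.Agent.QUE Pool.Agent.QUY Pool.Agent.QUD
open Pool.Agent.QU (Fm EqD InV Itv Sub InVs Th3 HasRich TS Nt Cs)
open QUB (gs Cn)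

variable {E : Type} [Fintype E]

/-- **NT case I** for the boxes of the class -/
theorem nt_one {L : Submodule F4 (E → F4)} {p : Itv E} (hL : Cls L) (hp : p.1 ⊆ p.2) (hC : Cn (rk L) p) (h3 : Th3 (rk L) p)
    (hR : HasRich (rk L) p) (hn : 9 ≤ (gs p).card) (hT : ∀ x y z, ¬ Triad (rk L) p x y z)
    (hD : ∀ x y z, ¬ Triad (rk (WW L)) (QUB.dp p) x y z)
    (ih : ∀ q : Itv E, q.1 ⊆ q.2 → Sub q p → (gs q).card < (gs p).card → ∃ T, InVs (tp L) q T) :
    (∃ T : Fm F4 E, InV L (WW L) p T ∧ ¬ EqD L (WW L) p T 0) ∨ ∀ w ∈ gs p, ∀ s : Bool, Th3 (rk L) (QUB.rm s w p) := by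
  by_cases hcase : ∃ v ∈ gs p, ∃ (t : Bool) (Z : Finset E), TS (rk L) p v t Z
  · left
    have hk := nt_rk hp h3 hn hT hD
    have hNt : Nt (rk L) p := ⟨hk.1, hk.2⟩
    have hCs : Cs (tp L) p := ⟨QUN.nu_of_cls hL, hp, hC, h3, hNt, hR, hn, ih⟩
    exact QU.case_one hCs (fun s w X Y hw hX hY hXc hYc hd wX wY l1 l2 => qq hL hp h3 hT hD hw hX hY hXc hYc hd wX wY l1 l2) hcase
  · right
    intro w hw s A hA hA2 hB2
    have g1 : gs (QUB.rm s w p) = (gs p).erase w := QUB.gs_rm s w p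
    by_contra hcon
    refine hcase ⟨w, hw, s, A, ?_, hA2, ?_, ?_⟩
    · rw [← g1]
      exact hA
    · rw [← g1]
      exact hB2
    · have h1 : QUB.lam (rk L) (QUB.rm s w p) A = QU.lam (rk L) (QUB.rm s w p) A := rfl
      rw [h1]
      omega

end Pool.Agent.QUX
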