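import Pool.Agent.QUL.LGlue
import Pool.Agent.QUL.LRank
import Pool.Agent.QUL.LBase

set_option autoImplicit false
set_option linter.unusedSectionVars false

/-!
# Project QU, layer D: the one-removal lemma

`f` and `a` are two elements of the box `p`. `GF r p f a F`: the set `F` spans `f` without `f` and
does not span `a`. `Cx`: the poset of these sets is connected. A form `T` which is in `V` after the
deletion of `f` and after the contraction of `a` has one constant defect, `T - k c_a d_f` is in `V`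
(`one_glue`). So a form of `V(M\f)` whose restriction to `M\f/a` comes from `V(M/a)` extends to
`V(M)` (`one_removal`, general form due to helper71; for a triangle `f, a, b` due to helper21).
-/

namespace Pool.Agent.QU

section

variable {K E : Type} [Field K]

/-- the form `c a * d f` -/
def crs (a f : E) : Fm K E :=
  LinearMap.mk₂ K (fun c d => c a * d f)
    (fun c c' d => by rw [Pi.add_apply]; ring)
    (fun k c d => by rw [Pi.smul_apply, smul_eq_mul, smul_eq_mul]; ring)
    (fun c d d' => by rw [Pi.add_apply]; ring)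
    (fun k c d => by rw [Pi.smul_apply, smul_eq_mul, smul_eq_mul]; ring)

theorem crs_apply (a f : E) (c d : E → K) : crs a f c d = c a * d f := rfl

end

section

variable {K E : Type} [Field K] [Fintype E] [DecidableEq E]

/-- `F` is a set of the box which spans `f` without `f` and does not span `a` -/
def GF (r : Finset E → ℤ) (p : Itv E) (f a : E) (F : Finset E) : Prop :=
  p.1 ⊆ F ∧ F ⊆ p.2 ∧ f ∈ F ∧ r (F.erase f) = r F ∧ r (insert a F) = r F + 1

/-- the poset of the sets of `GF` is connected -/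
def Cx (r : Finset E → ℤ) (p : Itv E) (f a : E) : Prop :=
  ∀ F F', GF r p f a F → GF r p f a F' →
    Relation.ReflTransGen (fun A B => GF r p f a A ∧ GF r p f a B ∧ (A ⊆ B ∨ B ⊆ A)) F F'

theorem crs_del (U W : Submodule K (E → K)) (p : Itv E) (f a : E) :
    EqOn U W (rm true f p) (crs a f : Fm K E) 0 := by
  intro c _ d hd
  rw [crs_apply, hd.2 f (Finset.notMem_erase f p.2), mul_zero]
  rfl

theorem crs_con (U W : Submodule K (E → K)) (p : Itv E) (f a : E) :
    EqOn U W (rm false a p) (crs a f : Fm K E) 0 := by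
  intro c hc d _
  rw [crs_apply, hc.2 a (Finset.mem_insert_self a p.1), zero_mul]
  rfl

private theorem one_van {U : Submodule K (E → K)} {x : E} {A : Finset E} {c : E → K}
    (hc : c ∈ van U A) (h : c x = 0) : c ∈ van U (insert x A) := by
  refine ⟨hc.1, fun y hy => ?_⟩
  rcases Finset.mem_insert.1 hy with h1 | h1
  · rw [h1, h]
  · exact hc.2 y h1

private theorem one_spt {W : Submodule K (E → K)} {x : E} {A : Finset E} {d : E → K}
    (hd : d ∈ spt W A) (h : d x = 0) : d ∈ spt W (A.erase x) := by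
  refine ⟨hd.1, fun y hy => ?_⟩
  by_cases hyx : y = x
  · rw [hyx, h]
  · exact hd.2 y fun h1 => hy (Finset.mem_erase.2 ⟨hyx, h1⟩)

private theorem one_dis {U W : Submodule K (E → K)} {F : Finset E} {c d : E → K}
    (hc : c ∈ van U F) (hd : d ∈ spt W F) : ∀ x, c x * d x = 0 := by
  intro x
  by_cases h : x ∈ F
  · rw [hc.2 x h, zero_mul]
  · rw [hd.2 x h, mul_zero]

/-- on the pairs of a good set `F` the value of `T` is a multiple of `c a * d f` -/
private theorem one_theta (S : TP K E) {p : Itv E} {f a : E} {T : Fm K E}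
    (h1 : InV S.U S.W (rm true f p) T) (h2 : InV S.U S.W (rm false a p) T) {F : Finset E}
    (hF : GF S.r p f a F) :
    ∃ k : K, ∀ c ∈ van S.U F, ∀ d ∈ spt S.W F, T c d = k * (c a * d f) := by
  obtain ⟨hF1, hF2, hfF, hF3, hF4⟩ := hF
  obtain ⟨c₀, hc₀, hc₀a⟩ := TP.van_one S hF4
  obtain ⟨d₀, hd₀, hd₀f⟩ := TP.spt_one S hfF hF3
  refine ⟨T c₀ d₀, fun c hc d hd => ?_⟩
  have e1 : T (c - (c a) • c₀) d = 0 := by
    have hc' : c - (c a) • c₀ ∈ van S.U F := Submodule.sub_mem _ hc (Submodule.smul_mem _ _ hc₀)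
    have h0 : (c - (c a) • c₀) a = 0 := by
      rw [Pi.sub_apply, Pi.smul_apply, smul_eq_mul, hc₀a, mul_one, sub_self]
    refine h2 _ ?_ d (spt_mono hF2 hd) (one_dis hc' hd)
    exact van_anti (Finset.insert_subset_insert a hF1) (one_van hc' h0)
  have e2 : T c₀ (d - (d f) • d₀) = 0 := by
    have hd' : d - (d f) • d₀ ∈ spt S.W F := Submodule.sub_mem _ hd (Submodule.smul_mem _ _ hd₀)
    have h0 : (d - (d f) • d₀) f = 0 := by
      rw [Pi.sub_apply, Pi.smul_apply, smul_eq_mul, hd₀f, mul_one, sub_self]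
    refine h1 c₀ (van_anti hF1 hc₀) _ ?_ (one_dis hc₀ hd')
    exact spt_mono (Finset.erase_subset_erase f hF2) (one_spt hd' h0)
  rw [map_sub, map_smul, LinearMap.sub_apply, LinearMap.smul_apply, smul_eq_mul] at e1
  rw [map_sub, map_smul, smul_eq_mul] at e2
  linear_combination e1 + c a * e2

/-- the zero set of `c` is a good set -/
theorem gf_zero (S : TP K E) {p : Itv E} (hp : p.1 ⊆ p.2) {f a : E} (hf : f ∈ gs p)
    {c d : E → K} (hc : c ∈ van S.U p.1) (hd : d ∈ spt S.W p.2) (hcd : ∀ x, c x * d x = 0)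
    (hca : c a ≠ 0) (hdf : d f ≠ 0) :
    ∃ F, GF S.r p f a F ∧ c ∈ van S.U F ∧ d ∈ spt S.W F := by
  classical
  have hcF : c ∈ van S.U (p.2.filter fun x => c x = 0) :=
    ⟨hc.1, fun x hx => (Finset.mem_filter.1 hx).2⟩
  have hdF : d ∈ spt S.W (p.2.filter fun x => c x = 0) := by
    refine ⟨hd.1, fun x hx => ?_⟩
    by_contra hdx
    apply hx
    refine Finset.mem_filter.2 ⟨?_, ?_⟩
    · by_contra hxp
      exact hdx (hd.2 x hxp)
    · rcases mul_eq_zero.1 (hcd x) with h | h
      · exact h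
      · exact absurd h hdx
  have hfF : f ∈ p.2.filter fun x => c x = 0 := by
    refine Finset.mem_filter.2 ⟨(Finset.mem_sdiff.1 hf).1, ?_⟩
    rcases mul_eq_zero.1 (hcd f) with h | h
    · exact h
    · exact absurd h hdf
  refine ⟨p.2.filter fun x => c x = 0, ⟨fun x hx => Finset.mem_filter.2 ⟨hp hx, hc.2 x hx⟩,
    Finset.filter_subset _ _, hfF, ?_, ?_⟩, hcF, hdF⟩
  · by_contra hne
    have h3 := TP.r_mono S (Finset.erase_subset f (p.2.filter fun x => c x = 0))
    have h4 : S.r (p.2.filter fun x => c x = 0) ≤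
        S.r ((p.2.filter fun x => c x = 0).erase f) + 1 := by
      have h5 := TP.r_insert_le S f ((p.2.filter fun x => c x = 0).erase f)
      rwa [Finset.insert_erase hfF] at h5
    have h6 : S.r ((p.2.filter fun x => c x = 0).erase f) =
        S.r (p.2.filter fun x => c x = 0) - 1 := by omega
    exact hdf (TP.spt_eq_zero S hfF h6 d hdF)
  · by_contra hne
    have h3 := TP.r_mono S (Finset.subset_insert a (p.2.filter fun x => c x = 0))
    have h4 := TP.r_insert_le S a (p.2.filter fun x => c x = 0)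
    have h6 : S.r (insert a (p.2.filter fun x => c x = 0)) =
        S.r (p.2.filter fun x => c x = 0) := by omega
    exact hca (TP.van_eq_zero S h6 c hcF)

theorem one_glue (S : TP K E) {p : Itv E} (hp : p.1 ⊆ p.2) {f a : E} (hf : f ∈ gs p)
    {T : Fm K E} (h1 : InV S.U S.W (rm true f p) T) (h2 : InV S.U S.W (rm false a p) T)
    (hX : Cx S.r p f a) : ∃ k : K, InV S.U S.W p (T - k • crs a f) := by
  classical
  have hex : ∃ k : K, ∀ F, GF S.r p f a F → ∀ c ∈ van S.U F, ∀ d ∈ spt S.W F,
      T c d = k * (c a * d f) := by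
    by_cases hne : ∃ F, GF S.r p f a F
    · obtain ⟨F₀, hF₀⟩ := hne
      obtain ⟨k, hk⟩ := one_theta S h1 h2 hF₀
      refine ⟨k, fun F hF => ?_⟩
      have hpath := hX F₀ F hF₀ hF
      induction hpath with
      | refl => exact hk
      | @tail A B _ hAB ih =>
        obtain ⟨hA, hB, hsub⟩ := hAB
        have hA' := ih hA
        obtain ⟨k', hk'⟩ := one_theta S h1 h2 hB
        have hkk : k = k' := by
          rcases hsub with hs | hs
          · obtain ⟨c₀, hc₀, hc₀a⟩ := TP.van_one S hB.2.2.2.2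
            obtain ⟨d₀, hd₀, hd₀f⟩ := TP.spt_one S hA.2.2.1 hA.2.2.2.1
            have e1 := hA' c₀ (van_anti hs hc₀) d₀ hd₀
            have e2 := hk' c₀ hc₀ d₀ (spt_mono hs hd₀)
            rw [hc₀a, hd₀f, mul_one, mul_one] at e1 e2
            rw [← e1, e2]
          · obtain ⟨c₀, hc₀, hc₀a⟩ := TP.van_one S hA.2.2.2.2
            obtain ⟨d₀, hd₀, hd₀f⟩ := TP.spt_one S hB.2.2.1 hB.2.2.2.1
            have e1 := hA' c₀ hc₀ d₀ (spt_mono hs hd₀)
            have e2 := hk' c₀ (van_anti hs hc₀) d₀ hd₀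
            rw [hc₀a, hd₀f, mul_one, mul_one] at e1 e2
            rw [← e1, e2]
        rw [hkk]
        exact hk'
    · exact ⟨0, fun F hF => absurd ⟨F, hF⟩ hne⟩
  obtain ⟨k, hk⟩ := hex
  refine ⟨k, fun c hc d hd hcd => ?_⟩
  rw [LinearMap.sub_apply, LinearMap.sub_apply, LinearMap.smul_apply, LinearMap.smul_apply,
    smul_eq_mul, crs_apply]
  by_cases hca : c a = 0
  · rw [hca, zero_mul, mul_zero, sub_zero]
    exact h2 c (one_van hc hca) d hd hcd
  by_cases hdf : d f = 0
  · rw [hdf, mul_zero, mul_zero, sub_zero]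
    exact h1 c hc d (one_spt hd hdf) hcd
  obtain ⟨F, hGF, hcF, hdF⟩ := gf_zero S hp hf hc hd hcd hca hdf
  rw [hk F hGF c hcF d hdF, sub_self]

/-- one removal: a form of `V(M\f)` whose restriction to `M\f/a` comes from `V(M/a)` extends -/
theorem one_removal (S : TP K E) {p : Itv E} (hp : p.1 ⊆ p.2) {f a : E} (hf : f ∈ gs p)
    {T Ta : Fm K E} (h1 : InV S.U S.W (rm true f p) T) (h2 : InV S.U S.W (rm false a p) Ta)
    (h12 : EqD S.U S.W (rm true f (rm false a p)) T Ta) (hX : Cx S.r p f a) :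
    ∃ T' : Fm K E, InV S.U S.W p T' ∧ EqOn S.U S.W (rm true f p) T' T ∧
      EqD S.U S.W (rm false a p) T' Ta := by
  obtain ⟨l, hl⟩ := h12
  obtain ⟨R, hR1, hR2⟩ := glue_rm true false f a p T (Ta + dg l) hl
  have h3 : InV S.U S.W (rm true f p) R := h1.congr hR1
  have h4 : InV S.U S.W (rm false a p) R := (h2.add (dg_inV _ l)).congr hR2
  obtain ⟨k, hk⟩ := one_glue S hp hf h3 h4 hX
  refine ⟨R - k • crs a f, hk, ?_, l, ?_⟩
  · intro c hc d hd
    have h5 : crs a f c d = (0 : Fm K E) c d := crs_del S.U S.W p f a c hc d hd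
    rw [LinearMap.sub_apply, LinearMap.sub_apply, LinearMap.smul_apply, LinearMap.smul_apply, h5,
      hR1 c hc d hd]
    simp
  · intro c hc d hd
    have h5 : crs a f c d = (0 : Fm K E) c d := crs_con S.U S.W p f a c hc d hd
    rw [LinearMap.sub_apply, LinearMap.sub_apply, LinearMap.smul_apply, LinearMap.smul_apply, h5,
      hR2 c hc d hd]
    simp

/-- if there is no good set at all, then `c a * d f` is in `V(M)` -/
theorem one_empty (S : TP K E) {p : Itv E} (hp : p.1 ⊆ p.2) {f a : E} (hf : f ∈ gs p)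
    (hX : ∀ F, ¬ GF S.r p f a F) : InV S.U S.W p (crs a f : Fm K E) := by
  intro c hc d hd hcd
  by_contra hne
  have hca : c a ≠ 0 := by
    intro h
    apply hne
    rw [crs_apply, h, zero_mul]
  have hdf : d f ≠ 0 := by
    intro h
    apply hne
    rw [crs_apply, h, mul_zero]
  obtain ⟨F, hGF, _, _⟩ := gf_zero S hp hf hc hd hcd hca hdf
  exact hX F hGF

end

end Pool.Agent.QU
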