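import Pool.Agent.QUD.Four

/-!
# QUX/Pl: five points in general position and three further points on a line (2-uniform planes)

`plane`: `L` of rank three in the class, `a, b, c, d, e` no three collinear, `x, y, w` three further points on a line: this line contains two of the
five points.  (In `PG(2, 4)` the other lines through two of the points `x, y, w` contain the sixth point of the hyperoval, `QUD.ex_half`, or miss the
hyperoval, `QUD.ex_ext`.)
-/

set_option autoImplicit false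

noncomputable section

open scoped Classical

namespace Pool.Agent.QUX

open Pool.Agent.FRM Pool.Agent.QUS Pool.Agent.QUE Pool.Agent.QUY Pool.Agent.QUD
open Pool.Agent.QU (van)

variable {E : Type} [Fintype E] {L : Submodule F4 (E → F4)} {Φ : Submodule KU (E → KU)}

def okL (p q s : PT) : Bool :=
  (arA.contains p.1 || (arA.contains q.1 || arA.contains s.1)) || ((decide (p = q) || (decide (p = s) || decide (q = s))) ||
    (!(Z p.1 q.1 s.1) || ((!(Q2A p q) || (!(Q2A p s) || !(Q2A q s))) || (!(Q3A p q s) ||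
      (arA.any fun a => arA.any fun b => decide (a ≠ b) && (Z a b p.1 && (Z a b q.1 && Z a b s.1)))))))

theorem ckPL : (ptsA.all fun p => ptsA.all fun q => ptsA.all fun s => okL p q s) = true := by
  decide +kernel

private theorem arA_inj' : (arA.all fun P => arA.all fun Q => f4L.all fun m => f4L.all fun n => decide (P = Q) || (decide (m = 0) ||
    !(decide (sm m P = sm n Q)))) = true := by
  decide +kernel

private theorem ptsA_ne' : (ptsA.all fun p => decide (p.1 ≠ 0)) = true := by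
  decide +kernel

private theorem arA_crs' : (arA.all fun P => arA.all fun Q => decide (P = Q) || decide (crs P Q ≠ 0)) = true := by
  decide +kernel

private theorem mem_f4L' (x : F4) : x ∈ f4L := by
  cases x <;> decide

private theorem dt_crs' (a b x : V3) : dot (crs a b) x = dt a b x := by
  simp only [dt, dot, crs]
  ring

private theorem dt_crs_l' (a b : V3) : dot (crs a b) a = 0 := by
  have h : ∀ x : F4, x + x = 0 := by decide
  simp only [dot, crs]
  linear_combination (h (a.1 * (a.2.1 * b.2.2))) + (h (a.1 * (a.2.2 * b.2.1))) + (h (a.2.1 * (a.2.2 * b.1)))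

private theorem dt_crs_r' (a b : V3) : dot (crs a b) b = 0 := by
  have h : ∀ x : F4, x + x = 0 := by decide
  simp only [dot, crs]
  linear_combination (h (b.1 * (a.2.1 * b.2.2))) + (h (b.1 * (a.2.2 * b.2.1))) + (h (b.2.1 * (b.2.2 * a.1)))

private theorem dot_smr' (x v : V3) (a : F4) : dot x (sm a v) = a * dot x v := by
  simp only [dot, sm]
  ring

/-- the frame of five points in general position, with the elements -/
theorem frame5 {a b c d e : E} (h : Ac L a b c d e) :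
    ∃ F : Fr L, F.Full ∧ ∀ P ∈ arA, ∃ x ∈ ({a, b, c, d, e} : Finset E), At F x P := by
  obtain ⟨abc, abd, acd, bcd, abe, ace, bce, ade, bde, cde⟩ := h
  have ma : a ∈ ({a, b, c, d, e} : Finset E) := by simp
  have mb : b ∈ ({a, b, c, d, e} : Finset E) := by simp
  have mc : c ∈ ({a, b, c, d, e} : Finset E) := by simp
  have md : d ∈ ({a, b, c, d, e} : Finset E) := by simp
  have me : e ∈ ({a, b, c, d, e} : Finset E) := by simp
  obtain ⟨F0, hF0, ha, hb, hc⟩ := exists_full abc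
  have q1 := (Fr.b3_iff hF0).1 bcd
  have q2 := (Fr.b3_iff hF0).1 acd
  have q3 := (Fr.b3_iff hF0).1 abd
  obtain ⟨⟨p, q, r⟩, hd⟩ : ∃ v, F0.vv d = v := ⟨_, rfl⟩
  rw [hb, hc, hd] at q1
  rw [ha, hc, hd] at q2
  rw [ha, hb, hd] at q3
  have p0 : p ≠ 0 := by
    intro h
    apply q1
    simp [dt, dot, crs, h]
  have q0 : q ≠ 0 := by
    intro h
    apply q2
    simp [dt, dot, crs, h]
  have r0 : r ≠ 0 := by
    intro h
    apply q3
    simp [dt, dot, crs, h]
  obtain ⟨F1, hF1, hv1⟩ := Fr.scale hF0 (k := (p⁻¹, q⁻¹, r⁻¹)) (inv_ne_zero p0) (inv_ne_zero q0) (inv_ne_zero r0)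
  have ha1 : F1.vv a = (p⁻¹, 0, 0) := by
    rw [hv1, ha]
    simp
  have hb1 : F1.vv b = (0, q⁻¹, 0) := by
    rw [hv1, hb]
    simp
  have hc1 : F1.vv c = (0, 0, r⁻¹) := by
    rw [hv1, hc]
    simp
  have hd1 : F1.vv d = (1, 1, 1) := by
    rw [hv1, hd]
    simp [p0, q0, r0]
  obtain ⟨⟨s, t, u'⟩, he⟩ : ∃ v, F1.vv e = v := ⟨_, rfl⟩
  have s1 := (Fr.b3_iff hF1).1 bce
  have s2 := (Fr.b3_iff hF1).1 ace
  have s3 := (Fr.b3_iff hF1).1 abe
  have s4 := (Fr.b3_iff hF1).1 ade
  have s5 := (Fr.b3_iff hF1).1 bde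
  have s6 := (Fr.b3_iff hF1).1 cde
  rw [hb1, hc1, he] at s1
  rw [ha1, hc1, he] at s2
  rw [ha1, hb1, he] at s3
  rw [ha1, hd1, he] at s4
  rw [hb1, hd1, he] at s5
  rw [hc1, hd1, he] at s6
  have s0 : s ≠ 0 := by
    intro h
    apply s1
    simp [dt, dot, crs, h]
  have t0 : t ≠ 0 := by
    intro h
    apply s2
    simp [dt, dot, crs, h]
  have u0 : u' ≠ 0 := by
    intro h
    apply s3
    simp [dt, dot, crs, h]
  have e1 : t ≠ u' := by
    intro h
    apply s4
    simp [dt, dot, crs, h, F4.add_self]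
  have e2 : s ≠ u' := by
    intro h
    apply s5
    simp [dt, dot, crs, h, F4.add_self]
  have e3 : s ≠ t := by
    intro h
    apply s6
    simp [dt, dot, crs, h, F4.add_self]
  have key : ∀ s t u : F4, s ≠ 0 → t ≠ 0 → u ≠ 0 → t ≠ u → s ≠ u → s ≠ t → ((s, t, u) : V3) = sm s (F4.i, F4.w, F4.u) ∨
      ((s, u, t) : V3) = sm s (F4.i, F4.w, F4.u) := by
    decide
  rcases key s t u' s0 t0 u0 e1 e2 e3 with hk | hk
  · refine ⟨F1, hF1, ?_⟩
    simp only [arA, List.forall_mem_cons, List.not_mem_nil, false_imp_iff, implies_true, and_true]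
    refine ⟨⟨a, ma, p⁻¹, inv_ne_zero p0, ?_⟩, ⟨b, mb, q⁻¹, inv_ne_zero q0, ?_⟩, ⟨c, mc, r⁻¹, inv_ne_zero r0, ?_⟩,
      ⟨d, md, 1, one_ne_zero, ?_⟩, ⟨e, me, s, s0, ?_⟩⟩
    · rw [ha1]
      show _ = (p⁻¹ * 1, p⁻¹ * 0, p⁻¹ * 0)
      rw [mul_one, mul_zero]
    · rw [hb1]
      show _ = (q⁻¹ * 0, q⁻¹ * 1, q⁻¹ * 0)
      rw [mul_one, mul_zero]
    · rw [hc1]
      show _ = (r⁻¹ * 0, r⁻¹ * 0, r⁻¹ * 1)
      rw [mul_one, mul_zero]
    · rw [hd1]
      rfl
    · rw [he]
      exact hk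
  · have h0 : dt ((1, 0, 0) : V3) (0, 0, 1) (0, 1, 0) ≠ 0 := by decide
    obtain ⟨F2, hF2, hv2⟩ := Fr.change hF1 h0
    have d1 : ∀ v : V3, dot (1, 0, 0) v = v.1 := by decide
    have d2 : ∀ v : V3, dot (0, 1, 0) v = v.2.1 := by decide
    have d3 : ∀ v : V3, dot (0, 0, 1) v = v.2.2 := by decide
    refine ⟨F2, hF2, ?_⟩
    simp only [arA, List.forall_mem_cons, List.not_mem_nil, false_imp_iff, implies_true, and_true]
    refine ⟨⟨a, ma, p⁻¹, inv_ne_zero p0, ?_⟩, ⟨c, mc, r⁻¹, inv_ne_zero r0, ?_⟩, ⟨b, mb, q⁻¹, inv_ne_zero q0, ?_⟩,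
      ⟨d, md, 1, one_ne_zero, ?_⟩, ⟨e, me, s, s0, ?_⟩⟩
    · rw [hv2, ha1, d1, d2, d3]
      show _ = (p⁻¹ * 1, p⁻¹ * 0, p⁻¹ * 0)
      rw [mul_one, mul_zero]
    · rw [hv2, hc1, d1, d2, d3]
      show _ = (r⁻¹ * 0, r⁻¹ * 1, r⁻¹ * 0)
      rw [mul_one, mul_zero]
    · rw [hv2, hb1, d1, d2, d3]
      show _ = (q⁻¹ * 0, q⁻¹ * 0, q⁻¹ * 1)
      rw [mul_one, mul_zero]
    · rw [hv2, hd1, d1, d2, d3]
      rfl
    · rw [hv2, he, d1, d2, d3]
      exact hk

theorem no_patX' (hB : ∀ S, IsB Φ S ↔ IsB L S)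
    (hU : ∀ S, IsB Φ S → ∀ b ∈ S, ∀ e, e ∉ S → fv Φ S b e = 0 ∨ InG (fv Φ S b e)) {F : Fr L} (hF : F.Full)
    (har : ∀ P ∈ arA, ∃ x, At F x P) {x y z : E} {X Y W : V3} (hx : At F x X) (hy : At F y Y) (hz : At F z W)
    (h0 : dt X Y W = 0) (h : patX X Y W = true) : False := by
  simp only [patX, List.any_eq_true, Bool.and_eq_true, Bool.not_eq_true', Z_of, Z_of'] at h
  obtain ⟨a, ha, b, hb, z1, c, hc, z2, d, hd, ⟨z3, z4⟩, e, he, ⟨z5, z6, h5⟩, ⟨n1, n2, n3, n4⟩, n5, n6, n7⟩ := h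
  obtain ⟨a', ha'⟩ := har a ha
  obtain ⟨b', hb'⟩ := har b hb
  obtain ⟨c', hc'⟩ := har c hc
  obtain ⟨d', hd'⟩ := har d hd
  obtain ⟨e', he'⟩ := har e he
  obtain ⟨k1, k2, k3, k4, k5, k6, k7, k8, k9, k10⟩ := arc5_iff h5
  have no : ∀ {x y z : E} {P Q R : V3}, At F x P → At F y Q → At F z R → dt P Q R = 0 → ¬ B3 L x y z := by
    intro x y z P Q R hx hy hz h0 h
    exact (b3_at hF hx hy hz).1 h h0
  exact ex_ext hB hU ((b3_at hF ha' hb' hc').2 k1) ((b3_at hF ha' hb' hd').2 k2) ((b3_at hF ha' hc' hd').2 k3)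
    ((b3_at hF hb' hc' hd').2 k4) ((b3_at hF ha' hb' he').2 k5) ((b3_at hF ha' hc' he').2 k6)
    ((b3_at hF hb' hc' he').2 k7) ((b3_at hF ha' hd' he').2 k8) ((b3_at hF hb' hd' he').2 k9)
    ((b3_at hF hc' hd' he').2 k10) (no ha' hb' hx z1) (no hc' hd' hx z3) ((b3_at hF ha' hc' hx).2 n1)
    ((b3_at hF hb' hc' hx).2 n2) (no ha' hc' hy z2) (no hb' he' hy z5) ((b3_at hF ha' hb' hy).2 n3)
    ((b3_at hF hb' hc' hy).2 n4) (no ha' hd' hz z4) (no hc' he' hz z6) ((b3_at hF ha' hb' hz).2 n5)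
    ((b3_at hF ha' hc' hz).2 n6) ((b3_at hF hb' hc' hz).2 n7) (no hx hy hz h0)

/-- elements at the same point -/
theorem rk_at {F : Fr L} {i j : E} {P : V3} (hi : At F i P) (hj : At F j P) : rk L {i, j} ≤ 1 := by
  have e5 : rk L {i, j} = rk L {i} := by
    unfold rk
    have e6 : van L ({i, j} : Finset E) = van L {i} := by
      refine le_antisymm (fun v hv => ⟨hv.1, fun x hx => hv.2 x (by
        rw [Finset.mem_singleton.1 hx]
        exact Finset.mem_insert_self _ _)⟩) fun v hv => ⟨hv.1, fun x hx => ?_⟩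
      rcases Finset.mem_insert.1 hx with rfl | hx
      · exact hv.2 x (Finset.mem_singleton_self x)
      · rw [Finset.mem_singleton.1 hx]
        have e7 := hv.2 i (Finset.mem_singleton_self i)
        obtain ⟨m, hm, h⟩ := hi
        obtain ⟨n, hn, h'⟩ := hj
        rw [F.ev hv.1, h] at e7
        rw [F.ev hv.1, h']
        rw [dot_smr'] at e7 ⊢
        rw [(mul_eq_zero.1 e7).resolve_left hm, mul_zero]
    rw [e6]
  rw [e5]
  have e1 := (isRk L).unit ∅ i
  have e2 := (isRk L).empty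
  have e3 : insert i (∅ : Finset E) = {i} := rfl
  rw [e3] at e1
  omega

/-- loops -/
theorem rk_at0 {F : Fr L} {i j : E} (hj : F.vv j = 0) : rk L {i, j} ≤ 1 := by
  have e5 : rk L {i, j} = rk L {i} := by
    unfold rk
    have e6 : van L ({i, j} : Finset E) = van L {i} := by
      refine le_antisymm (fun v hv => ⟨hv.1, fun x hx => hv.2 x (by
        rw [Finset.mem_singleton.1 hx]
        exact Finset.mem_insert_self _ _)⟩) fun v hv => ⟨hv.1, fun x hx => ?_⟩
      rcases Finset.mem_insert.1 hx with rfl | hx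
      · exact hv.2 x (Finset.mem_singleton_self x)
      · rw [Finset.mem_singleton.1 hx, F.ev hv.1, hj]
        simp [dot]
    rw [e6]
  rw [e5]
  have e1 := (isRk L).unit ∅ i
  have e2 := (isRk L).empty
  have e3 : insert i (∅ : Finset E) = {i} := rfl
  rw [e3] at e1
  omega

theorem rk_lt_of_vec {A : Finset E} {v : E → F4} (hv : v ∈ L) (h0 : ∀ e ∈ A, v e = 0) (hne : v ≠ 0) : rk L A + 1 ≤ rk L Finset.univ := by
  have h1 : (⟨v, hv, h0⟩ : van L A) ≠ 0 := fun h => hne (congrArg Subtype.val h)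
  have h9 : 0 < Module.finrank F4 (van L A) := by
    rw [Module.finrank_pos_iff]
    exact ⟨⟨_, 0, h1⟩⟩
  have h10 := rk_univ L
  unfold rk at h10 ⊢
  omega

/-- a line with three points outside of five points in general position contains two of the five points -/
theorem plane (hB : ∀ S, IsB Φ S ↔ IsB L S)
    (hU : ∀ S, IsB Φ S → ∀ b ∈ S, ∀ e, e ∉ S → fv Φ S b e = 0 ∨ InG (fv Φ S b e)) {a b c d e x y w : E} (hA : Ac L a b c d e)
    (hn : ∀ v ∈ ({x, y, w} : Finset E), ∀ i ∈ ({a, b, c, d, e} : Finset E), rk L {i, v} = 2)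
    (xy : rk L {x, y} = 2) (xw : rk L {x, w} = 2) (yw : rk L {y, w} = 2) (h3 : rk L {x, y, w} ≤ 2) :
    ∃ i ∈ ({a, b, c, d, e} : Finset E), ∃ j ∈ ({a, b, c, d, e} : Finset E), i ≠ j ∧ rk L (insert i (insert j {x, y, w})) ≤ 2 := by
  obtain ⟨F, hF, har⟩ := frame5 hA
  have har' : ∀ P ∈ arA, ∃ x, At F x P := fun P hP => (har P hP).imp fun _ h => h.2
  have hpt : ∀ v ∈ ({x, y, w} : Finset E), ∃ p ∈ ptsA, At F v p.1 ∧ p.1 ∉ arA := by
    intro v hv
    have h := List.all_eq_true.1 normA (F.vv v) (mem_allV _)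
    simp only [Bool.or_eq_true, decide_eq_true_eq, List.any_eq_true, Bool.and_eq_true] at h
    rcases h with h | ⟨m, -, hm, h⟩ | ⟨p, hp, m, -, hm, h⟩
    · have h1 := hn v hv a (by simp)
      have h2 := rk_at0 (F := F) (i := a) h
      omega
    · exact (no_hA hB hU hF har' ⟨m, hm, h⟩).elim
    · refine ⟨p, hp, ⟨m, hm, h⟩, fun hpa => ?_⟩
      obtain ⟨i, hi, h1⟩ := har p.1 hpa
      have h2 := hn v hv i hi
      have h3 := rk_at h1 ⟨m, hm, h⟩
      omega
  obtain ⟨p, hp, hxp, hpa⟩ := hpt x (by simp)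
  obtain ⟨q, hq, hyq, hqa⟩ := hpt y (by simp)
  obtain ⟨s, hs, hws, hsa⟩ := hpt w (by simp)
  have hpq : p ≠ q := by
    rintro rfl
    have := rk_at hxp hyq
    omega
  have hps : p ≠ s := by
    rintro rfl
    have := rk_at hxp hws
    omega
  have hqs : q ≠ s := by
    rintro rfl
    have := rk_at hyq hws
    omega
  have hQ2 : ∀ {u v : PT} {i j : E}, u ∈ ptsA → v ∈ ptsA → u ≠ v → At F i u.1 → At F j v.1 → Q2A u v = true := by
    intro u v i j hu hv huv hi hj
    by_contra hno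
    rw [Bool.not_eq_true] at hno
    have h := List.all_eq_true.1 (List.all_eq_true.1 ckH u hu) v hv
    rw [hno, decide_eq_false huv, Bool.false_or, Bool.false_or] at h
    exact no_patH hB hU hF har' hi hj h
  have hnB : ¬ B3 L x y w := by
    rintro ⟨h1, h2, h4, h5⟩
    have h6 := (isB_iff.1 h5).1
    rw [Finset.card_eq_three.2 ⟨x, y, w, h1, h2, h4, rfl⟩] at h6
    push_cast at h6
    omega
  have hdt : dt p.1 q.1 s.1 = 0 := by
    by_contra h
    exact hnB ((b3_at hF hxp hyq hws).2 h)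
  have hrot : ∀ {P Q R : V3}, dt P Q R = 0 → dt P R Q = 0 ∧ dt Q P R = 0 ∧ dt Q R P = 0 ∧ dt R P Q = 0 ∧ dt R Q P = 0 := by
    have h2 : ∀ x : F4, -x = x := by decide
    have e1 : ∀ P Q R : V3, dt P R Q = dt P Q R := by
      intro P Q R
      simp only [dt, dot, crs]
      ring
    have e2 : ∀ P Q R : V3, dt Q R P = dt P Q R := by
      intro P Q R
      simp only [dt, dot, crs]
      ring
    intro P Q R h
    exact ⟨(e1 P Q R).trans h, (e1 Q R P).trans ((e2 P Q R).trans h), (e2 P Q R).trans h, (e2 Q R P).trans ((e2 P Q R).trans h),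
      (e1 R P Q).trans ((e2 Q R P).trans ((e2 P Q R).trans h))⟩
  have hQ3 : Q3A p q s = true := by
    by_contra hno
    rw [Bool.not_eq_true] at hno
    have h := List.all_eq_true.1 (List.all_eq_true.1 (List.all_eq_true.1 ckX p hp) q hq) s hs
    rw [hno, decide_eq_false hpq, decide_eq_false hps, decide_eq_false hqs, Bool.false_or, Bool.false_or, Bool.false_or, Bool.false_or] at h
    obtain ⟨r1, r2, r3, r4, r5⟩ := hrot hdt
    unfold patXX at h
    simp only [Bool.or_eq_true] at h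
    rcases h with h | h | h | h | h | h
    · exact no_patX' hB hU hF har' hxp hyq hws hdt h
    · exact no_patX' hB hU hF har' hxp hws hyq r1 h
    · exact no_patX' hB hU hF har' hyq hxp hws r2 h
    · exact no_patX' hB hU hF har' hyq hws hxp r3 h
    · exact no_patX' hB hU hF har' hws hxp hyq r4 h
    · exact no_patX' hB hU hF har' hws hyq hxp r5 h
  have hck := List.all_eq_true.1 (List.all_eq_true.1 (List.all_eq_true.1 ckPL p hp) q hq) s hs
  have c1 : arA.contains p.1 = false := by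
    rw [List.contains_eq_mem, decide_eq_false hpa]
  have c2 : arA.contains q.1 = false := by
    rw [List.contains_eq_mem, decide_eq_false hqa]
  have c3 : arA.contains s.1 = false := by
    rw [List.contains_eq_mem, decide_eq_false hsa]
  have c4 : Z p.1 q.1 s.1 = true := (Z_of' _ _ _).2 hdt
  unfold okL at hck
  rw [c1, c2, c3, c4, hQ3, hQ2 hp hq hpq hxp hyq, hQ2 hp hs hps hxp hws, hQ2 hq hs hqs hyq hws, decide_eq_false hpq,
    decide_eq_false hps, decide_eq_false hqs] at hck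
  simp only [Bool.or_self, Bool.not_true, Bool.false_or, List.any_eq_true, Bool.and_eq_true, decide_eq_true_eq, Z_of'] at hck
  obtain ⟨P, hP, Q, hQ, hPQ, z1, z2, z3⟩ := hck
  obtain ⟨i, hi, hiP⟩ := har P hP
  obtain ⟨j, hj, hjQ⟩ := har Q hQ
  have hcr : crs P Q ≠ 0 := by
    have h1 := List.all_eq_true.1 (List.all_eq_true.1 arA_crs' P hP) Q hQ
    rw [decide_eq_false hPQ, Bool.false_or, decide_eq_true_eq] at h1
    exact h1
  refine ⟨i, hi, j, hj, ?_, ?_⟩
  · rintro rfl
    obtain ⟨m, hm, h1⟩ := hiP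
    obtain ⟨n, hn', h2⟩ := hjQ
    have h4 := List.all_eq_true.1 (List.all_eq_true.1 (List.all_eq_true.1 (List.all_eq_true.1 arA_inj' P hP) Q hQ) m (mem_f4L' m)) n
      (mem_f4L' n)
    rw [h2] at h1
    rw [decide_eq_false hPQ, decide_eq_false hm, decide_eq_true h1.symm] at h4
    exact Bool.noConfusion h4
  · have hdot : ∀ {v : E} {R : V3}, At F v R → dot (crs P Q) R = 0 → F.cx (crs P Q) v = 0 := by
      rintro v R ⟨m, hm, h⟩ h0
      show dot (crs P Q) (F.vv v) = 0
      rw [h, dot_smr', h0, mul_zero]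
    have hv0 : F.cx (crs P Q) ≠ 0 := fun h => hcr (Fr.eq_zero hF h)
    have h5 := rk_lt_of_vec (A := insert i (insert j {x, y, w})) (F.cx_mem (crs P Q)) (fun v hv => by
      rcases Finset.mem_insert.1 hv with rfl | hv
      · exact hdot hiP (dt_crs_l' P Q)
      rcases Finset.mem_insert.1 hv with rfl | hv
      · exact hdot hjQ (dt_crs_r' P Q)
      rcases Finset.mem_insert.1 hv with rfl | hv
      · exact hdot hxp (by rw [dt_crs']; exact z1)
      rcases Finset.mem_insert.1 hv with rfl | hv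
      · exact hdot hyq (by rw [dt_crs']; exact z2)
      · rw [Finset.mem_singleton.1 hv]
        exact hdot hws (by rw [dt_crs']; exact z3)) hv0
    have h6 : rk L Finset.univ = 3 := by
      obtain ⟨h1, h2, h4, h5⟩ := hA.1
      have h6 := (isB_iff.1 h5).2
      rw [Finset.card_eq_three.2 ⟨a, b, c, h1, h2, h4, rfl⟩] at h6
      exact_mod_cast h6
    omega

end Pool.Agent.QUX
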