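import Pool.Agent.QUT.Csm
import Pool.Agent.QUL.LTransV
import Pool.Agent.QUB.Bix
import Pool.Agent.QUT.Conn
import Pool.Agent.QUT.Nlt

/-!
# QUX/Px: in a 3-connected rich box some element can be removed such that the rest is rich and all its separations of order one are small

`Sm r m`: every set of order at most one has at most two elements or misses at most two elements.
`sm_bix`: Bixby's lemma.  `keep`: a rich minor of `m` survives the removal of an element of the other side.  `px`: the good element.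
-/

set_option autoImplicit false

open QUB

namespace Pool.Agent.QU

open Pool.Agent.FRM

/-- every set of order at most one has at most two elements or misses at most two elements -/
def Sm {E : Type} [DecidableEq E] (r : Finset E → ℤ) (m : Itv E) : Prop :=
  ∀ A ⊆ gs m, QUB.lam r m A ≤ 1 → A.card ≤ 2 ∨ (gs m \ A).card ≤ 2

section

variable {E : Type} [DecidableEq E] {r : Finset E → ℤ} {q : Itv E}

/-- Bixby uncrossing -/
theorem bix_no (hr : Rk r) (hq : q.1 ⊆ q.2) (h3 : Th3 r q) {x : E} (hx : x ∈ gs q) {A A' : Finset E}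
    (hA : A ⊆ (gs q).erase x) (hA3 : 3 ≤ A.card) (hB3 : 3 ≤ ((gs q).erase x \ A).card) (hl : QUB.lam r (QUB.rm true x q) A ≤ 1)
    (hA' : A' ⊆ (gs q).erase x) (c1 : 3 ≤ A'.card) (c2 : 3 ≤ ((gs q).erase x \ A').card) (hl' : QUB.lam r (QUB.rm false x q) A' ≤ 1) :
    False := by
  have hpf : (QUB.rm false x q).1 ⊆ (QUB.rm false x q).2 := QUB.wf_rm hq hx
  have hAG : A ⊆ gs q := hA.trans (Finset.erase_subset _ _)
  have hAG' : A' ⊆ gs q := hA'.trans (Finset.erase_subset _ _)
  have u1 := unc hr hq hx hA hA'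
  have u2 := unc hr hq hx hA (A' := (gs q).erase x \ A') Finset.sdiff_subset
  rw [Finset.sdiff_sdiff_eq_self hA'] at u2
  have hl2 : QUB.lam r (QUB.rm false x q) ((gs q).erase x \ A') ≤ 1 := by
    have e1 := lam_compl r (p := QUB.rm false x q) hpf (A := A') (by rw [QUB.gs_rm]; exact hA')
    rw [QUB.gs_rm] at e1
    rw [e1]
    exact hl'
  have key : ∀ U V : Finset E, U ⊆ gs q → V ⊆ gs q → Disjoint U V → QUB.lam r q U + QUB.lam r q V ≤ 3 → U.card ≤ 1 ∨ V.card ≤ 1 := by
    intro U V hU hV hd h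
    by_contra hcon
    push Not at hcon
    have a1 := h3 U hU (by omega) ((by omega : 2 ≤ V.card).trans (Finset.card_le_card fun y hy =>
      Finset.mem_sdiff.2 ⟨hV hy, fun h' => Finset.disjoint_left.1 hd h' hy⟩))
    have a2 := h3 V hV (by omega) ((by omega : 2 ≤ U.card).trans (Finset.card_le_card fun y hy =>
      Finset.mem_sdiff.2 ⟨hU hy, fun h' => Finset.disjoint_left.1 hd hy h'⟩))
    have a3 : lam r q U = QUB.lam r q U := rfl
    have a4 : lam r q V = QUB.lam r q V := rfl
    omega
  have s1 := key (A ∩ A') (((gs q).erase x \ A) ∩ ((gs q).erase x \ A')) (Finset.inter_subset_left.trans hAG)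
    (Finset.inter_subset_left.trans (Finset.sdiff_subset.trans (Finset.erase_subset _ _)))
    (Finset.disjoint_left.2 fun y h h' => (Finset.mem_sdiff.1 (Finset.mem_inter.1 h').1).2 (Finset.mem_inter.1 h).1) (by linarith)
  have s2 := key (A ∩ ((gs q).erase x \ A')) (((gs q).erase x \ A) ∩ A') (Finset.inter_subset_left.trans hAG)
    (Finset.inter_subset_left.trans (Finset.sdiff_subset.trans (Finset.erase_subset _ _)))
    (Finset.disjoint_left.2 fun y h h' => (Finset.mem_sdiff.1 (Finset.mem_inter.1 h').1).2 (Finset.mem_inter.1 h).1) (by linarith)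
  have d1 : A.card ≤ (A ∩ A').card + (A ∩ ((gs q).erase x \ A')).card := by
    refine (Finset.card_le_card fun y hy => ?_).trans (Finset.card_union_le _ _)
    by_cases h : y ∈ A'
    · exact Finset.mem_union_left _ (Finset.mem_inter.2 ⟨hy, h⟩)
    · exact Finset.mem_union_right _ (Finset.mem_inter.2 ⟨hy, Finset.mem_sdiff.2 ⟨hA hy, h⟩⟩)
  have d2 : ((gs q).erase x \ A).card ≤ (((gs q).erase x \ A) ∩ A').card + (((gs q).erase x \ A) ∩ ((gs q).erase x \ A')).card := by
    refine (Finset.card_le_card fun y hy => ?_).trans (Finset.card_union_le _ _)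
    by_cases h : y ∈ A'
    · exact Finset.mem_union_left _ (Finset.mem_inter.2 ⟨hy, h⟩)
    · exact Finset.mem_union_right _ (Finset.mem_inter.2 ⟨hy, Finset.mem_sdiff.2 ⟨(Finset.mem_sdiff.1 hy).1, h⟩⟩)
  have d3 : A'.card ≤ (A ∩ A').card + (((gs q).erase x \ A) ∩ A').card := by
    refine (Finset.card_le_card fun y hy => ?_).trans (Finset.card_union_le _ _)
    by_cases h : y ∈ A
    · exact Finset.mem_union_left _ (Finset.mem_inter.2 ⟨h, hy⟩)
    · exact Finset.mem_union_right _ (Finset.mem_inter.2 ⟨Finset.mem_sdiff.2 ⟨hA' hy, h⟩, hy⟩)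
  have d4 : ((gs q).erase x \ A').card ≤ (A ∩ ((gs q).erase x \ A')).card + (((gs q).erase x \ A) ∩ ((gs q).erase x \ A')).card := by
    refine (Finset.card_le_card fun y hy => ?_).trans (Finset.card_union_le _ _)
    by_cases h : y ∈ A
    · exact Finset.mem_union_left _ (Finset.mem_inter.2 ⟨h, hy⟩)
    · exact Finset.mem_union_right _ (Finset.mem_inter.2 ⟨Finset.mem_sdiff.2 ⟨(Finset.mem_sdiff.1 hy).1, h⟩, hy⟩)
  omega

/-- Bixby's lemma -/
theorem sm_bix (hr : Rk r) (hq : q.1 ⊆ q.2) (h3 : Th3 r q) {x : E} (hx : x ∈ gs q) : Sm r (rm true x q) ∨ Sm r (rm false x q) := by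
  by_contra hcon
  push Not at hcon
  obtain ⟨g1, g2⟩ := hcon
  unfold Sm at g1 g2
  push Not at g1 g2
  obtain ⟨A, hA, hl, a1, a2⟩ := g1
  obtain ⟨A', hA', hl', b1, b2⟩ := g2
  rw [gs_rm] at hA hA' a2 b2
  exact bix_no hr hq h3 hx hA a1 a2 hl hA' b1 b2 hl'

end

section

variable {E : Type} [Fintype E] [DecidableEq E]

omit [Fintype E] in
/-- a half of `rm s x m` is a half of `m` -/
theorem half_up {r : Finset E → ℤ} {m : Itv E} {Z X : Finset E} {b x : E} {s : Bool} (hx : x ∈ gs m)
    (hl : QUB.lam r m Z = QUB.lam r (rm s x m) Z) (hX : Half r (rm s x m) Z X b) (hxZ : x ∉ Z) :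
    Half r m Z X b ∧ Sub (hb m Z X b) (rm s x m) ∨ ¬ (Z ⊆ gs m) := by
  by_cases hZ : Z ⊆ gs m
  · left
    have hxm := Finset.mem_sdiff.1 hx
    cases s
    · obtain ⟨h1, h2, h3, h4, h5, h6⟩ := hX
      have e0 : (rm false x m).1 = insert x m.1 := rfl
      have e00 : (rm false x m).2 = m.2 := rfl
      rw [e0] at h1 h5 h6
      rw [e00] at h2 h3
      have hxX : x ∈ X := h1 (Finset.mem_insert_self _ _)
      have e1 : insert x m.1 ∪ Z ∪ X = m.1 ∪ Z ∪ X := by
        ext y
        simp only [Finset.mem_union, Finset.mem_insert]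
        constructor
        · rintro ((( rfl | h) | h) | h)
          · exact Or.inr hxX
          · exact Or.inl (Or.inl h)
          · exact Or.inl (Or.inr h)
          · exact Or.inr h
        · rintro ((h | h) | h)
          · exact Or.inl (Or.inl (Or.inr h))
          · exact Or.inl (Or.inr h)
          · exact Or.inr h
      rw [e1] at h5 h6
      have hl' : r (m.1 ∪ Z) + r (m.2 \ Z) - r m.2 - r m.1 = r (insert x m.1 ∪ Z) + r (m.2 \ Z) - r m.2 - r (insert x m.1) := hl
      refine ⟨⟨(Finset.subset_insert _ _).trans h1, h2, h3, h4, by linarith, by linarith⟩, ⟨h1, ?_⟩⟩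
      show insert b (m.1 ∪ Z ∪ X) ⊆ m.2
      refine Finset.insert_subset (Finset.mem_sdiff.1 h3).1 (Finset.union_subset (Finset.union_subset ?_ ?_) ?_)
      · exact ((Finset.subset_insert _ _).trans h1).trans (h2.trans Finset.sdiff_subset)
      · exact fun y hy => (Finset.mem_sdiff.1 (hZ hy)).1
      · exact h2.trans Finset.sdiff_subset
    · obtain ⟨h1, h2, h3, h4, h5, h6⟩ := hX
      have e0 : (rm true x m).1 = m.1 := rfl
      have e00 : (rm true x m).2 = m.2.erase x := rfl
      rw [e0] at h1 h5 h6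
      rw [e00] at h2 h3
      refine ⟨⟨h1, h2.trans (Finset.sdiff_subset_sdiff (Finset.erase_subset _ _) (Finset.Subset.refl _)), ?_, h4, h5, h6⟩, ⟨h1, ?_⟩⟩
      · have h7 := Finset.mem_sdiff.1 h3
        exact Finset.mem_sdiff.2 ⟨(Finset.mem_erase.1 h7.1).2, h7.2⟩
      · show insert b (m.1 ∪ Z ∪ X) ⊆ m.2.erase x
        have h8 : X ⊆ m.2.erase x := h2.trans Finset.sdiff_subset
        refine Finset.insert_subset (Finset.mem_sdiff.1 h3).1 (Finset.union_subset (Finset.union_subset (h1.trans h8) ?_) h8)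
        exact fun y hy => Finset.mem_erase.2 ⟨fun h => hxZ (h ▸ hy), (Finset.mem_sdiff.1 (hZ hy)).1⟩
  · exact Or.inr hZ

/-- a rich minor of `m` survives the removal of an element of the other side -/
theorem keep (S : TP F4 E) {m : Itv E} (hm : m.1 ⊆ m.2) {Z : Finset E} (hZ : Z ⊆ gs m) {x : E} (hx : x ∈ gs m) (hxZ : x ∉ Z) {s : Bool}
    (hl : QUB.lam S.r m Z = 1) (hl2 : QUB.lam S.r (rm s x m) Z = 1) {N : Itv E} (hN : Sub N m) (hR : Rich S.r N)
    (h1 : ((gs m \ Z) ∩ gs N).card ≤ 1) : HasRich S.r (rm s x m) := by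
  have hZ2 : Z ⊆ gs (rm s x m) := by
    rw [gs_rm]
    exact fun y hy => Finset.mem_erase.2 ⟨fun h => hxZ (h ▸ hy), hZ hy⟩
  obtain ⟨X, b, hX⟩ := half_exists S.rk (QUB.wf_rm hm hx) hZ2 hl2
  rcases half_up hx (hl.trans hl2.symm) hX hxZ with ⟨h2, h3⟩ | h2
  · obtain ⟨q', k1, k2, -⟩ := transport S hm hZ hl h2 hN hR h1 (T := 0) (fun c _ d _ _ => rfl)
      ⟨0, fun c _ d _ => by simp [dg_apply]⟩
    exact ⟨q', h3.trans k1, k2⟩
  · exact absurd hZ h2

omit [Fintype E] in
/-- two elements of a 3-connected box -/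
theorem px_pair {r : Finset E → ℤ} (hr : Rk r) {q : Itv E} (h3 : Th3 r q) (hn : 4 ≤ (gs q).card) {P : Finset E} (hP : P ⊆ gs q)
    (hc : P.card = 2) : r (q.1 ∪ P) = r q.1 + 2 ∧ r (q.2 \ P) = r q.2 := by
  have h1 : 2 ≤ r (q.1 ∪ P) + r (q.2 \ P) - r q.2 - r q.1 := by
    refine h3 P hP hc.ge ?_
    rw [Finset.card_sdiff_of_subset hP]
    omega
  have h2 := rk_union_card hr q.1 P
  have h4 : (P \ q.1).card ≤ 2 := (Finset.card_le_card Finset.sdiff_subset).trans hc.le
  have h5 := hr.mono _ _ (Finset.sdiff_subset (s := q.2) (t := P))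
  constructor <;> omega

omit [Fintype E] in
/-- a series class (parallel class) of three elements -/
theorem px_three {r : Finset E → ℤ} (hr : Rk r) {q : Itv E} (hq : q.1 ⊆ q.2) (h3 : Th3 r q) (h7 : 7 ≤ (gs q).card) {f : E} {t : Bool}
    (hf : f ∈ gs q) (hcn : Cn r (rm t f q)) {W : Finset E} (hW : W ⊆ gs (rm t f q)) (hc : W.card = 3) {x y : E} (hx : x ∈ W) (hy : y ∈ W)
    (hxy : x ≠ y) (l1 : QUB.lam r (rm t f q) (W.erase x) ≤ 1) (l2 : QUB.lam r (rm t f q) (W.erase y) ≤ 1) :
    (∃ A ⊆ gs (rm t x q), QUB.lam r (rm t x q) A ≤ 1 ∧ 3 ≤ A.card ∧ 3 ≤ (gs (rm t x q) \ A).card) ∧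
      1 ≤ QUB.lam r (rm (!t) x (rm t f q)) (gs (rm t f q) \ W) := by
  have gm : gs (rm t f q) = (gs q).erase f := gs_rm t f q
  have hWq : W ⊆ gs q := by
    rw [gm] at hW
    exact hW.trans (Finset.erase_subset _ _)
  have hfW : f ∉ W := by
    rw [gm] at hW
    exact fun h => (Finset.mem_erase.1 (hW h)).1 rfl
  have hxf : x ≠ f := fun h => hfW (h ▸ hx)
  have cx : (W.erase x).card = 2 := by rw [Finset.card_erase_of_mem hx, hc]
  have cy : (W.erase y).card = 2 := by rw [Finset.card_erase_of_mem hy, hc]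
  obtain ⟨w, hw⟩ : ∃ w, (W.erase x).erase y = {w} := by
    refine Finset.card_eq_one.1 ?_
    rw [Finset.card_erase_of_mem (Finset.mem_erase.2 ⟨hxy.symm, hy⟩), cx]
  have hwm : w ∈ (W.erase x).erase y := hw ▸ Finset.mem_singleton_self w
  have hww := Finset.mem_erase.1 hwm
  have hww2 := Finset.mem_erase.1 hww.2
  have hWw : ∀ v ∈ W, v = x ∨ v = y ∨ v = w := by
    intro v hv
    by_cases a : v = x
    · exact Or.inl a
    by_cases b : v = y
    · exact Or.inr (Or.inl b)
    · have : v ∈ (W.erase x).erase y := Finset.mem_erase.2 ⟨b, Finset.mem_erase.2 ⟨a, hv⟩⟩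
      rw [hw] at this
      exact Or.inr (Or.inr (Finset.mem_singleton.1 this))
  have hwf : w ≠ f := fun h => hfW (h ▸ hww2.2)
  have px := px_pair hr h3 (by omega) ((Finset.erase_subset x W).trans hWq) cx
  have py := px_pair hr h3 (by omega) ((Finset.erase_subset y W).trans hWq) cy
  have pf := px_pair hr h3 (by omega) (P := {f, w}) (by
    intro v hv
    rcases Finset.mem_insert.1 hv with rfl | hv
    · exact hf
    · rw [Finset.mem_singleton.1 hv]
      exact hWq hww2.2) (Finset.card_pair hwf.symm)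
  have pxf := px_pair hr h3 (by omega) (P := {x, f}) (by
    intro v hv
    rcases Finset.mem_insert.1 hv with rfl | hv
    · exact hWq hx
    · rw [Finset.mem_singleton.1 hv]
      exact hf) (Finset.card_pair hxf)
  have ux := hr.unit q.1 x
  have uf := hr.unit q.1 f
  have ix : r (insert x q.1) = r q.1 + 1 := by
    have h1 := hr.unit (insert x q.1) f
    have e : q.1 ∪ {x, f} = insert f (insert x q.1) := by
      ext v
      simp only [Finset.mem_union, Finset.mem_insert, Finset.mem_singleton]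
      tauto
    have h2 := pxf.1
    rw [e] at h2
    omega
  have iff : r (insert f q.1) = r q.1 + 1 := by
    have h1 := hr.unit (insert f q.1) x
    have e : q.1 ∪ {x, f} = insert x (insert f q.1) := by
      ext v
      simp only [Finset.mem_union, Finset.mem_insert, Finset.mem_singleton]
      tauto
    have h2 := pxf.1
    rw [e] at h2
    omega
  have dx : r (q.2.erase x) = r q.2 := by
    have h1 := hr.mono _ _ (Finset.erase_subset x q.2)
    have h2 : r (q.2 \ {x, f}) ≤ r (q.2.erase x) := hr.mono _ _ fun v hv => by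
      have := Finset.mem_sdiff.1 hv
      refine Finset.mem_erase.2 ⟨fun h => this.2 (by rw [h]; exact Finset.mem_insert_self _ _), this.1⟩
    have h3 := pxf.2
    omega
  have df : r (q.2.erase f) = r q.2 := by
    have h1 := hr.mono _ _ (Finset.erase_subset f q.2)
    have h2 : r (q.2 \ {x, f}) ≤ r (q.2.erase f) := hr.mono _ _ fun v hv => by
      have := Finset.mem_sdiff.1 hv
      refine Finset.mem_erase.2 ⟨fun h => this.2 (by rw [h]; simp), this.1⟩
    have h3 := pxf.2
    omega
  have cF : (insert f W).card = 4 := by rw [Finset.card_insert_of_notMem hfW, hc]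
  have hFq : insert f W ⊆ gs q := Finset.insert_subset hf hWq
  have lF : 2 ≤ r (q.1 ∪ insert f W) + r (q.2 \ insert f W) - r q.2 - r q.1 := by
    refine h3 _ hFq (by omega) ?_
    rw [Finset.card_sdiff_of_subset hFq]
    omega
  have hsub : insert f (W.erase x) ⊆ (gs q).erase x := by
    refine Finset.insert_subset (Finset.mem_erase.2 ⟨hxf.symm, hf⟩) ?_
    exact Finset.erase_subset_erase _ hWq
  have c3 : (insert f (W.erase x)).card = 3 := by
    rw [Finset.card_insert_of_notMem (fun h => hfW (Finset.mem_erase.1 h).2), cx]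
  have hlamc : 1 ≤ QUB.lam r (rm t f q) (W.erase x) := by
    refine hcn _ ((Finset.erase_subset _ _).trans hW) (Finset.card_pos.1 (by omega)) ⟨x, Finset.mem_sdiff.2 ⟨hW hx, ?_⟩⟩
    exact fun h => (Finset.mem_erase.1 h).1 rfl
  have gmx : gs (rm (!t) x (rm t f q)) = ((gs q).erase f).erase x := by rw [gs_rm, gs_rm]
  have hwf2 : (rm (!t) x (rm t f q)).1 ⊆ (rm (!t) x (rm t f q)).2 := by
    refine QUB.wf_rm (QUB.wf_rm hq hf) ?_
    rw [show QUB.gs (QUB.rm t f q) = (QUB.gs q).erase f from QUB.gs_rm t f q]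
    exact Finset.mem_erase.2 ⟨hxf, hWq hx⟩
  have hcompl : QUB.lam r (rm (!t) x (rm t f q)) (gs (rm t f q) \ W) = QUB.lam r (rm (!t) x (rm t f q)) (W.erase x) := by
    have h1 := lam_compl r hwf2 (A := W.erase x) (by
      rw [show QUB.gs (rm (!t) x (rm t f q)) = ((gs q).erase f).erase x from gmx, ← gm]
      exact Finset.erase_subset_erase _ hW)
    rw [← h1]
    congr 1
    rw [show QUB.gs (rm (!t) x (rm t f q)) = ((gs q).erase f).erase x from gmx, ← gm]
    ext v
    simp only [Finset.mem_sdiff, Finset.mem_erase]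
    constructor
    · rintro ⟨h2, h4⟩
      exact ⟨⟨fun h => h4 (h ▸ hx), h2⟩, fun h => h4 h.2⟩
    · rintro ⟨⟨h2, h4⟩, h5⟩
      exact ⟨h4, fun h => h5 ⟨h2, h⟩⟩
  refine ⟨⟨insert f (W.erase x), by rw [gs_rm]; exact hsub, ?_, c3.ge, ?_⟩, ?_⟩
  · cases t
    · -- contraction
      have m1 : r (insert f q.1 ∪ W.erase x) + r (q.2 \ W.erase x) - r q.2 - r (insert f q.1) ≤ 1 := l1
      have m2 : r (insert f q.1 ∪ W.erase y) + r (q.2 \ W.erase y) - r q.2 - r (insert f q.1) ≤ 1 := l2
      have hs := hr.sub (insert f q.1 ∪ W.erase x) (insert f q.1 ∪ W.erase y)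
      have e1 : q.1 ∪ insert f W ⊆ insert f q.1 ∪ W.erase x ∪ (insert f q.1 ∪ W.erase y) := by
        intro v hv
        simp only [Finset.mem_union, Finset.mem_insert, Finset.mem_erase] at hv ⊢
        by_cases h : v = x
        · rcases hv with h1 | h1 | h1
          · tauto
          · tauto
          · right; right
            exact ⟨fun h' => hxy (h.symm.trans h'), h1⟩
        · tauto
      have e2 : q.1 ∪ {f, w} ⊆ (insert f q.1 ∪ W.erase x) ∩ (insert f q.1 ∪ W.erase y) := by
        intro v hv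
        simp only [Finset.mem_union, Finset.mem_insert, Finset.mem_singleton, Finset.mem_inter, Finset.mem_erase] at hv ⊢
        rcases hv with h1 | h1 | h1
        · tauto
        · tauto
        · rw [h1]
          exact ⟨Or.inr ⟨hww2.1, hww2.2⟩, Or.inr ⟨hww.1, hww2.2⟩⟩
      have e3 := hr.mono _ _ e1
      have e4 := hr.mono _ _ e2
      have e5 : insert x q.1 ∪ insert f (W.erase x) = q.1 ∪ insert f W := by
        ext v
        simp only [Finset.mem_union, Finset.mem_insert, Finset.mem_erase]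
        by_cases h : v = x
        · rw [h]
          tauto
        · tauto
      have e6 : r (q.2 \ insert f (W.erase x)) ≤ r q.2 := hr.mono _ _ Finset.sdiff_subset
      show r (insert x q.1 ∪ insert f (W.erase x)) + r (q.2 \ insert f (W.erase x)) - r q.2 - r (insert x q.1) ≤ 1
      rw [e5]
      linarith [px.2, py.2, pf.1]
    · have m1 : r (q.1 ∪ W.erase x) + r (q.2.erase f \ W.erase x) - r (q.2.erase f) - r q.1 ≤ 1 := l1
      have m2 : r (q.1 ∪ W.erase y) + r (q.2.erase f \ W.erase y) - r (q.2.erase f) - r q.1 ≤ 1 := l2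
      have hs := hr.sub (q.2.erase f \ W.erase x) (q.2.erase f \ W.erase y)
      have e1 : q.2 \ {f, w} ⊆ q.2.erase f \ W.erase x ∪ (q.2.erase f \ W.erase y) := by
        intro v hv
        simp only [Finset.mem_union, Finset.mem_insert, Finset.mem_singleton, Finset.mem_sdiff, Finset.mem_erase] at hv ⊢
        obtain ⟨h1, h2⟩ := hv
        push Not at h2
        by_cases h : v = x
        · left
          exact ⟨⟨h2.1, h1⟩, fun h' => h'.1 h⟩
        · by_cases h' : v = y
          · right
            exact ⟨⟨h2.1, h1⟩, fun h'' => h''.1 h'⟩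
          · left
            refine ⟨⟨h2.1, h1⟩, fun h'' => ?_⟩
            rcases hWw v h''.2 with h3 | h3 | h3
            · exact h h3
            · exact h' h3
            · exact h2.2 h3
      have e2 : q.2 \ insert f W ⊆ (q.2.erase f \ W.erase x) ∩ (q.2.erase f \ W.erase y) := by
        intro v hv
        simp only [Finset.mem_inter, Finset.mem_insert, Finset.mem_sdiff, Finset.mem_erase] at hv ⊢
        tauto
      have e3 := hr.mono _ _ e1
      have e4 := hr.mono _ _ e2
      have e5 : q.2.erase x \ insert f (W.erase x) = q.2 \ insert f W := by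
        ext v
        simp only [Finset.mem_insert, Finset.mem_sdiff, Finset.mem_erase]
        by_cases h : v = x
        · rw [h]
          tauto
        · tauto
      have e6 := rk_union_card hr q.1 (insert f (W.erase x))
      have e7 : (insert f (W.erase x) \ q.1).card ≤ 3 := (Finset.card_le_card Finset.sdiff_subset).trans c3.le
      show r (q.1 ∪ insert f (W.erase x)) + r (q.2.erase x \ insert f (W.erase x)) - r (q.2.erase x) - r q.1 ≤ 1
      rw [e5]
      have h1 := px.1
      have h2 := py.1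
      have h4 := pf.2
      omega
  · rw [gs_rm, Finset.card_sdiff_of_subset hsub, c3, Finset.card_erase_of_mem (hWq hx)]
    omega
  · rw [hcompl]
    cases t
    · -- contraction
      have m1 : r (insert f q.1 ∪ W.erase x) + r (q.2 \ W.erase x) - r q.2 - r (insert f q.1) ≤ 1 := l1
      have m2 : r (insert f q.1 ∪ W.erase y) + r (q.2 \ W.erase y) - r q.2 - r (insert f q.1) ≤ 1 := l2
      have hs := hr.sub (insert f q.1 ∪ W.erase x) (insert f q.1 ∪ W.erase y)
      have e1 : q.1 ∪ insert f W ⊆ insert f q.1 ∪ W.erase x ∪ (insert f q.1 ∪ W.erase y) := by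
        intro v hv
        simp only [Finset.mem_union, Finset.mem_insert, Finset.mem_erase] at hv ⊢
        by_cases h : v = x
        · rcases hv with h1 | h1 | h1
          · tauto
          · tauto
          · right; right
            exact ⟨fun h' => hxy (h.symm.trans h'), h1⟩
        · tauto
      have e2 : q.1 ∪ {f, w} ⊆ (insert f q.1 ∪ W.erase x) ∩ (insert f q.1 ∪ W.erase y) := by
        intro v hv
        simp only [Finset.mem_union, Finset.mem_insert, Finset.mem_singleton, Finset.mem_inter, Finset.mem_erase] at hv ⊢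
        rcases hv with h1 | h1 | h1
        · tauto
        · tauto
        · rw [h1]
          exact ⟨Or.inr ⟨hww2.1, hww2.2⟩, Or.inr ⟨hww.1, hww2.2⟩⟩
      have e3 := hr.mono _ _ e1
      have e4 := hr.mono _ _ e2
      have e5 : q.1 ∪ W.erase x ⊆ insert f q.1 ∪ W.erase x := Finset.union_subset_union_left (Finset.subset_insert _ _)
      have e6 := hr.mono _ _ e5
      have e7 : q.2 \ insert f W ⊆ q.2.erase x \ W.erase x := by
        intro v hv
        simp only [Finset.mem_insert, Finset.mem_sdiff, Finset.mem_erase] at hv ⊢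
        obtain ⟨h1, h2⟩ := hv
        push Not at h2
        exact ⟨⟨fun h => h2.2 (h ▸ hx), h1⟩, fun h => h2.2 h.2⟩
      have e8 := hr.mono _ _ e7
      show 1 ≤ r (insert f q.1 ∪ W.erase x) + r (q.2.erase x \ W.erase x) - r (q.2.erase x) - r (insert f q.1)
      linarith [px.2, py.2, pf.1, px.1]
    · have m0 : 1 ≤ r (q.1 ∪ W.erase x) + r (q.2.erase f \ W.erase x) - r (q.2.erase f) - r q.1 := hlamc
      have m1 : r (q.1 ∪ W.erase x) + r (q.2.erase f \ W.erase x) - r (q.2.erase f) - r q.1 ≤ 1 := l1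
      have m2 : r (q.1 ∪ W.erase y) + r (q.2.erase f \ W.erase y) - r (q.2.erase f) - r q.1 ≤ 1 := l2
      have hs := hr.sub (q.2.erase f \ W.erase x) (q.2.erase f \ W.erase y)
      have e1 : q.2 \ {f, w} ⊆ q.2.erase f \ W.erase x ∪ (q.2.erase f \ W.erase y) := by
        intro v hv
        simp only [Finset.mem_union, Finset.mem_insert, Finset.mem_singleton, Finset.mem_sdiff, Finset.mem_erase] at hv ⊢
        obtain ⟨h1, h2⟩ := hv
        push Not at h2
        by_cases h : v = x
        · left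
          exact ⟨⟨h2.1, h1⟩, fun h' => h'.1 h⟩
        · by_cases h' : v = y
          · right
            exact ⟨⟨h2.1, h1⟩, fun h'' => h''.1 h'⟩
          · left
            refine ⟨⟨h2.1, h1⟩, fun h'' => ?_⟩
            rcases hWw v h''.2 with h3 | h3 | h3
            · exact h h3
            · exact h' h3
            · exact h2.2 h3
      have e2 : q.2 \ insert f W ⊆ (q.2.erase f \ W.erase x) ∩ (q.2.erase f \ W.erase y) := by
        intro v hv
        simp only [Finset.mem_inter, Finset.mem_insert, Finset.mem_sdiff, Finset.mem_erase] at hv ⊢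
        tauto
      have e3 := hr.mono _ _ e1
      have e4 := hr.mono _ _ e2
      have e5 : q.1 ∪ insert f W = insert f (q.1 ∪ W) := by rw [Finset.union_insert]
      have e6 := hr.unit (q.1 ∪ W) f
      have e7 : insert x q.1 ∪ W.erase x = q.1 ∪ W := by
        ext v
        simp only [Finset.mem_union, Finset.mem_insert, Finset.mem_erase]
        by_cases h : v = x
        · rw [h]
          tauto
        · tauto
      rw [e5] at lF
      show 1 ≤ r (insert x q.1 ∪ W.erase x) + r (q.2.erase f \ W.erase x) - r (q.2.erase f) - r (insert x q.1)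
      rw [e7]
      linarith [px.1, py.1, pf.2]

/-- **PX**: some element different from `b` has a removal which is rich and has only small separations of order one -/
theorem px (S : TP F4 E) (hNU : NU S.r) {q : Itv E} (hq : q.1 ⊆ q.2) (hc : Cn S.r q) (h3 : Th3 S.r q) (hn : 6 ≤ (gs q).card)
    (hR : HasRich S.r q) (b : E) : ∃ f ∈ gs q, f ≠ b ∧ ∃ t : Bool, HasRich S.r (rm t f q) ∧ Sm S.r (rm t f q) := by
  obtain ⟨f0, hf0, hf0b, t0, hR0⟩ := rich_off S hNU hq h3 hn hR b
  by_contra hcon
  push Not at hcon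
  have hno : ∀ f ∈ gs q, f ≠ b → ∀ t : Bool, HasRich S.r (rm t f q) → ¬ Sm S.r (rm t f q) := hcon
  -- bad triples
  let P : ℕ → Prop := fun n => ∃ (f : E) (t : Bool) (N : Itv E) (W : Finset E), f ∈ gs q ∧ f ≠ b ∧ Sub N (rm t f q) ∧ Rich S.r N ∧
    W ⊆ gs (rm t f q) ∧ QUB.lam S.r (rm t f q) W ≤ 1 ∧ 3 ≤ W.card ∧ (W ∩ gs N).card ≤ 1 ∧ W.card = n
  have hP : ∃ n, P n := by
    obtain ⟨N, hN, hRN⟩ := hR0
    have h1 := hno f0 hf0 hf0b t0 ⟨N, hN, hRN⟩
    unfold Sm at h1
    push Not at h1
    obtain ⟨A, hA, hl, a1, a2⟩ := h1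
    have hw : (rm t0 f0 q).1 ⊆ (rm t0 f0 q).2 := QUB.wf_rm hq hf0
    rcases rich_side S.rk hw hA hl hN hRN with h2 | h2
    · exact ⟨_, f0, t0, N, A, hf0, hf0b, hN, hRN, hA, hl, a1, h2, rfl⟩
    · refine ⟨_, f0, t0, N, gs (rm t0 f0 q) \ A, hf0, hf0b, hN, hRN, Finset.sdiff_subset, ?_, a2, h2, rfl⟩
      exact (lam_compl S.r hw hA).trans_le hl
  classical
  obtain ⟨f, t, N, W, hf, hfb, hN, hRN, hW, hl, hW3, hWN, hWn⟩ := Nat.find_spec hP
  have hmin : ∀ k, P k → Nat.find hP ≤ k := fun k hk => Nat.find_min' hP hk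
  have hw : (rm t f q).1 ⊆ (rm t f q).2 := QUB.wf_rm hq hf
  have gm : gs (rm t f q) = (gs q).erase f := gs_rm t f q
  have hcm : Cn S.r (rm t f q) := th3_cn S.rk hq hc h3 (by omega) hf t
  have hWq : W ⊆ gs q := by
    rw [gm] at hW
    exact hW.trans (Finset.erase_subset _ _)
  have hZs : gs (rm t f q) \ W ⊆ gs (rm t f q) := Finset.sdiff_subset
  have hZe : QUB.lam S.r (rm t f q) (gs (rm t f q) \ W) = QUB.lam S.r (rm t f q) W := lam_compl S.r hw hW
  have hN5 : (gs N).card = 5 := hRN.2.1
  have hNs : gs N ⊆ gs (rm t f q) := fun v hv => by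
    have h1 := Finset.mem_sdiff.1 hv
    exact Finset.mem_sdiff.2 ⟨hN.2 h1.1, fun h => h1.2 (hN.1 h)⟩
  have hZc : 4 ≤ (gs (rm t f q) \ W).card := by
    have h1 : gs N \ W ⊆ gs (rm t f q) \ W := Finset.sdiff_subset_sdiff hNs (Finset.Subset.refl _)
    have h2 := Finset.card_le_card h1
    have h4 : (gs N \ W).card + (gs N ∩ W).card = (gs N).card := Finset.card_sdiff_add_card_inter (gs N) W
    rw [Finset.inter_comm] at h4
    omega
  have h7 : 7 ≤ (gs q).card := by
    have h1 : (gs (rm t f q) \ W).card + W.card = (gs (rm t f q)).card := Finset.card_sdiff_add_card_eq_card hW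
    rw [gm, Finset.card_erase_of_mem hf] at h1
    rw [gm] at hZc
    omega
  have hZ1 : QUB.lam S.r (rm t f q) (gs (rm t f q) \ W) = 1 := by
    have h1 : 1 ≤ QUB.lam S.r (rm t f q) (gs (rm t f q) \ W) := by
      refine hcm _ hZs (Finset.card_pos.1 (by omega)) ?_
      rw [show QUB.gs (rm t f q) = gs (rm t f q) from rfl, Finset.sdiff_sdiff_eq_self hW]
      exact Finset.card_pos.1 (by omega)
    omega
  -- a rich minor after the removal of an element of `W`
  have keep' : ∀ x ∈ W, ∀ s : Bool, 1 ≤ QUB.lam S.r (rm s x (rm t f q)) (gs (rm t f q) \ W) → HasRich S.r (rm s x q) := by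
    intro x hx s h1
    have hxZ : x ∉ gs (rm t f q) \ W := fun h => (Finset.mem_sdiff.1 h).2 hx
    have hsub : gs (rm t f q) \ W ⊆ (gs (rm t f q)).erase x := fun v hv =>
      Finset.mem_erase.2 ⟨fun h => hxZ (h ▸ hv), (Finset.mem_sdiff.1 hv).1⟩
    have h2 := lam_rm_le S.rk (t := s) (hW hx) hsub
    have h4 := keep S hw hZs (hW hx) hxZ (s := s) hZ1 (le_antisymm (by rw [hZ1] at h2; exact h2) h1) hN hRN (by
      rw [Finset.sdiff_sdiff_eq_self hW]
      exact hWN)
    obtain ⟨N', k1, k2⟩ := h4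
    exact ⟨N', ((rm_sub t f q).rm s x).trans k1, k2⟩
  have two : ∀ x ∈ W, x ≠ b → 2 ≤ QUB.lam S.r (rm t f q) (W.erase x) → False := by
    intro x hx hxb h2
    have hxZ : x ∉ gs (rm t f q) \ W := fun h => (Finset.mem_sdiff.1 h).2 hx
    have hsub : gs (rm t f q) \ W ⊆ (gs (rm t f q)).erase x := fun v hv =>
      Finset.mem_erase.2 ⟨fun h => hxZ (h ▸ hv), (Finset.mem_sdiff.1 hv).1⟩
    have e1 : gs (rm t f q) \ W.erase x = insert x (gs (rm t f q) \ W) := by
      ext v
      simp only [Finset.mem_sdiff, Finset.mem_insert, Finset.mem_erase]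
      constructor
      · rintro ⟨h1, h2⟩
        by_cases h : v = x
        · exact Or.inl h
        · exact Or.inr ⟨h1, fun h' => h2 ⟨h, h'⟩⟩
      · rintro (rfl | ⟨h1, h2⟩)
        · exact ⟨hW hx, fun h => h.1 rfl⟩
        · exact ⟨h1, fun h => h2 h.2⟩
    have h4 : QUB.lam S.r (rm t f q) (insert x (gs (rm t f q) \ W)) = QUB.lam S.r (rm t f q) (W.erase x) := by
      rw [← e1]
      exact lam_compl S.r hw ((Finset.erase_subset _ _).trans hW)
    have hk : ∀ s : Bool, HasRich S.r (rm s x q) := fun s => keep' x hx s (by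
      have h5 := lam_le_rm' S.rk (t := s) (hW hx) hsub
      omega)
    rcases sm_bix S.rk hq h3 (hWq hx) with h | h
    · exact hno x (hWq hx) hxb true (hk true) h
    · exact hno x (hWq hx) hxb false (hk false) h
  have one : ∀ x ∈ W, x ≠ b → QUB.lam S.r (rm t f q) (W.erase x) ≤ 1 := by
    intro x hx hxb
    by_contra h
    exact two x hx hxb (by omega)
  have hc3 : W.card = 3 := by
    by_contra hne
    obtain ⟨x, hx⟩ : (W.erase b).Nonempty := Finset.card_pos.1 (by
      have := Finset.pred_card_le_card_erase (s := W) (a := b)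
      omega)
    have hxb := (Finset.mem_erase.1 hx).1
    have hxW := (Finset.mem_erase.1 hx).2
    have ce : (W.erase x).card = W.card - 1 := Finset.card_erase_of_mem hxW
    have h1 := hmin (W.erase x).card ⟨f, t, N, W.erase x, hf, hfb, hN, hRN, (Finset.erase_subset _ _).trans hW, one x hxW hxb, by omega,
      (Finset.card_le_card (Finset.inter_subset_inter_right (Finset.erase_subset _ _))).trans hWN, rfl⟩
    omega
  obtain ⟨x, y, hx, hy, hxy, hxb, hyb⟩ : ∃ x y, x ∈ W ∧ y ∈ W ∧ x ≠ y ∧ x ≠ b ∧ y ≠ b := by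
    have h1 : 1 < (W.erase b).card := by
      have := Finset.pred_card_le_card_erase (s := W) (a := b)
      omega
    obtain ⟨x, hx, y, hy, hxy⟩ := Finset.one_lt_card.1 h1
    have hx' := Finset.mem_erase.1 hx
    have hy' := Finset.mem_erase.1 hy
    exact ⟨x, y, hx'.2, hy'.2, hxy, hx'.1, hy'.1⟩
  obtain ⟨⟨A, hA, hlA, a1, a2⟩, h5⟩ := px_three S.rk hq h3 h7 hf hcm hW hc3 hx hy hxy (one x hx hxb) (one y hy hyb)
  have hkx := keep' x hx (!t) h5
  have hsm : Sm S.r (rm (!t) x q) := by
    intro A' hA' hl'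
    by_contra h6
    push Not at h6
    have b1 : 3 ≤ A'.card := h6.1
    have b2 : 3 ≤ (gs (rm (!t) x q) \ A').card := h6.2
    rw [gs_rm] at hA hA' a2 b2
    cases t
    · exact bix_no S.rk hq h3 (hWq hx) hA' b1 b2 hl' hA a1 a2 hlA
    · exact bix_no S.rk hq h3 (hWq hx) hA a1 a2 hlA hA' b1 b2 hl'
  exact hno x (hWq hx) hxb (!t) hkx hsm

end

end Pool.Agent.QU
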