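import Pool.Agent.QUX.Pl

/-!
# QUX/Two: a tangent of a 5-arc in a 2-uniform plane contains at most one further point

`two`: `L` of rank three in the class, `a, b, c, d, e` no three collinear, `u, v` two further points on a line through `a` which contains none of
`b, c, d, e`: impossible.  (In `PG(2, 4)` this line contains the sixth point of the hyperoval: `QUD.ckH`, i.e. `ex_36` and `ex_half`.)
-/

set_option autoImplicit false

noncomputable section

open scoped Classical

namespace Pool.Agent.QUX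

open Pool.Agent.FRM Pool.Agent.QUS Pool.Agent.QUE Pool.Agent.QUY Pool.Agent.QUD
open Pool.Agent.QU (van)

variable {E : Type} [Fintype E] {L : Submodule F4 (E → F4)} {Φ : Submodule KU (E → KU)}

def okT (P : V3) (p q : PT) : Bool :=
  (arA.contains p.1 || arA.contains q.1) || (decide (p = q) || (!(Z P p.1 q.1) ||
    ((arA.any fun Q => decide (Q ≠ P) && Z P p.1 Q) || !(Q2A p q))))

theorem ckTwo : (arA.all fun P => ptsA.all fun p => ptsA.all fun q => okT P p q) = true := by
  decide +kernel

private theorem arA_inj2 : (arA.all fun P => arA.all fun Q => f4L.all fun m => f4L.all fun n => decide (P = Q) || (decide (m = 0) ||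
    !(decide (sm m P = sm n Q)))) = true := by
  decide +kernel

private theorem mem_f4L2 (x : F4) : x ∈ f4L := by
  cases x <;> decide

/-- every one of the five elements is at a point of the arc -/
theorem at_arc {F : Fr L} {S : Finset E} (hS : S.card ≤ 5) (har : ∀ P ∈ arA, ∃ x ∈ S, At F x P) : ∀ x ∈ S, ∃ P ∈ arA, At F x P := by
  intro x hx
  have : Nonempty E := ⟨x⟩
  choose! u hu1 hu2 using har
  have uinj : ∀ P ∈ arA, ∀ Q ∈ arA, u P = u Q → P = Q := by
    intro P hP Q hQ h
    obtain ⟨m, hm, h1⟩ := hu2 P hP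
    obtain ⟨n, hn, h2⟩ := hu2 Q hQ
    have h3 := List.all_eq_true.1 (List.all_eq_true.1 (List.all_eq_true.1 (List.all_eq_true.1 arA_inj2 P hP) Q hQ) m (mem_f4L2 m)) n
      (mem_f4L2 n)
    rw [h, h2] at h1
    by_contra hne
    rw [decide_eq_false hne, decide_eq_false hm, decide_eq_true h1.symm] at h3
    exact Bool.noConfusion h3
  have hc : (arA.toFinset.image u).card = 5 := by
    rw [Finset.card_image_of_injOn]
    · decide
    · intro P hP Q hQ h
      exact uinj P (List.mem_toFinset.1 hP) Q (List.mem_toFinset.1 hQ) h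
  have hsub : arA.toFinset.image u ⊆ S := by
    intro y hy
    obtain ⟨P, hP, rfl⟩ := Finset.mem_image.1 hy
    exact hu1 P (List.mem_toFinset.1 hP)
  have he := Finset.eq_of_subset_of_card_le hsub (by omega)
  rw [← he] at hx
  obtain ⟨P, hP, rfl⟩ := Finset.mem_image.1 hx
  exact ⟨P, List.mem_toFinset.1 hP, hu2 P (List.mem_toFinset.1 hP)⟩

theorem two (hB : ∀ S, IsB Φ S ↔ IsB L S)
    (hU : ∀ S, IsB Φ S → ∀ b ∈ S, ∀ e, e ∉ S → fv Φ S b e = 0 ∨ InG (fv Φ S b e)) {a b c d e u v : E} (hA : Ac L a b c d e)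
    (hu : ∀ i ∈ ({a, b, c, d, e} : Finset E), rk L {i, u} = 2) (hv : ∀ i ∈ ({a, b, c, d, e} : Finset E), rk L {i, v} = 2)
    (huv : rk L {u, v} = 2) (h3 : rk L {a, u, v} ≤ 2) (hm : ∀ j ∈ ({b, c, d, e} : Finset E), rk L {a, u, j} = 3) : False := by
  obtain ⟨F, hF, har⟩ := frame5 hA
  have har' : ∀ P ∈ arA, ∃ x, At F x P := fun P hP => (har P hP).imp fun _ h => h.2
  obtain ⟨P0, hP0, haP⟩ := at_arc (S := ({a, b, c, d, e} : Finset E)) Finset.card_le_five har a (by simp)
  have h6 : rk L Finset.univ = 3 := by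
    obtain ⟨h1, h2, h4, h5⟩ := hA.1
    have h6 := (isB_iff.1 h5).2
    rw [Finset.card_eq_three.2 ⟨a, b, c, h1, h2, h4, rfl⟩] at h6
    exact_mod_cast h6
  have hpt : ∀ w : E, (∀ i ∈ ({a, b, c, d, e} : Finset E), rk L {i, w} = 2) → ∃ p ∈ ptsA, At F w p.1 ∧ p.1 ∉ arA := by
    intro w hn
    have h := List.all_eq_true.1 normA (F.vv w) (mem_allV _)
    simp only [Bool.or_eq_true, decide_eq_true_eq, List.any_eq_true, Bool.and_eq_true] at h
    rcases h with h | ⟨m, -, hm, h⟩ | ⟨p, hp, m, -, hm, h⟩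
    · have h1 := hn a (by simp)
      have h2 := rk_at0 (F := F) (i := a) h
      omega
    · exact (no_hA hB hU hF har' ⟨m, hm, h⟩).elim
    · refine ⟨p, hp, ⟨m, hm, h⟩, fun hpa => ?_⟩
      obtain ⟨i, hi, h1⟩ := har p.1 hpa
      have h2 := hn i hi
      have h3 := rk_at h1 ⟨m, hm, h⟩
      omega
  obtain ⟨p, hp, hup, hpa⟩ := hpt u hu
  obtain ⟨q, hq, hvq, hqa⟩ := hpt v hv
  have hpq : p ≠ q := by
    rintro rfl
    have := rk_at hup hvq
    omega
  have hQ2 : Q2A p q = true := by
    by_contra hno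
    rw [Bool.not_eq_true] at hno
    have h := List.all_eq_true.1 (List.all_eq_true.1 ckH p hp) q hq
    rw [hno, decide_eq_false hpq, Bool.false_or, Bool.false_or] at h
    exact no_patH hB hU hF har' hup hvq h
  have hdt : dt P0 p.1 q.1 = 0 := by
    by_contra h
    obtain ⟨h1, h2, h4, h5⟩ := (b3_at hF haP hup hvq).2 h
    have h7 := (isB_iff.1 h5).1
    rw [Finset.card_eq_three.2 ⟨a, u, v, h1, h2, h4, rfl⟩] at h7
    push_cast at h7
    omega
  have hck := List.all_eq_true.1 (List.all_eq_true.1 (List.all_eq_true.1 ckTwo P0 hP0) p hp) q hq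
  have c1 : arA.contains p.1 = false := by
    rw [List.contains_eq_mem, decide_eq_false hpa]
  have c2 : arA.contains q.1 = false := by
    rw [List.contains_eq_mem, decide_eq_false hqa]
  have c4 : Z P0 p.1 q.1 = true := (Z_of' _ _ _).2 hdt
  unfold okT at hck
  rw [c1, c2, c4, hQ2, decide_eq_false hpq] at hck
  simp only [Bool.or_self, Bool.not_true, Bool.false_or, Bool.or_false, List.any_eq_true, Bool.and_eq_true, decide_eq_true_eq, Z_of'] at hck
  obtain ⟨Q, hQ, hQP, hz⟩ := hck
  obtain ⟨j, hj, hjQ⟩ := har Q hQ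
  have hja : j ≠ a := by
    rintro rfl
    obtain ⟨m, hm', h1⟩ := haP
    obtain ⟨n, hn', h2⟩ := hjQ
    have h4 := List.all_eq_true.1 (List.all_eq_true.1 (List.all_eq_true.1 (List.all_eq_true.1 arA_inj2 P0 hP0) Q hQ) m (mem_f4L2 m)) n
      (mem_f4L2 n)
    rw [h2] at h1
    rw [decide_eq_false (Ne.symm hQP), decide_eq_false hm', decide_eq_true h1.symm] at h4
    exact Bool.noConfusion h4
  have hj' : j ∈ ({b, c, d, e} : Finset E) := by
    rcases Finset.mem_insert.1 hj with h | h
    · exact absurd h hja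
    · exact h
  have h8 := hm j hj'
  have hB3 : B3 L a u j := by
    have n1 : a ≠ u := by
      rintro rfl
      have e1 := hu a (by simp)
      have e2 := (isRk L).unit ∅ a
      have e3 := (isRk L).empty
      have e4 : insert a (∅ : Finset E) = {a, a} := by simp
      rw [e4] at e2
      omega
    have n2 : u ≠ j := by
      rintro rfl
      have e1 := hu u (by
        rw [Finset.mem_insert]
        exact Or.inr hj')
      have e2 := (isRk L).unit ∅ u
      have e3 := (isRk L).empty
      have e4 : insert u (∅ : Finset E) = {u, u} := by simp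
      rw [e4] at e2
      omega
    refine ⟨n1, hja.symm, n2, isB_iff.2 ?_⟩
    rw [Finset.card_eq_three.2 ⟨a, u, j, n1, hja.symm, n2, rfl⟩, h8, h6]
    norm_num
  exact (b3_at hF haP hup hjQ).1 hB3 hz

end Pool.Agent.QUX
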